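import Mathlib
import Pool.Agent.R331.LF.Cantelli

/-! Hausdorff dimension of limsup sets of balls around the points of a set with a power bound for
the number of points of bounded height. -/

set_option autoImplicit false

open MeasureTheory Set
open scoped ENNReal NNReal

namespace Pool.Agent.R437.Met

theorem sum_le_of_count {ι : Type*} (h : ι → ℝ) (hh : ∀ i, 1 ≤ h i) (a b M : ℝ) (ha : 0 ≤ a)
    (hab : a < b)
    (hc : ∀ B : ℝ, 1 ≤ B → {i | h i ≤ B}.Finite ∧ (({i | h i ≤ B}.ncard : ℕ) : ℝ) ≤ M * B ^ a)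
    (F : Finset ι) :
    ∑ i ∈ F, (h i) ^ (-b) ≤ |M| * 2 ^ a * (1 - (2 : ℝ) ^ (a - b))⁻¹ := by
  classical
  set g : ι → ℕ := fun i => Nat.log 2 ⌊h i⌋₊ with hg
  have hfl : ∀ i, 1 ≤ ⌊h i⌋₊ := fun i => Nat.one_le_floor_iff _ |>.mpr (hh i)
  have h1 : ∀ i, (2 : ℝ) ^ (g i) ≤ h i := by
    intro i
    have e1 : 2 ^ (g i) ≤ ⌊h i⌋₊ := Nat.pow_log_le_self 2 (by have := hfl i; omega)
    calc (2 : ℝ) ^ (g i) = ((2 ^ (g i) : ℕ) : ℝ) := by push_cast; rfl
      _ ≤ (⌊h i⌋₊ : ℝ) := by exact_mod_cast e1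
      _ ≤ h i := Nat.floor_le (by linarith [hh i])
  have h2 : ∀ i, h i ≤ (2 : ℝ) ^ (g i + 1) := by
    intro i
    have e1 : ⌊h i⌋₊ < 2 ^ (g i + 1) := Nat.lt_pow_succ_log_self (by norm_num) _
    have e2 : h i < (⌊h i⌋₊ : ℝ) + 1 := Nat.lt_floor_add_one _
    have e3 : ((⌊h i⌋₊ + 1 : ℕ) : ℝ) ≤ ((2 ^ (g i + 1) : ℕ) : ℝ) := by exact_mod_cast e1
    push_cast at e3
    linarith
  set N : ℕ := F.sup g + 1 with hN
  have hmaps : ∀ i ∈ F, g i ∈ Finset.range N := by
    intro i hi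
    rw [Finset.mem_range, hN]
    have := Finset.le_sup (f := g) hi
    omega
  rw [← Finset.sum_fiberwise_of_maps_to hmaps]
  have hr0 : (0 : ℝ) < 2 ^ (a - b) := by positivity
  have hr1 : (2 : ℝ) ^ (a - b) < 1 := Real.rpow_lt_one_of_one_lt_of_neg (by norm_num) (by linarith)
  have hblock : ∀ k ∈ Finset.range N, ∑ i ∈ F with g i = k, (h i) ^ (-b) ≤
      |M| * 2 ^ a * ((2 : ℝ) ^ (a - b)) ^ k := by
    intro k _
    have hB : (1 : ℝ) ≤ (2 : ℝ) ^ (k + 1) := one_le_pow₀ (by norm_num)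
    obtain ⟨hf, hcc⟩ := hc ((2 : ℝ) ^ (k + 1)) hB
    have hcard : ((F.filter fun i => g i = k).card : ℝ) ≤ |M| * ((2 : ℝ) ^ (k + 1)) ^ a := by
      have e1 : ((F.filter fun i => g i = k) : Set ι) ⊆ {i | h i ≤ (2 : ℝ) ^ (k + 1)} := by
        intro i hi
        rw [Finset.mem_coe, Finset.mem_filter] at hi
        have := h2 i
        rw [hi.2] at this
        exact this
      have e2 := Set.ncard_le_ncard e1 hf
      rw [Set.ncard_coe_finset] at e2
      have e3 : ((F.filter fun i => g i = k).card : ℝ) ≤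
        (({i | h i ≤ (2 : ℝ) ^ (k + 1)}.ncard : ℕ) : ℝ) := by exact_mod_cast e2
      refine (e3.trans hcc).trans (mul_le_mul_of_nonneg_right (le_abs_self M) (by positivity))
    have hterm : ∀ i ∈ F.filter fun i => g i = k, (h i) ^ (-b) ≤ ((2 : ℝ) ^ k) ^ (-b) := by
      intro i hi
      rw [Finset.mem_filter] at hi
      have e1 := h1 i
      rw [hi.2] at e1
      exact Real.rpow_le_rpow_of_nonpos (by positivity) e1 (by linarith)
    calc ∑ i ∈ F with g i = k, (h i) ^ (-b)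
        ≤ ∑ i ∈ F with g i = k, ((2 : ℝ) ^ k) ^ (-b) := Finset.sum_le_sum hterm
      _ = ((F.filter fun i => g i = k).card : ℝ) * ((2 : ℝ) ^ k) ^ (-b) := by
          rw [Finset.sum_const, nsmul_eq_mul]
      _ ≤ (|M| * ((2 : ℝ) ^ (k + 1)) ^ a) * ((2 : ℝ) ^ k) ^ (-b) :=
          mul_le_mul_of_nonneg_right hcard (by positivity)
      _ = |M| * 2 ^ a * ((2 : ℝ) ^ (a - b)) ^ k := by
          rw [← Real.rpow_natCast 2 (k + 1), ← Real.rpow_natCast 2 k,
            ← Real.rpow_natCast ((2 : ℝ) ^ (a - b)) k, ← Real.rpow_mul (by norm_num),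
            ← Real.rpow_mul (by norm_num), ← Real.rpow_mul (by norm_num), mul_assoc, mul_assoc,
            ← Real.rpow_add (by norm_num), ← Real.rpow_add (by norm_num)]
          congr 2
          push_cast
          ring
  refine (Finset.sum_le_sum hblock).trans ?_
  rw [← Finset.mul_sum]
  refine mul_le_mul_of_nonneg_left ?_ (by positivity)
  have := (summable_geometric_of_lt_one hr0.le hr1).sum_le_tsum (Finset.range N)
    (fun i _ => by positivity)
  rwa [tsum_geometric_of_lt_one hr0.le hr1] at this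

theorem summable_of_count {ι : Type*} (h : ι → ℝ) (hh : ∀ i, 1 ≤ h i) (a b M : ℝ) (ha : 0 ≤ a)
    (hab : a < b)
    (hc : ∀ B : ℝ, 1 ≤ B → {i | h i ≤ B}.Finite ∧ (({i | h i ≤ B}.ncard : ℕ) : ℝ) ≤ M * B ^ a) :
    Summable fun i => (h i) ^ (-b) :=
  summable_of_sum_le (fun i => Real.rpow_nonneg (by linarith [hh i]) _)
    (sum_le_of_count h hh a b M ha hab hc)

/-- Limsup sets of balls. -/
theorem dim_limsup {ι X : Type*} [MetricSpace X] (P : Set ι) (f : ι → X) (h : ι → ℝ)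
    (hh : ∀ i ∈ P, 1 ≤ h i) {s τ : ℝ} (hs : 0 ≤ s) (hτ : 0 < τ)
    (hc : ∀ δ : ℝ, 0 < δ → ∃ M : ℝ, ∀ B : ℝ, 1 ≤ B → {i | i ∈ P ∧ h i ≤ B}.Finite ∧
      (({i | i ∈ P ∧ h i ≤ B}.ncard : ℕ) : ℝ) ≤ M * B ^ (s + δ)) :
    dimH {ξ : X | ∃ C : ℝ, {i | i ∈ P ∧ dist ξ (f i) ≤ C * (h i) ^ (-τ)}.Infinite} ≤
      ENNReal.ofReal (s / τ) := by
  let _ : MeasurableSpace X := borel X
  have _ : BorelSpace X := ⟨rfl⟩
  -- countability
  have hP : P.Countable := by
    have e1 : P ⊆ ⋃ n : ℕ, {i | i ∈ P ∧ h i ≤ (n : ℝ) + 1} := by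
      intro i hi
      obtain ⟨n, hn⟩ := exists_nat_ge (h i)
      exact mem_iUnion.2 ⟨n, hi, by linarith⟩
    refine (countable_iUnion fun n => ?_).mono e1
    obtain ⟨M, hM⟩ := hc 1 one_pos
    exact (hM ((n : ℝ) + 1) (by linarith [Nat.cast_nonneg (α := ℝ) n])).1.countable
  have _ : Countable P := hP.to_subtype
  have hsub : {ξ : X | ∃ C : ℝ, {i | i ∈ P ∧ dist ξ (f i) ≤ C * (h i) ^ (-τ)}.Infinite} ⊆
      ⋃ C : ℕ, {ξ : X | {i : P | ξ ∈ Metric.closedBall (f i) (C * (h i) ^ (-τ))}.Infinite} := by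
    rintro ξ ⟨C, hC⟩
    obtain ⟨n, hn⟩ := exists_nat_ge C
    refine mem_iUnion.2 ⟨n, ?_⟩
    intro hfin
    apply hC
    refine (hfin.image (Subtype.val : P → ι)).subset ?_
    rintro i ⟨hi, hd⟩
    refine ⟨⟨i, hi⟩, ?_, rfl⟩
    show ξ ∈ Metric.closedBall (f i) ((n : ℝ) * (h i) ^ (-τ))
    rw [Metric.mem_closedBall]
    refine hd.trans (mul_le_mul_of_nonneg_right hn (Real.rpow_nonneg ?_ _))
    linarith [hh i hi]
  refine (dimH_mono hsub).trans ?_
  rw [dimH_iUnion]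
  refine iSup_le fun C => ?_
  refine ENNReal.le_of_forall_pos_le_add fun ε hε _ => ?_
  have hε' : (0 : ℝ) < ε := hε
  have hst : 0 ≤ s / τ := by positivity
  rw [← ENNReal.ofReal_coe_nnreal, ← ENNReal.ofReal_add hst hε'.le]
  set t : ℝ := s / τ + ε with ht
  have ht0 : 0 < t := by positivity
  obtain ⟨M, hM⟩ := hc (τ * ε / 2) (by positivity)
  have hsum : Summable fun i : P => (h i) ^ (-(τ * t)) := by
    refine summable_of_count (fun i : P => h i) (fun i => hh i i.2) (s + τ * ε / 2) (τ * t) M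
      (by positivity) ?_ ?_
    · rw [ht, mul_add, mul_div_cancel₀ _ hτ.ne']
      have : 0 < τ * ε := by positivity
      linarith
    · intro B hB
      obtain ⟨h1, h2⟩ := hM B hB
      have e1 : {i : P | h i ≤ B} = (Subtype.val : P → ι) ⁻¹' {i | i ∈ P ∧ h i ≤ B} := by
        ext i
        simp
      have e3 : (Subtype.val : P → ι) '' {i : P | h i ≤ B} = {i | i ∈ P ∧ h i ≤ B} := by
        ext i
        simp only [mem_image, mem_ofPred_eq, Subtype.exists, exists_and_right, exists_eq_right]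
        constructor
        · rintro ⟨h1, h2⟩
          exact ⟨h1, h2⟩
        · rintro ⟨h1, h2⟩
          exact ⟨h1, h2⟩
      have hfin : {i : P | h i ≤ B}.Finite := by
        refine Set.Finite.of_finite_image ?_ Subtype.val_injective.injOn
        rw [e3]
        exact h1
      refine ⟨hfin, ?_⟩
      have e2 : {i : P | h i ≤ B}.ncard = {i | i ∈ P ∧ h i ≤ B}.ncard := by
        rw [← e3]
        exact (Set.ncard_image_of_injective _ Subtype.val_injective).symm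
      rw [e2]
      exact h2
  refine Pool.Agent.R331.LF.hc
    (fun i : P => Metric.closedBall (f i) ((C : ℝ) * (h i) ^ (-τ))) t ht0 ?_
  have hle : ∀ i : P, (Metric.ediam (Metric.closedBall (f i) ((C : ℝ) * (h i) ^ (-τ)))) ^ t ≤
      ENNReal.ofReal ((2 * (C : ℝ)) ^ t * (h i) ^ (-(τ * t))) := by
    intro i
    have hi0 : 0 < h i := by linarith [hh i i.2]
    have hr : 0 ≤ (C : ℝ) * (h i) ^ (-τ) := by positivity
    have e1 : Metric.ediam (Metric.closedBall (f i) ((C : ℝ) * (h i) ^ (-τ))) ≤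
        ENNReal.ofReal (2 * ((C : ℝ) * (h i) ^ (-τ))) := by
      rw [← Metric.closedEBall_ofReal hr, ENNReal.ofReal_mul (by norm_num : (0 : ℝ) ≤ 2),
        ENNReal.ofReal_ofNat]
      exact Metric.ediam_closedEBall_le
    calc (Metric.ediam (Metric.closedBall (f i) ((C : ℝ) * (h i) ^ (-τ)))) ^ t
        ≤ (ENNReal.ofReal (2 * ((C : ℝ) * (h i) ^ (-τ)))) ^ t :=
          ENNReal.rpow_le_rpow e1 ht0.le
      _ = ENNReal.ofReal ((2 * (C : ℝ)) ^ t * (h i) ^ (-(τ * t))) := by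
          rw [ENNReal.ofReal_rpow_of_nonneg (by positivity) ht0.le, ← mul_assoc,
            Real.mul_rpow (by positivity) (by positivity), ← Real.rpow_mul hi0.le]
          congr 3
          ring
  refine ne_top_of_le_ne_top ?_ (ENNReal.tsum_le_tsum hle)
  exact (hsum.mul_left _).tsum_ofReal_ne_top

end Pool.Agent.R437.Met
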