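import Mathlib
import Pool.Agent.R437.Met.Lim

/-! Exceptional elements near a point, in all number fields of a given degree. -/

set_option autoImplicit false

open MeasureTheory Set NumberField Height Filter
open scoped ENNReal NNReal

namespace Pool.Agent.R437.Met.AF

/-- the number fields inside the algebraic closure of `ℚ` -/
abbrev NF : Type := {K : IntermediateField ℚ (AlgebraicClosure ℚ) // NumberField K}

instance (K : NF) : NumberField K.1 := K.2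

/-- a number field `K`, an element of `K` and an embedding of `K` into `Λ` -/
abbrev Pt (Λ : Type) [Field Λ] : Type := Σ K : NF, K.1 × (K.1 →+* Λ)

/-- the absolute logarithmic height of the element -/
noncomputable def ht {Λ : Type} [Field Λ] (p : Pt Λ) : ℝ :=
  logHeight₁ p.2.1 / Module.finrank ℚ p.1.1

/-- the logarithm of the root discriminant -/
noncomputable def rd (K : NF) : ℝ :=
  Real.log |(discr K.1 : ℝ)| / Module.finrank ℚ K.1

/-- The approximations of `ξ` of exponent `τ` and constant `C` in the fields of degree `n`, with root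
discriminant at most the `θ`-th power of the height. -/
def Near {Λ : Type} [Field Λ] [MetricSpace Λ] (n : ℕ) (θ τ C : ℝ) (ξ : Λ) : Set (Pt Λ) :=
  {p | Module.finrank ℚ p.1.1 = n ∧ rd p.1 ≤ θ * ht p ∧
    dist ξ (p.2.2 p.2.1) ≤ C * Real.exp (-τ * ht p)}

lemma ht_nonneg {Λ : Type} [Field Λ] (p : Pt Λ) : 0 ≤ ht p :=
  div_nonneg (zero_le_logHeight₁ _) (Nat.cast_nonneg _)

lemma one_le_disc (K : NF) : (1 : ℝ) ≤ |(discr K.1 : ℝ)| := by
  have h1 : (1 : ℤ) ≤ |discr K.1| := Int.one_le_abs (discr_ne_zero K.1)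
  exact_mod_cast h1

lemma rd_nonneg (K : NF) : 0 ≤ rd K :=
  div_nonneg (Real.log_nonneg (one_le_disc K)) (Nat.cast_nonneg _)

theorem card_emb {Λ : Type} [Field Λ] [CharZero Λ] (K : Type) [Field K] [NumberField K] :
    Finite (K →+* Λ) ∧ Nat.card (K →+* Λ) ≤ Module.finrank ℚ K := by
  classical
  have hinj : Function.Injective (fun σ : K →+* Λ =>
      (algebraMap Λ (AlgebraicClosure Λ)).comp σ) := by
    intro σ σ' h
    ext x
    have h1 := RingHom.congr_fun h x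
    exact (algebraMap Λ (AlgebraicClosure Λ)).injective h1
  have : CharZero (AlgebraicClosure Λ) := charZero_of_injective_algebraMap
    (algebraMap Λ (AlgebraicClosure Λ)).injective
  have : Finite (K →+* AlgebraicClosure Λ) := Finite.of_fintype _
  refine ⟨Finite.of_injective _ hinj, ?_⟩
  refine (Nat.card_le_card_of_injective _ hinj).trans ?_
  rw [Nat.card_eq_fintype_card, NumberField.Embeddings.card]

theorem count {Λ : Type} [Field Λ] [CharZero Λ] (Bad : ∀ K : NF, Set K.1) {n : ℕ} (hn : 1 ≤ n)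
    {a s θ : ℝ} (hθ : 0 ≤ θ)
    (hfield : ∃ C : ℝ, ∀ X : ℝ, 1 ≤ X →
      {K : NF | Module.finrank ℚ K.1 = n ∧ |(discr K.1 : ℝ)| ≤ X}.Finite ∧
      (({K : NF | Module.finrank ℚ K.1 = n ∧ |(discr K.1 : ℝ)| ≤ X}.ncard : ℕ) : ℝ) ≤ C * X ^ s)
    (hbad : ∀ ε : ℝ, 0 < ε → ∃ C : ℝ, ∀ K : NF, Module.finrank ℚ K.1 = n → ∀ B : ℝ, 1 ≤ B →
      {j : K.1 | j ∈ Bad K ∧ logHeight₁ j ≤ n * Real.log B}.Finite ∧
      (({j : K.1 | j ∈ Bad K ∧ logHeight₁ j ≤ n * Real.log B}.ncard : ℕ) : ℝ) ≤ C * B ^ (a + ε))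
    (ε : ℝ) (hε : 0 < ε) :
    ∃ M : ℝ, ∀ B : ℝ, 1 ≤ B →
      {p : Pt Λ | p ∈ {p : Pt Λ | Module.finrank ℚ p.1.1 = n ∧ rd p.1 ≤ θ * ht p ∧
        p.2.1 ∈ Bad p.1} ∧ Real.exp (ht p) ≤ B}.Finite ∧
      (({p : Pt Λ | p ∈ {p : Pt Λ | Module.finrank ℚ p.1.1 = n ∧ rd p.1 ≤ θ * ht p ∧
        p.2.1 ∈ Bad p.1} ∧ Real.exp (ht p) ≤ B}.ncard : ℕ) : ℝ) ≤ M * B ^ (n * θ * s + a + ε) := by
  classical
  obtain ⟨C₁, hC₁⟩ := hfield
  obtain ⟨C₂, hC₂⟩ := hbad ε hε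
  refine ⟨|C₁| * (|C₂| * n), fun B hB => ?_⟩
  have hB0 : 0 < B := by linarith
  have hn0 : (0 : ℝ) < n := by exact_mod_cast hn
  set X : ℝ := B ^ (n * θ) with hX
  have hX1 : 1 ≤ X := Real.one_le_rpow hB (by positivity)
  obtain ⟨hFfin, hFcard⟩ := hC₁ X hX1
  let S : ∀ K : NF, Finset K.1 := fun K =>
    if h : Module.finrank ℚ K.1 = n then (hC₂ K h B hB).1.toFinset else ∅
  let _ : ∀ K : NF, Fintype (K.1 →+* Λ) := fun K => by
    have := (card_emb (Λ := Λ) K.1).1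
    exact Fintype.ofFinite _
  set T : Finset (Pt Λ) := hFfin.toFinset.sigma fun K => S K ×ˢ (Finset.univ : Finset (K.1 →+* Λ))
    with hT
  have hsub : {p : Pt Λ | p ∈ {p : Pt Λ | Module.finrank ℚ p.1.1 = n ∧ rd p.1 ≤ θ * ht p ∧
        p.2.1 ∈ Bad p.1} ∧ Real.exp (ht p) ≤ B} ⊆ (T : Set (Pt Λ)) := by
    rintro ⟨K, j, σ⟩ ⟨⟨h1, h2, h3⟩, h4⟩
    have h4' : ht (⟨K, j, σ⟩ : Pt Λ) ≤ Real.log B := (Real.le_log_iff_exp_le hB0).2 h4
    rw [hT, Finset.mem_coe, Finset.mem_sigma, Set.Finite.mem_toFinset, Finset.mem_product]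
    refine ⟨⟨h1, ?_⟩, ?_, Finset.mem_univ _⟩
    · have h5 : Real.log |(discr K.1 : ℝ)| ≤ n * θ * Real.log B := by
        have h6 : rd K ≤ θ * Real.log B := h2.trans (mul_le_mul_of_nonneg_left h4' hθ)
        unfold rd at h6
        dsimp only at h1
        rw [h1, div_le_iff₀ hn0] at h6
        linarith
      rw [hX, Real.rpow_def_of_pos hB0]
      have h7 : 0 < |(discr K.1 : ℝ)| := by linarith [one_le_disc K]
      rw [← Real.log_le_iff_le_exp h7]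
      linarith
    · show j ∈ S K
      have h8 : S K = (hC₂ K h1 B hB).1.toFinset := dif_pos h1
      rw [h8, Set.Finite.mem_toFinset]
      refine ⟨h3, ?_⟩
      unfold ht at h4'
      dsimp only at h1 h4'
      rw [h1, div_le_iff₀ hn0] at h4'
      linarith
  have hcard : (T.card : ℝ) ≤ |C₁| * (|C₂| * n) * B ^ (n * θ * s + a + ε) := by
    rw [hT, Finset.card_sigma]
    push_cast
    have h1 : ∀ K ∈ hFfin.toFinset, (((S K ×ˢ (Finset.univ : Finset (K.1 →+* Λ))).card : ℕ) : ℝ) ≤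
        |C₂| * n * B ^ (a + ε) := by
      intro K hK
      rw [Set.Finite.mem_toFinset] at hK
      rw [Finset.card_product]
      push_cast
      have h2 : ((S K).card : ℝ) ≤ |C₂| * B ^ (a + ε) := by
        have h8 : S K = (hC₂ K hK.1 B hB).1.toFinset := dif_pos hK.1
        rw [h8, ← Set.ncard_eq_toFinset_card _ (hC₂ K hK.1 B hB).1]
        exact (hC₂ K hK.1 B hB).2.trans
          (mul_le_mul_of_nonneg_right (le_abs_self _) (Real.rpow_nonneg hB0.le _))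
      have h3 : ((Finset.univ : Finset (K.1 →+* Λ)).card : ℝ) ≤ n := by
        have h4 := (card_emb (Λ := Λ) K.1).2
        rw [Nat.card_eq_fintype_card, hK.1] at h4
        rw [Finset.card_univ]
        exact_mod_cast h4
      calc ((S K).card : ℝ) * ((Finset.univ : Finset (K.1 →+* Λ)).card : ℝ) ≤
          (|C₂| * B ^ (a + ε)) * n := mul_le_mul h2 h3 (Nat.cast_nonneg _) (by positivity)
        _ = |C₂| * n * B ^ (a + ε) := by ring
    have h5 : (hFfin.toFinset.card : ℝ) ≤ |C₁| * B ^ (n * θ * s) := by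
      rw [← Set.ncard_eq_toFinset_card _ hFfin]
      refine hFcard.trans ?_
      rw [hX, ← Real.rpow_mul hB0.le]
      exact mul_le_mul_of_nonneg_right (le_abs_self _) (Real.rpow_nonneg hB0.le _)
    have h6 : ∑ K ∈ hFfin.toFinset, (((S K ×ˢ (Finset.univ : Finset (K.1 →+* Λ))).card : ℕ) : ℝ) ≤
        (hFfin.toFinset.card : ℝ) * (|C₂| * n * B ^ (a + ε)) := by
      refine (Finset.sum_le_sum h1).trans (le_of_eq ?_)
      rw [Finset.sum_const, nsmul_eq_mul]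
    refine h6.trans ?_
    calc (hFfin.toFinset.card : ℝ) * (|C₂| * n * B ^ (a + ε)) ≤
        |C₁| * B ^ (n * θ * s) * (|C₂| * n * B ^ (a + ε)) :=
          mul_le_mul_of_nonneg_right h5 (by positivity)
      _ = |C₁| * (|C₂| * n) * (B ^ (n * θ * s) * B ^ (a + ε)) := by ring
      _ = |C₁| * (|C₂| * n) * B ^ (n * θ * s + a + ε) := by
          rw [← Real.rpow_add hB0]
          ring_nf
  refine ⟨T.finite_toSet.subset hsub, le_trans ?_ hcard⟩
  have h9 := Set.ncard_le_ncard hsub T.finite_toSet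
  rw [Set.ncard_coe_finset] at h9
  exact_mod_cast h9

/-- **The exceptional set.** -/
theorem dim {Λ : Type} [Field Λ] [CharZero Λ] [MetricSpace Λ] (Bad : ∀ K : NF, Set K.1) {n : ℕ}
    (hn : 1 ≤ n) {a s θ τ : ℝ} (ha : 0 ≤ a) (hs : 0 ≤ s) (hθ : 0 ≤ θ) (hτ : 0 < τ)
    (hfield : ∃ C : ℝ, ∀ X : ℝ, 1 ≤ X →
      {K : NF | Module.finrank ℚ K.1 = n ∧ |(discr K.1 : ℝ)| ≤ X}.Finite ∧
      (({K : NF | Module.finrank ℚ K.1 = n ∧ |(discr K.1 : ℝ)| ≤ X}.ncard : ℕ) : ℝ) ≤ C * X ^ s)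
    (hbad : ∀ ε : ℝ, 0 < ε → ∃ C : ℝ, ∀ K : NF, Module.finrank ℚ K.1 = n → ∀ B : ℝ, 1 ≤ B →
      {j : K.1 | j ∈ Bad K ∧ logHeight₁ j ≤ n * Real.log B}.Finite ∧
      (({j : K.1 | j ∈ Bad K ∧ logHeight₁ j ≤ n * Real.log B}.ncard : ℕ) : ℝ) ≤
        C * B ^ (a + ε)) :
    dimH {ξ : Λ | ∃ C : ℝ, {p | p ∈ Near n θ τ C ξ ∧ p.2.1 ∈ Bad p.1}.Infinite} ≤
      ENNReal.ofReal ((n * θ * s + a) / τ) := by
  have h1 := dim_limsup (X := Λ) {p : Pt Λ | Module.finrank ℚ p.1.1 = n ∧ rd p.1 ≤ θ * ht p ∧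
        p.2.1 ∈ Bad p.1} (fun p => p.2.2 p.2.1) (fun p => Real.exp (ht p))
    (fun p _ => Real.one_le_exp (ht_nonneg p)) (s := n * θ * s + a) (τ := τ) (by positivity) hτ
    (fun δ hδ => count (Λ := Λ) Bad hn hθ hfield hbad δ hδ)
  refine (dimH_mono ?_).trans h1
  rintro ξ ⟨C, hC⟩
  refine ⟨C, hC.mono ?_⟩
  rintro p ⟨⟨h2, h3, h4⟩, h5⟩
  refine ⟨⟨h2, h3, h5⟩, h4.trans (le_of_eq ?_)⟩
  rw [← Real.exp_mul, mul_comm (ht p) (-τ)]

theorem null_real {s : Set ℝ} (h : dimH s < 1) : volume s = 0 := by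
  have h1 := hausdorffMeasure_of_dimH_lt (d := 1) (s := s) (by simpa using h)
  rw [NNReal.coe_one, hausdorffMeasure_real] at h1
  exact h1

/-- almost everywhere, for all parameters -/
theorem ae_params {Λ : Type} [MeasurableSpace Λ] (μ : Measure Λ) (P : ℝ → ℝ → ℝ → Λ → Prop)
    (hmono : ∀ η η' θ θ' τ τ' ξ, η' ≤ η → θ ≤ θ' → τ' ≤ τ → P η' θ' τ' ξ → P η θ τ ξ)
    (g : ℝ → ℝ → ℝ → Prop)
    (hopen : ∀ η θ τ, g η θ τ → ∃ η' θ' τ' : ℚ, (η' : ℝ) ≤ η ∧ θ ≤ θ' ∧ (τ' : ℝ) ≤ τ ∧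
      g η' θ' τ')
    (h : ∀ η θ τ, g η θ τ → ∀ᵐ ξ ∂μ, P η θ τ ξ) :
    ∀ᵐ ξ ∂μ, ∀ η θ τ, g η θ τ → P η θ τ ξ := by
  have h1 : ∀ᵐ ξ ∂μ, ∀ η θ τ : ℚ, g η θ τ → P η θ τ ξ := by
    rw [ae_all_iff]
    intro η
    rw [ae_all_iff]
    intro θ
    rw [ae_all_iff]
    intro τ
    by_cases hg : g η θ τ
    · filter_upwards [h _ _ _ hg] with ξ hξ
      exact fun _ => hξ
    · exact Eventually.of_forall fun ξ h => absurd h hg
  filter_upwards [h1] with ξ hξ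
  intro η θ τ hg
  obtain ⟨η', θ', τ', h2, h3, h4, h5⟩ := hopen η θ τ hg
  exact hmono _ _ _ _ _ _ _ h2 h3 h4 (hξ _ _ _ h5)

theorem near_mono {Λ : Type} [Field Λ] [MetricSpace Λ] {n : ℕ} {θ θ' τ τ' C C' : ℝ} (hθ : θ ≤ θ')
    (hτ : τ' ≤ τ) (hC : C ≤ C') (hC' : 0 ≤ C') (ξ : Λ) : Near n θ τ C ξ ⊆ Near n θ' τ' C' ξ := by
  rintro p ⟨h1, h2, h3⟩
  have h4 := ht_nonneg p
  refine ⟨h1, h2.trans (mul_le_mul_of_nonneg_right hθ h4), h3.trans ?_⟩
  refine (mul_le_mul_of_nonneg_right hC (Real.exp_pos _).le).trans ?_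
  refine mul_le_mul_of_nonneg_left (Real.exp_le_exp.2 ?_) hC'
  nlinarith

/-- rational parameters -/
theorem open_rat (A : ℝ → ℝ) {n e lo η θ τ : ℝ} (hn : 0 ≤ n) (he : 0 ≤ e) (hlo : lo < η)
    (hA : ContinuousAt A η) (hg : n * (A η + θ * e) < τ) :
    ∃ η' θ' τ' : ℚ, lo < η' ∧ (η' : ℝ) ≤ η ∧ θ ≤ θ' ∧ (τ' : ℝ) ≤ τ ∧
      n * (A η' + θ' * e) < τ' := by
  set δ : ℝ := τ - n * (A η + θ * e) with hδ
  have hδ0 : 0 < δ := by linarith
  have h1 : ∀ᶠ x in nhds η, A x < A η + δ / (4 * (n + 1)) :=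
    hA.eventually (gt_mem_nhds (by
      have : 0 < δ / (4 * (n + 1)) := by positivity
      linarith))
  obtain ⟨l, u, hlu, hI⟩ := mem_nhds_iff_exists_Ioo_subset.1 h1
  obtain ⟨η', h2, h3⟩ := exists_rat_btwn (max_lt hlu.1 hlo)
  have h4 : A η' < A η + δ / (4 * (n + 1)) :=
    hI ⟨lt_of_le_of_lt (le_max_left _ _) h2, h3.trans hlu.2⟩
  obtain ⟨θ', h5, h6⟩ := exists_rat_btwn (show θ < θ + δ / (4 * (n * e + 1)) by
    have : 0 < δ / (4 * (n * e + 1)) := by positivity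
    linarith)
  obtain ⟨τ', h7, h8⟩ := exists_rat_btwn (show τ - δ / 4 < τ by linarith)
  refine ⟨η', θ', τ', lt_of_le_of_lt (le_max_right _ _) h2, h3.le, h5.le, h8.le, ?_⟩
  have h9 : n * A η' ≤ n * A η + δ / 4 := by
    have h10 : n * A η' ≤ n * (A η + δ / (4 * (n + 1))) := mul_le_mul_of_nonneg_left h4.le hn
    have h11 : n * (δ / (4 * (n + 1))) ≤ δ / 4 := by
      rw [mul_div_assoc', div_le_div_iff₀ (by positivity) (by norm_num)]
      nlinarith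
    linarith
  have h12 : n * (θ' * e) ≤ n * (θ * e) + δ / 4 := by
    have h13 : n * e * θ' ≤ n * e * (θ + δ / (4 * (n * e + 1))) :=
      mul_le_mul_of_nonneg_left h6.le (by positivity)
    have h14 : n * e * (δ / (4 * (n * e + 1))) ≤ δ / 4 := by
      have hne : 0 ≤ n * e := by positivity
      rw [mul_div_assoc', div_le_div_iff₀ (by positivity) (by norm_num)]
      nlinarith
    linarith
  linarith

end Pool.Agent.R437.Met.AF
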