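import Mathlib
import Pool.Agent.R437.Met.AF
import Pool.Agent.R479.DK.Dir2

/-! Approximations in a real field. -/

set_option autoImplicit false

open MeasureTheory Set NumberField Height Filter
open scoped ENNReal NNReal

namespace Pool.Agent.R437.Met.AF

theorem dirichlet_real {K : Type} [Field K] [NumberField K] (σ : K →+* ℝ) :
    ∃ C : ℝ, 1 ≤ C ∧ ∀ ζ : ℝ, |ζ| ≤ 1 → ∀ Q : ℝ, 1 ≤ Q →
      ∃ y : K, mulHeight₁ y ≤ C * Q ∧ |ζ - σ y| ≤ C / (Q * mulHeight₁ y) := by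
  set φ : K →+* ℂ := Complex.ofRealHom.comp σ with hφ
  have hreal : NumberField.ComplexEmbedding.IsReal φ := by
    rw [NumberField.ComplexEmbedding.isReal_iff]
    ext x
    simp [hφ, NumberField.ComplexEmbedding.conjugate_coe_eq]
  have hw : ∀ x : K, InfinitePlace.mk φ x = |σ x| := by
    intro x
    rw [InfinitePlace.apply]
    simp [hφ]
  have hm : (InfinitePlace.mk φ).mult = 1 := by
    have h1 : (InfinitePlace.mk φ).IsReal := ⟨φ, hreal, rfl⟩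
    exact InfinitePlace.mult_isReal ⟨_, h1⟩
  exact Pool.Agent.R479.DK.dirichlet_y σ (InfinitePlace.mk φ) hw hm

/-- **Approximations in a real field.** -/
theorem infinite_near (K : NF) (σ : K.1 →+* ℝ) {θ τ : ℝ} (hθ : 0 < θ)
    (hτ : τ < 2 * (Module.finrank ℚ K.1 : ℝ)) {ξ : ℝ} (hξ : ξ ∉ Set.range σ) {E : Set K.1}
    (hE : E.Finite) :
    {j : K.1 | j ∉ E ∧ (⟨K, j, σ⟩ : Pt ℝ) ∈ Near (Module.finrank ℚ K.1) θ τ 1 ξ}.Infinite := by
  set n : ℝ := (Module.finrank ℚ K.1 : ℝ) with hn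
  have hn0 : 0 < n := by
    rw [hn]
    exact_mod_cast Module.finrank_pos
  set ρ : ℝ := max (τ / n) 1 with hρ
  have hρ1 : 1 ≤ ρ := le_max_right _ _
  have hρ2 : ρ < 2 := max_lt (by rw [div_lt_iff₀ hn0]; linarith) (by norm_num)
  have hτρ : τ ≤ ρ * n := by
    rw [← div_le_iff₀ hn0]
    exact le_max_left _ _
  obtain ⟨C, hC, hdir⟩ := dirichlet_real σ
  obtain ⟨N, hN⟩ := exists_nat_ge (max |ξ| 1)
  have hN1 : (1 : ℝ) ≤ N := (le_max_right _ _).trans hN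
  have hN0 : (0 : ℝ) < N := by linarith
  set W : ℝ := Height.mulHeight₁ (N : K.1) with hW
  have hW0 : 0 < W := Height.mulHeight₁_pos _
  intro hfin
  set U : Set ℝ := σ '' ({j : K.1 | j ∉ E ∧ (⟨K, j, σ⟩ : Pt ℝ) ∈
    Near (Module.finrank ℚ K.1) θ τ 1 ξ} ∪ (E ∪ {j : K.1 | logHeight₁ j ≤ n * (rd K / θ)})) with hU
  have hUf : U.Finite := by
    refine (hfin.union (hE.union ?_)).image _
    exact NumberField.finite_setOfPred_logHeight₁_le (K := K.1) _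
  have hξU : ξ ∉ U := by
    rintro ⟨x, -, rfl⟩
    exact hξ ⟨x, rfl⟩
  obtain ⟨ε, hε, hball⟩ := Metric.isOpen_iff.1 hUf.isClosed.isOpen_compl ξ hξU
  -- a large `Q`
  have hQ : ∃ Q : ℝ, 1 ≤ Q ∧ N * C < ε * Q ∧
      N * C * W ^ ρ * C ^ (ρ - 1) ≤ Q ^ (2 - ρ) := by
    have h1 : ∀ᶠ Q : ℝ in atTop, 1 ≤ Q := eventually_ge_atTop 1
    have h2 : ∀ᶠ Q : ℝ in atTop, N * C < ε * Q :=
      (tendsto_id.const_mul_atTop hε).eventually_gt_atTop _
    have h3 : ∀ᶠ Q : ℝ in atTop, N * C * W ^ ρ * C ^ (ρ - 1) ≤ Q ^ (2 - ρ) :=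
      (tendsto_rpow_atTop (by linarith : (0 : ℝ) < 2 - ρ)).eventually_ge_atTop _
    obtain ⟨Q, hQ1, hQ2, hQ3⟩ := (h1.and (h2.and h3)).exists
    exact ⟨Q, hQ1, hQ2, hQ3⟩
  obtain ⟨Q, hQ1, hQ2, hQ3⟩ := hQ
  have hQ0 : 0 < Q := by linarith
  have hζ : |ξ / N| ≤ 1 := by
    rw [abs_div, abs_of_pos hN0, div_le_one hN0]
    exact (le_max_left _ _).trans hN
  obtain ⟨y, hy1, hy2⟩ := hdir (ξ / N) hζ Q hQ1
  set h : ℝ := Height.mulHeight₁ y with hh
  have hh1 : 1 ≤ h := Height.one_le_mulHeight₁ y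
  have hh0 : 0 < h := by linarith
  set x : K.1 := (N : K.1) * y with hx
  have hd : |ξ - σ x| ≤ N * C / (Q * h) := by
    have h1 : ξ - σ x = N * (ξ / N - σ y) := by
      rw [hx, map_mul, map_natCast]
      field_simp
    rw [h1, abs_mul, abs_of_pos hN0, mul_div_assoc]
    exact mul_le_mul_of_nonneg_left hy2 hN0.le
  have hNC : 0 < N * C := mul_pos hN0 (by linarith)
  have hclose : dist (σ x) ξ < ε := by
    rw [dist_comm, Real.dist_eq]
    refine lt_of_le_of_lt hd ?_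
    rw [div_lt_iff₀ (by positivity)]
    nlinarith
  have hxU : σ x ∉ U := hball hclose
  have hxE : x ∉ E := fun h0 => hxU ⟨x, Or.inr (Or.inl h0), rfl⟩
  have hxh : n * (rd K / θ) < logHeight₁ x := by
    by_contra hcon
    push Not at hcon
    exact hxU ⟨x, Or.inr (Or.inr hcon), rfl⟩
  refine hxU ⟨x, Or.inl ⟨hxE, rfl, ?_, ?_⟩, rfl⟩
  · show rd K ≤ θ * (logHeight₁ x / n)
    have h1 : rd K / θ ≤ logHeight₁ x / n := by
      rw [le_div_iff₀ hn0]
      linarith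
    rw [div_le_iff₀ hθ] at h1
    linarith
  show dist ξ (σ x) ≤ 1 * Real.exp (-τ * (logHeight₁ x / n))
  rw [Real.dist_eq, one_mul]
  refine hd.trans ?_
  have hlx0 : 0 ≤ logHeight₁ x := zero_le_logHeight₁ _
  have hH : logHeight₁ x ≤ Real.log (W * h) := by
    have h1 : Height.mulHeight₁ x ≤ W * h := Height.mulHeight₁_mul_le _ _
    exact Real.log_le_log (Height.mulHeight₁_pos _) h1
  have h1 : -ρ * Real.log (W * h) ≤ -τ * (logHeight₁ x / n) := by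
    have h3 : τ * (logHeight₁ x / n) ≤ ρ * n * (logHeight₁ x / n) :=
      mul_le_mul_of_nonneg_right hτρ (by positivity)
    have h5 : ρ * n * (logHeight₁ x / n) = ρ * logHeight₁ x := by
      field_simp
    have h4 : ρ * logHeight₁ x ≤ ρ * Real.log (W * h) :=
      mul_le_mul_of_nonneg_left hH (by linarith)
    linarith
  refine le_trans ?_ (Real.exp_le_exp.2 h1)
  have h2 : Real.exp (-ρ * Real.log (W * h)) = (W * h) ^ (-ρ) := by
    rw [Real.rpow_def_of_pos (by positivity)]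
    ring_nf
  rw [h2, Real.rpow_neg (by positivity), div_le_iff₀ (by positivity), inv_mul_eq_div,
    le_div_iff₀ (by positivity)]
  have h3 : h ^ ρ = h ^ (ρ - 1) * h := by
    rw [← Real.rpow_add_one hh0.ne']
    ring_nf
  have h4 : h ^ (ρ - 1) ≤ C ^ (ρ - 1) * Q ^ (ρ - 1) := by
    rw [← Real.mul_rpow (by linarith) hQ0.le]
    exact Real.rpow_le_rpow hh0.le hy1 (by linarith)
  have h5 : Q ^ (2 - ρ) * Q ^ (ρ - 1) = Q := by
    rw [← Real.rpow_add hQ0]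
    ring_nf
    rw [Real.rpow_one]
  rw [Real.mul_rpow hW0.le hh0.le, h3]
  calc N * C * (W ^ ρ * (h ^ (ρ - 1) * h))
      ≤ N * C * (W ^ ρ * ((C ^ (ρ - 1) * Q ^ (ρ - 1)) * h)) := by gcongr
    _ = (N * C * W ^ ρ * C ^ (ρ - 1)) * Q ^ (ρ - 1) * h := by ring
    _ ≤ Q ^ (2 - ρ) * Q ^ (ρ - 1) * h := by gcongr
    _ = Q * h := by rw [h5]

end Pool.Agent.R437.Met.AF
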