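import Mathlib
import Pool.Agent.R437.Met.AF
import Pool.Agent.Y729.AE.Count

/-! The number of fields of bounded discriminant. -/

set_option autoImplicit false

open MeasureTheory Set NumberField Height Filter
open scoped ENNReal NNReal

namespace Pool.Agent.R437.Met.AF

theorem field_count : ∃ e : ℕ → ℝ,
    (∀ c : ℝ, 1 / (8 * (Real.log 2) ^ 2) < c →
      ∀ᶠ n : ℕ in Filter.atTop, e n ≤ c * (Real.log n) ^ 2) ∧ (∀ n, 0 ≤ e n) ∧
    (∀ n : ℕ, 2 ≤ n → e n ≤ (((n + 2) * (n - 1) : ℕ) : ℝ) / (4 * ((n - n / n.minFac : ℕ) : ℝ))) ∧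
    e 1 = 0 ∧
    ∀ n : ℕ, 1 ≤ n → ∃ C : ℝ, ∀ X : ℝ, 1 ≤ X →
      {K : NF | Module.finrank ℚ K.1 = n ∧ |(discr K.1 : ℝ)| ≤ X}.Finite ∧
      (({K : NF | Module.finrank ℚ K.1 = n ∧ |(discr K.1 : ℝ)| ≤ X}.ncard : ℕ) : ℝ) ≤
        C * X ^ e n := by
  obtain ⟨e, h1, h2, h3, h4, h5⟩ := Pool.Agent.Y729.AE.linnikK
  refine ⟨e, h1, h2, h3, h4, fun n hn => ?_⟩
  obtain ⟨C, -, hC⟩ := h5 n hn 1
  refine ⟨C, fun X hX => ?_⟩
  obtain ⟨hfin, hcard⟩ := hC ℚ (Module.finrank_self ℚ) X hX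
  have hsub : (Subtype.val : NF → IntermediateField ℚ (AlgebraicClosure ℚ)) ''
      {K : NF | Module.finrank ℚ K.1 = n ∧ |(discr K.1 : ℝ)| ≤ X} ⊆
        Pool.Agent.W301.Lin.FS ℚ n X := by
    rintro _ ⟨K, ⟨hK1, hK2⟩, rfl⟩
    refine ⟨hK1, K.2, ?_⟩
    rw [Int.cast_abs]
    exact hK2
  have hf := hfin.subset hsub
  refine ⟨Set.Finite.of_finite_image hf Subtype.val_injective.injOn, le_trans ?_ hcard⟩
  rw [← Set.ncard_image_of_injective _ Subtype.val_injective]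
  exact_mod_cast Set.ncard_le_ncard hsub hfin

end Pool.Agent.R437.Met.AF
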