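import Mathlib
import Pool.Agent.R437.Met.AF2

/-! Exceptional elements near a point, in all number fields of a given degree: no condition on the
discriminant. -/

set_option autoImplicit false

open MeasureTheory Set NumberField Height Filter
open scoped ENNReal NNReal

namespace Pool.Agent.R437.Met.AF

/-- The approximations of `ξ` of exponent `τ` and constant `C` in all fields of degree `n`. -/
def NearAll {Λ : Type} [Field Λ] [MetricSpace Λ] (n : ℕ) (τ C : ℝ) (ξ : Λ) : Set (Pt Λ) :=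
  {p | Module.finrank ℚ p.1.1 = n ∧ dist ξ (p.2.2 p.2.1) ≤ C * Real.exp (-τ * ht p)}

theorem nearAll_mono {Λ : Type} [Field Λ] [MetricSpace Λ] {n : ℕ} {τ τ' C C' : ℝ}
    (hτ : τ' ≤ τ) (hC : C ≤ C') (hC' : 0 ≤ C') (ξ : Λ) : NearAll n τ C ξ ⊆ NearAll n τ' C' ξ := by
  rintro p ⟨h1, h3⟩
  have h4 := ht_nonneg p
  refine ⟨h1, h3.trans ?_⟩
  refine (mul_le_mul_of_nonneg_right hC (Real.exp_pos _).le).trans ?_
  refine mul_le_mul_of_nonneg_left (Real.exp_le_exp.2 ?_) hC'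
  nlinarith

theorem count_all {Λ : Type} [Field Λ] [CharZero Λ] (Bad : ∀ K : NF, Set K.1) {n : ℕ} {s : ℝ}
    (hbad : ∀ ε : ℝ, 0 < ε → ∃ C : ℝ, ∀ B : ℝ, 1 ≤ B →
      {q : Σ K : NF, K.1 | Module.finrank ℚ q.1.1 = n ∧ q.2 ∈ Bad q.1 ∧
        logHeight₁ q.2 ≤ n * Real.log B}.Finite ∧
      (({q : Σ K : NF, K.1 | Module.finrank ℚ q.1.1 = n ∧ q.2 ∈ Bad q.1 ∧
        logHeight₁ q.2 ≤ n * Real.log B}.ncard : ℕ) : ℝ) ≤ C * B ^ (s + ε))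
    (hn : 1 ≤ n) (ε : ℝ) (hε : 0 < ε) :
    ∃ M : ℝ, ∀ B : ℝ, 1 ≤ B →
      {p : Pt Λ | p ∈ {p : Pt Λ | Module.finrank ℚ p.1.1 = n ∧ p.2.1 ∈ Bad p.1} ∧
        Real.exp (ht p) ≤ B}.Finite ∧
      (({p : Pt Λ | p ∈ {p : Pt Λ | Module.finrank ℚ p.1.1 = n ∧ p.2.1 ∈ Bad p.1} ∧
        Real.exp (ht p) ≤ B}.ncard : ℕ) : ℝ) ≤ M * B ^ (s + ε) := by
  classical
  obtain ⟨C, hC⟩ := hbad ε hε
  refine ⟨C * n, fun B hB => ?_⟩
  have hB0 : 0 < B := by linarith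
  have hn0 : (0 : ℝ) < n := by exact_mod_cast hn
  obtain ⟨hfin, hcard⟩ := hC B hB
  let _ : ∀ K : NF, Fintype (K.1 →+* Λ) := fun K => by
    have := (card_emb (Λ := Λ) K.1).1
    exact Fintype.ofFinite _
  set T : Finset (Pt Λ) := hfin.toFinset.biUnion fun q =>
    (Finset.univ : Finset (q.1.1 →+* Λ)).image fun σ => (⟨q.1, q.2, σ⟩ : Pt Λ) with hT
  have hsub : {p : Pt Λ | p ∈ {p : Pt Λ | Module.finrank ℚ p.1.1 = n ∧ p.2.1 ∈ Bad p.1} ∧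
        Real.exp (ht p) ≤ B} ⊆ (T : Set (Pt Λ)) := by
    rintro ⟨K, j, σ⟩ ⟨⟨h1, h3⟩, h4⟩
    have h4' : ht (⟨K, j, σ⟩ : Pt Λ) ≤ Real.log B := (Real.le_log_iff_exp_le hB0).2 h4
    rw [hT, Finset.mem_coe, Finset.mem_biUnion]
    refine ⟨⟨K, j⟩, ?_, Finset.mem_image_of_mem _ (Finset.mem_univ _)⟩
    rw [Set.Finite.mem_toFinset]
    refine ⟨h1, h3, ?_⟩
    unfold ht at h4'
    dsimp only at h1 h4' ⊢
    rw [h1, div_le_iff₀ hn0] at h4'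
    linarith
  have hTc : T.card ≤ hfin.toFinset.card * n := by
    rw [hT]
    refine Finset.card_biUnion_le_card_mul _ _ _ fun q hq => ?_
    rw [Set.Finite.mem_toFinset] at hq
    refine Finset.card_image_le.trans ?_
    have h4 := (card_emb (Λ := Λ) q.1.1).2
    rw [Nat.card_eq_fintype_card, hq.1] at h4
    rw [Finset.card_univ]
    exact h4
  refine ⟨T.finite_toSet.subset hsub, ?_⟩
  have h9 := Set.ncard_le_ncard hsub T.finite_toSet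
  rw [Set.ncard_coe_finset] at h9
  rw [Set.ncard_eq_toFinset_card _ hfin] at hcard
  calc (({p : Pt Λ | p ∈ {p : Pt Λ | Module.finrank ℚ p.1.1 = n ∧ p.2.1 ∈ Bad p.1} ∧
        Real.exp (ht p) ≤ B}.ncard : ℕ) : ℝ) ≤ ((hfin.toFinset.card * n : ℕ) : ℝ) := by
        exact_mod_cast h9.trans hTc
    _ = (hfin.toFinset.card : ℝ) * n := by push_cast; ring
    _ ≤ (C * B ^ (s + ε)) * n := mul_le_mul_of_nonneg_right hcard (Nat.cast_nonneg _)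
    _ = C * n * B ^ (s + ε) := by ring

/-- **The exceptional set.** -/
theorem dim_all {Λ : Type} [Field Λ] [CharZero Λ] [MetricSpace Λ] (Bad : ∀ K : NF, Set K.1) {n : ℕ}
    {s τ : ℝ} (hs : 0 ≤ s) (hτ : 0 < τ)
    (hbad : ∀ ε : ℝ, 0 < ε → ∃ C : ℝ, ∀ B : ℝ, 1 ≤ B →
      {q : Σ K : NF, K.1 | Module.finrank ℚ q.1.1 = n ∧ q.2 ∈ Bad q.1 ∧
        logHeight₁ q.2 ≤ n * Real.log B}.Finite ∧
      (({q : Σ K : NF, K.1 | Module.finrank ℚ q.1.1 = n ∧ q.2 ∈ Bad q.1 ∧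
        logHeight₁ q.2 ≤ n * Real.log B}.ncard : ℕ) : ℝ) ≤ C * B ^ (s + ε))
    (hn : 1 ≤ n) :
    dimH {ξ : Λ | ∃ C : ℝ, {p | p ∈ NearAll n τ C ξ ∧ p.2.1 ∈ Bad p.1}.Infinite} ≤
      ENNReal.ofReal (s / τ) := by
  have h1 := dim_limsup (X := Λ) {p : Pt Λ | Module.finrank ℚ p.1.1 = n ∧ p.2.1 ∈ Bad p.1}
    (fun p => p.2.2 p.2.1) (fun p => Real.exp (ht p))
    (fun p _ => Real.one_le_exp (ht_nonneg p)) (s := s) (τ := τ) hs hτ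
    (fun δ hδ => count_all (Λ := Λ) Bad hbad hn δ hδ)
  refine (dimH_mono ?_).trans h1
  rintro ξ ⟨C, hC⟩
  refine ⟨C, hC.mono ?_⟩
  rintro p ⟨⟨h2, h4⟩, h5⟩
  refine ⟨⟨h2, h5⟩, h4.trans (le_of_eq ?_)⟩
  rw [← Real.exp_mul, mul_comm (ht p) (-τ)]

theorem infinite_nearAll (K : NF) (σ : K.1 →+* ℝ) {τ : ℝ}
    (hτ : τ < 2 * (Module.finrank ℚ K.1 : ℝ)) {ξ : ℝ} (hξ : ξ ∉ Set.range σ) {E : Set K.1}
    (hE : E.Finite) :
    {j : K.1 | j ∉ E ∧ (⟨K, j, σ⟩ : Pt ℝ) ∈ NearAll (Module.finrank ℚ K.1) τ 1 ξ}.Infinite := by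
  refine (infinite_near K σ one_pos hτ hξ hE).mono ?_
  rintro j ⟨h1, h2, -, h3⟩
  exact ⟨h1, h2, h3⟩

end Pool.Agent.R437.Met.AF
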