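import Mathlib
import Pool.Agent.R437.Met.AF
import Pool.Agent.R437.Met.AF2

/-! Points over all number fields of a given degree near a given point: definitions with short
terms. -/

set_option autoImplicit false

open MeasureTheory Set NumberField Height Filter
open scoped ENNReal NNReal

namespace Pool.Agent.R437.Met.AFc

/-- a number field inside the algebraic closure of `ℚ` -/
def NF : Type := {K : IntermediateField ℚ (AlgebraicClosure ℚ) // NumberField K}

/-- the field itself -/
def NF.F (K : NF) : Type := K.1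

noncomputable instance (K : NF) : Field K.F := (IntermediateField.toField K.1 : Field K.1)

instance (K : NF) : NumberField K.F := K.2

/-- the degree -/
noncomputable def NF.deg (K : NF) : ℕ := Module.finrank ℚ K.F

/-- the logarithm of the root discriminant -/
noncomputable def NF.rd (K : NF) : ℝ := Real.log |(discr K.F : ℝ)| / K.deg

/-- a number field `K`, an element of `K` and an embedding of `K` into `Λ` -/
def Pt (Λ : Type) [Field Λ] : Type := Σ K : NF, K.F × (K.F →+* Λ)

/-- the field `K` -/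
def Pt.K {Λ : Type} [Field Λ] (p : Pt Λ) : NF := p.1

/-- the element -/
noncomputable def Pt.x {Λ : Type} [Field Λ] (p : Pt Λ) : p.K.F := p.2.1

/-- the embedding -/
def Pt.σ {Λ : Type} [Field Λ] (p : Pt Λ) : p.K.F →+* Λ := p.2.2

/-- the image of the element in `Λ` -/
noncomputable def Pt.im {Λ : Type} [Field Λ] (p : Pt Λ) : Λ := p.σ p.x

/-- the absolute logarithmic height of the element -/
noncomputable def Pt.ht {Λ : Type} [Field Λ] (p : Pt Λ) : ℝ := logHeight₁ p.x / p.K.deg

/-- The approximations of `ξ` of exponent `τ` and constant `C` in the fields of degree `n`, with root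
discriminant at most the `θ`-th power of the height. -/
def Near {Λ : Type} [Field Λ] [MetricSpace Λ] (n : ℕ) (θ τ C : ℝ) (ξ : Λ) : Set (Pt Λ) :=
  {p | p.K.deg = n ∧ p.K.rd ≤ θ * p.ht ∧ dist ξ p.im ≤ C * Real.exp (-τ * p.ht)}

/-- the elements of the field `K` which, with the embedding `σ`, are in `Near n θ τ 1 ξ`, where `n`
is the degree of `K` -/
def NearIn (K : NF) (σ : K.F →+* ℝ) (θ τ ξ : ℝ) : Set K.F :=
  {x | (⟨K, x, σ⟩ : Pt ℝ) ∈ Near K.deg θ τ 1 ξ}

/-- the properties of the exponents `e(n)` for the number of fields -/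
def Expo (e : ℕ → ℝ) : Prop :=
  (∀ c : ℝ, 1 / (8 * (Real.log 2) ^ 2) < c → ∀ᶠ n : ℕ in atTop, e n ≤ c * (Real.log n) ^ 2) ∧
  (∀ n, 0 ≤ e n) ∧
  (∀ n : ℕ, 2 ≤ n → e n ≤ (((n + 2) * (n - 1) : ℕ) : ℝ) / (4 * ((n - n / n.minFac : ℕ) : ℝ))) ∧
  e 1 = 0

theorem near_eq {Λ : Type} [Field Λ] [MetricSpace Λ] (n : ℕ) (θ τ C : ℝ) (ξ : Λ) :
    Near n θ τ C ξ = AF.Near n θ τ C ξ := rfl

end Pool.Agent.R437.Met.AFc
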