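import Pool.Agent.R437.Met.Hs

/-! Relations whose coefficients are linear combinations of given complex numbers. -/

set_option autoImplicit false

open NumberField

namespace Pool.Agent.R437.Met.Cf

open Fam Hs

/-- the relation, in terms of the values -/
def Rel {n g : ℕ} {J : Type} (F : Type) [Field F] [NumberField F] (v : (Fin n → F) → J → ℂ)
    (ι : F →+* ℂ) (c : Fin g → ℂ) (d : ℕ) (A B T : ℝ) (x : Fin n → F) : Prop :=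
  ∃ P : MvPolynomial J ℂ, (∀ y, P.degreeOf y ≤ d) ∧
    (∀ s, ∃ a : Fin g → 𝓞 F, (∀ i (φ : F →+* ℂ), ‖φ (a i)‖ ≤ T ^ A) ∧ P.coeff s = ∑ i, c i * ι (a i)) ∧
    ∃ s₀, P.coeff s₀ ≠ 0 ∧ ‖MvPolynomial.aeval (v x) P‖ ≤ T ^ (-B) * ‖P.coeff s₀‖

theorem near (n : ℕ) (hn : 1 ≤ n) {J : Type} (F : Type) [Field F]
    [NumberField F] (v : (Fin n → F) → J → ℂ) (ι : F →+* ℂ) (c : ℕ → ℂ) (S : Fin n → Set ℂ)
    (hS : ∀ j, IsOpen (S j))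
    (hcount : ∀ K : Fin n → Set ℂ, (∀ j, IsCompact (K j)) → (∀ j, K j ⊆ S j) →
      ∀ (g d : ℕ) (A ε : ℝ), 0 < ε → ∃ (B C T₀ : ℝ) (L : Set ℂ), ∀ T : ℝ, T₀ ≤ T →
        {x : Fin n → F | (∀ j, ι (x j) ∈ K j ∧ IsPt F T (x j)) ∧
          Rel F v ι (fun i : Fin g => c i) d A B T x}.Finite ∧
        (({x : Fin n → F | (∀ j, ι (x j) ∈ K j ∧ IsPt F T (x j)) ∧
          Rel F v ι (fun i : Fin g => c i) d A B T x}.ncard : ℕ) : ℝ) ≤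
            C * T ^ ε * ({x : F | ι x ∈ L ∧ IsPt F T x}.ncard : ℝ) ^ (n - 1))
    (τ : ℝ) (hτ : 0 < τ) :
    ∃ E : Set (Fin n → ℂ),
      dimH E ≤ ENNReal.ofReal (2 * (Module.finrank ℚ F : ℝ) * ((n : ℝ) - 1) / τ) ∧
      ∀ ξ : Fin n → ℂ, (∀ j, ξ j ∈ S j) → ξ ∉ E → ∀ (g d : ℕ) (A : ℝ), ∃ B : ℝ, ∀ C : ℝ, ∃ T₁ : ℝ,
        ∀ T : ℝ, T₁ ≤ T → ∀ x : Fin n → F,
          (∀ j, IsPt F T (x j) ∧ ‖ξ j - ι (x j)‖ ≤ C * T ^ (-τ)) →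
            ¬ Rel F v ι (fun i : Fin g => c i) d A B T x := by
  obtain ⟨E, hE, h⟩ := Hs.tuple F ι n hn S hS (J := ℕ × ℕ)
    (fun q A B T x => Rel F v ι (fun i : Fin q.1 => c i) q.2 A B T x)
    (by
      rintro d A A' B T t hA hT ⟨P, h1, h2, h3⟩
      refine ⟨P, h1, fun s => ?_, h3⟩
      obtain ⟨a, ha, ha'⟩ := h2 s
      exact ⟨a, fun i φ => (ha i φ).trans (Fam.pow_mono hA hT), ha'⟩)
    (by
      rintro d A B B' T t hB hT ⟨P, h1, h2, s₀, h3, h4⟩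
      exact ⟨P, h1, h2, s₀, h3, h4.trans (mul_le_mul_of_nonneg_right
        (Fam.pow_mono (by linarith) hT) (norm_nonneg _))⟩)
    (by
      rintro d A B T T' t hA hB h2B hT hTT hT2 ⟨P, h1, h2, s₀, h3, h4⟩
      refine ⟨P, h1, fun s => ?_, s₀, h3, h4.trans (mul_le_mul_of_nonneg_right
        (Fam.pow_dyadic hB hT hTT hT2 h2B) (norm_nonneg _))⟩
      obtain ⟨a, ha, ha'⟩ := h2 s
      exact ⟨a, fun i φ => (ha i φ).trans (Real.rpow_le_rpow (by linarith) hTT hA), ha'⟩)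
    (by
      rintro K hK hKS ⟨g, d⟩ A ε hε
      exact hcount K hK hKS g d A ε hε)
    τ hτ
  exact ⟨E, hE, fun ξ hξ hξE g d A => h ξ hξ hξE (g, d) A⟩

end Pool.Agent.R437.Met.Cf
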