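import Pool.Agent.R437.Met.Near

/-! Exhaustion of an open set by compact sets. -/

set_option autoImplicit false

open Set

namespace Pool.Agent.R437.Met.Near

theorem exhaust_fin {X : Type*} [MetricSpace X] [ProperSpace X] (S : Set X) (hS : IsOpen S) :
    ∃ K : Finset ℕ → Set X, (∀ m, IsCompact (K m)) ∧ (∀ m, K m ⊆ S) ∧
      ∀ L : Set X, IsCompact L → L ⊆ S → ∃ m, L ⊆ K m := by
  classical
  obtain ⟨K, hK, hKS, hcov⟩ := exhaust S hS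
  refine ⟨fun m => ⋃ i ∈ m, K i, fun m => m.finite_toSet.isCompact_biUnion fun i _ => hK i,
    fun m => Set.iUnion₂_subset fun i _ => hKS i, fun L hL hLS => ?_⟩
  have h1 : ∀ ξ ∈ L, ∃ m : ℕ, ∃ r : ℝ, 0 < r ∧ Metric.ball ξ r ⊆ K m := fun ξ hξ => hcov ξ (hLS hξ)
  choose! m r hr hm using h1
  obtain ⟨t, ht, hLt⟩ := hL.elim_nhds_subcover (fun ξ => Metric.ball ξ (r ξ)) fun ξ hξ =>
    Metric.ball_mem_nhds ξ (hr ξ hξ)
  refine ⟨t.image m, fun x hx => ?_⟩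
  obtain ⟨ξ, hξt, hξ⟩ := Set.mem_iUnion₂.1 (hLt hx)
  exact Set.mem_iUnion₂.2 ⟨m ξ, Finset.mem_image_of_mem m hξt, hm ξ (ht ξ hξt) hξ⟩

end Pool.Agent.R437.Met.Near
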