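import Pool.Agent.R437.Met.Lim

/-! Families of exceptional sets depending on a parameter `T`: no exceptional points close to a given
point, outside a set of small dimension. -/

set_option autoImplicit false

open MeasureTheory Set Filter Topology
open scoped ENNReal NNReal

namespace Pool.Agent.R437.Met.Fam

lemma geo (β : ℝ) (hβ : 0 < β) (K : ℕ) : ∑ k ∈ Finset.range (K + 1), ((2 : ℝ) ^ k) ^ β ≤
    (2 ^ β / (2 ^ β - 1)) * ((2 : ℝ) ^ K) ^ β := by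
  have hr : (1 : ℝ) < 2 ^ β := Real.one_lt_rpow (by norm_num) hβ
  have h1 : ∀ k : ℕ, ((2 : ℝ) ^ k) ^ β = (2 ^ β) ^ k := by
    intro k
    rw [← Real.rpow_natCast 2 k, ← Real.rpow_mul (by norm_num), mul_comm _ β,
      Real.rpow_mul (by norm_num), Real.rpow_natCast]
  simp only [h1]
  rw [geom_sum_eq hr.ne', div_mul_eq_mul_div]
  refine div_le_div_of_nonneg_right ?_ (by linarith)
  rw [pow_succ']
  linarith

theorem block {ι X : Type*} [MetricSpace X] (f : ι → X) (S : ℕ → Set ι) {s τ : ℝ} (hs : 0 ≤ s)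
    (hτ : 0 < τ) (hcount : ∀ δ : ℝ, 0 < δ → ∃ M : ℝ, ∀ k : ℕ, (S k).Finite ∧
      (((S k).ncard : ℕ) : ℝ) ≤ M * ((2 : ℝ) ^ k) ^ (s + δ)) :
    ∃ E : Set X, dimH E ≤ ENNReal.ofReal (s / τ) ∧ ∀ ξ ∉ E, ∀ C : ℝ, ∃ K : ℕ, ∀ k : ℕ, K ≤ k →
      ∀ x ∈ S k, C * ((2 : ℝ) ^ k) ^ (-τ) < dist ξ (f x) := by
  classical
  set P : Set (ℕ × ι) := {p | p.2 ∈ S p.1} with hP
  set g : ℕ × ι → X := fun p => f p.2 with hg
  set h : ℕ × ι → ℝ := fun p => (2 : ℝ) ^ p.1 with hh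
  have hh1 : ∀ p ∈ P, 1 ≤ h p := fun p _ => one_le_pow₀ (by norm_num)
  have hc : ∀ δ : ℝ, 0 < δ → ∃ M : ℝ, ∀ B : ℝ, 1 ≤ B → {p | p ∈ P ∧ h p ≤ B}.Finite ∧
      (({p | p ∈ P ∧ h p ≤ B}.ncard : ℕ) : ℝ) ≤ M * B ^ (s + δ) := by
    intro δ hδ
    obtain ⟨M, hM⟩ := hcount δ hδ
    refine ⟨|M| * (2 ^ (s + δ) / (2 ^ (s + δ) - 1)), fun B hB => ?_⟩
    set K : ℕ := Nat.log 2 ⌊B⌋₊ with hK
    have hB0 : 0 < B := by linarith
    have hfl : 1 ≤ ⌊B⌋₊ := Nat.one_le_floor_iff _ |>.mpr hB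
    have h2K : (2 : ℝ) ^ K ≤ B := by
      have e1 : 2 ^ K ≤ ⌊B⌋₊ := Nat.pow_log_le_self 2 (by omega)
      calc (2 : ℝ) ^ K = ((2 ^ K : ℕ) : ℝ) := by push_cast; rfl
        _ ≤ (⌊B⌋₊ : ℝ) := by exact_mod_cast e1
        _ ≤ B := Nat.floor_le hB0.le
    have hsub : {p | p ∈ P ∧ h p ≤ B} ⊆ ⋃ k ∈ Finset.range (K + 1), (fun x => (k, x)) '' S k := by
      rintro ⟨k, x⟩ ⟨h1, h2⟩
      have h3 : (2 : ℝ) ^ k ≤ B := h2
      have h4 : 2 ^ k ≤ ⌊B⌋₊ := Nat.le_floor (by push_cast; exact h3)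
      have h5 : k ≤ K := Nat.le_log_of_pow_le (by norm_num) h4
      rw [Set.mem_iUnion₂]
      exact ⟨k, Finset.mem_range.2 (by omega), x, h1, rfl⟩
    have hfin : (⋃ k ∈ Finset.range (K + 1), (fun x => (k, x)) '' S k).Finite :=
      Set.Finite.biUnion (Finset.finite_toSet _) fun k _ => ((hM k).1.image _)
    refine ⟨hfin.subset hsub, ?_⟩
    have hinj : ∀ k : ℕ, Function.Injective (fun x : ι => (k, x)) := fun k x y hxy =>
      (Prod.mk.inj hxy).2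
    have hsδ : 0 < s + δ := by linarith
    have hr : (1 : ℝ) < 2 ^ (s + δ) := Real.one_lt_rpow (by norm_num) hsδ
    calc (({p | p ∈ P ∧ h p ≤ B}.ncard : ℕ) : ℝ)
        ≤ ((⋃ k ∈ Finset.range (K + 1), (fun x => (k, x)) '' S k).ncard : ℝ) := by
          exact_mod_cast Set.ncard_le_ncard hsub hfin
      _ ≤ ((∑ k ∈ Finset.range (K + 1), ((fun x : ι => (k, x)) '' S k).ncard : ℕ) : ℝ) := by
          exact_mod_cast Finset.set_ncard_biUnion_le _ _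
      _ = ∑ k ∈ Finset.range (K + 1), (((S k).ncard : ℕ) : ℝ) := by
          push_cast
          refine Finset.sum_congr rfl fun k _ => ?_
          rw [Set.ncard_image_of_injective _ (hinj k)]
      _ ≤ ∑ k ∈ Finset.range (K + 1), |M| * ((2 : ℝ) ^ k) ^ (s + δ) := by
          refine Finset.sum_le_sum fun k _ => ((hM k).2).trans ?_
          exact mul_le_mul_of_nonneg_right (le_abs_self M) (by positivity)
      _ ≤ |M| * ((2 ^ (s + δ) / (2 ^ (s + δ) - 1)) * ((2 : ℝ) ^ K) ^ (s + δ)) := by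
          rw [← Finset.mul_sum]
          exact mul_le_mul_of_nonneg_left (geo _ hsδ K) (abs_nonneg _)
      _ ≤ |M| * ((2 ^ (s + δ) / (2 ^ (s + δ) - 1)) * B ^ (s + δ)) := by
          refine mul_le_mul_of_nonneg_left (mul_le_mul_of_nonneg_left ?_
            (div_nonneg (by positivity) (by linarith))) (abs_nonneg _)
          exact Real.rpow_le_rpow (by positivity) h2K hsδ.le
      _ = |M| * (2 ^ (s + δ) / (2 ^ (s + δ) - 1)) * B ^ (s + δ) := by ring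
  refine ⟨_, dim_limsup P g h hh1 hs hτ hc, fun ξ hξ C => ?_⟩
  have h1 : {p | p ∈ P ∧ dist ξ (g p) ≤ C * (h p) ^ (-τ)}.Finite := by
    by_contra hinf
    exact hξ ⟨C, hinf⟩
  obtain ⟨K, hK⟩ := (h1.image Prod.fst).bddAbove
  refine ⟨K + 1, fun k hk x hx => ?_⟩
  by_contra hcon
  push Not at hcon
  have h2 : k ∈ Prod.fst '' {p | p ∈ P ∧ dist ξ (g p) ≤ C * (h p) ^ (-τ)} :=
    ⟨(k, x), ⟨hx, hcon⟩, rfl⟩
  have := hK h2
  omega

/-- the assumptions on a family of exceptional sets with parameters `A`, `B`, `T` -/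
structure Good {ι : Type*} (Ex : ℝ → ℝ → ℝ → Set ι) (s : ℝ) : Prop where
  count : ∀ A ε : ℝ, 0 ≤ A → 0 < ε → ∃ B C T₀ : ℝ, ∀ T : ℝ, T₀ ≤ T → (Ex A B T).Finite ∧
    (((Ex A B T).ncard : ℕ) : ℝ) ≤ C * T ^ (s + ε)
  monoA : ∀ A A' B T : ℝ, A ≤ A' → 1 ≤ T → Ex A B T ⊆ Ex A' B T
  monoB : ∀ A B B' T : ℝ, B' ≤ B → 1 ≤ T → Ex A B T ⊆ Ex A B' T
  dyadic : ∀ A B T T' : ℝ, 0 ≤ A → 0 ≤ B → 2 ^ B ≤ T → 1 ≤ T → T ≤ T' → T' ≤ 2 * T →
    Ex A (B + 1) T ⊆ Ex A B T'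

theorem fam {ι X : Type*} [MetricSpace X] (f : ι → X) (Ex : ℝ → ℝ → ℝ → Set ι) {s τ : ℝ}
    (hs : 0 ≤ s) (hτ : 0 < τ) (hE : Good Ex s) :
    ∃ E : Set X, dimH E ≤ ENNReal.ofReal (s / τ) ∧ ∀ ξ ∉ E, ∀ A : ℝ, ∃ B : ℝ, ∀ C : ℝ,
      ∃ T₁ : ℝ, ∀ T : ℝ, T₁ ≤ T → ∀ x ∈ Ex A B T, C * T ^ (-τ) < dist ξ (f x) := by
  have h1 : ∀ (j A : ℕ), ∃ B : ℝ, 0 ≤ B ∧ ∃ M T₀ : ℝ, ∀ T : ℝ, T₀ ≤ T → (Ex A B T).Finite ∧
      (((Ex A B T).ncard : ℕ) : ℝ) ≤ M * T ^ (s + 1 / ((j : ℝ) + 1)) := by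
    intro j A
    obtain ⟨B, C, T₀, hBC⟩ := hE.count A (1 / ((j : ℝ) + 1)) (Nat.cast_nonneg _) (by positivity)
    refine ⟨max B 0, le_max_right _ _, |C|, max T₀ 1, fun T hT => ?_⟩
    have hT1 : 1 ≤ T := (le_max_right _ _).trans hT
    obtain ⟨h2, h3⟩ := hBC T ((le_max_left _ _).trans hT)
    have hsub := hE.monoB A (max B 0) B T (le_max_left _ _) hT1
    refine ⟨h2.subset hsub, ?_⟩
    calc (((Ex A (max B 0) T).ncard : ℕ) : ℝ) ≤ ((Ex A B T).ncard : ℝ) := by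
          exact_mod_cast Set.ncard_le_ncard hsub h2
      _ ≤ C * T ^ (s + 1 / ((j : ℝ) + 1)) := h3
      _ ≤ |C| * T ^ (s + 1 / ((j : ℝ) + 1)) :=
          mul_le_mul_of_nonneg_right (le_abs_self C) (by positivity)
  choose B hB M T₀ hM using h1
  have h2 : ∀ (j A : ℕ), ∃ E : Set X, dimH E ≤ ENNReal.ofReal ((s + 1 / ((j : ℝ) + 1)) / τ) ∧
      ∀ ξ ∉ E, ∀ C : ℝ, ∃ K : ℕ, ∀ k : ℕ, K ≤ k → ∀ x ∈ (if T₀ j A ≤ (2 : ℝ) ^ k then
        Ex A (B j A) ((2 : ℝ) ^ k) else (∅ : Set ι)), C * ((2 : ℝ) ^ k) ^ (-τ) < dist ξ (f x) := by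
    intro j A
    refine block f (fun k => if T₀ j A ≤ (2 : ℝ) ^ k then
        Ex A (B j A) ((2 : ℝ) ^ k) else (∅ : Set ι)) (by positivity) hτ fun δ hδ =>
        ⟨|M j A|, fun k => ?_⟩
    have hk1 : (1 : ℝ) ≤ 2 ^ k := one_le_pow₀ (by norm_num)
    split_ifs with hk
    · refine ⟨(hM j A _ hk).1, (hM j A _ hk).2.trans ?_⟩
      refine mul_le_mul (le_abs_self _) ?_ (by positivity) (abs_nonneg _)
      exact Real.rpow_le_rpow_of_exponent_le hk1 (by linarith)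
    · refine ⟨Set.finite_empty, ?_⟩
      rw [Set.ncard_empty, Nat.cast_zero]
      positivity
  choose E hdim hgood using h2
  refine ⟨⋂ j : ℕ, ⋃ A : ℕ, E j A, ?_, ?_⟩
  · have hlim : Tendsto (fun j : ℕ => ENNReal.ofReal ((s + 1 / ((j : ℝ) + 1)) / τ)) atTop
          (𝓝 (ENNReal.ofReal (s / τ))) := by
      refine ENNReal.tendsto_ofReal ?_
      have h1 : Tendsto (fun j : ℕ => 1 / ((j : ℝ) + 1)) atTop (𝓝 0) :=
        tendsto_one_div_add_atTop_nhds_zero_nat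
      have h2 := (h1.const_add s).div_const τ
      rwa [add_zero] at h2
    refine ge_of_tendsto' hlim fun j => ?_
    refine (dimH_mono (Set.iInter_subset _ j)).trans ?_
    rw [dimH_iUnion]
    exact iSup_le fun A => hdim j A
  · intro ξ hξ A
    rw [Set.mem_iInter] at hξ
    push Not at hξ
    obtain ⟨j, hj⟩ := hξ
    obtain ⟨A', hA'⟩ := exists_nat_ge A
    have hj' : ξ ∉ E j A' := fun h => hj (Set.mem_iUnion.2 ⟨A', h⟩)
    refine ⟨B j A' + 1, fun C => ?_⟩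
    obtain ⟨K, hK⟩ := hgood j A' ξ hj' (|C| * 2 ^ τ)
    refine ⟨max (max (2 ^ (B j A')) (T₀ j A')) (max 1 (2 ^ K)), fun T hT x hx => ?_⟩
    have hTB : 2 ^ (B j A') ≤ T := ((le_max_left _ _).trans (le_max_left _ _)).trans hT
    have hTT : T₀ j A' ≤ T := ((le_max_right _ _).trans (le_max_left _ _)).trans hT
    have hT1 : 1 ≤ T := ((le_max_left _ _).trans (le_max_right _ _)).trans hT
    have hTK : (2 : ℝ) ^ K ≤ T := ((le_max_right _ _).trans (le_max_right _ _)).trans hT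
    have hT0 : 0 < T := by linarith
    set k : ℕ := Nat.log 2 ⌊T⌋₊ with hk
    have hfl : 1 ≤ ⌊T⌋₊ := Nat.one_le_floor_iff _ |>.mpr hT1
    have e1 : (2 : ℝ) ^ k ≤ T := by
      have e1 : 2 ^ k ≤ ⌊T⌋₊ := Nat.pow_log_le_self 2 (by omega)
      calc (2 : ℝ) ^ k = ((2 ^ k : ℕ) : ℝ) := by push_cast; rfl
        _ ≤ (⌊T⌋₊ : ℝ) := by exact_mod_cast e1
        _ ≤ T := Nat.floor_le hT0.le
    have e2 : T ≤ (2 : ℝ) ^ (k + 1) := by
      have e3 : ⌊T⌋₊ < 2 ^ (k + 1) := Nat.lt_pow_succ_log_self (by norm_num) _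
      have e4 : T < (⌊T⌋₊ : ℝ) + 1 := Nat.lt_floor_add_one _
      have e5 : ((⌊T⌋₊ + 1 : ℕ) : ℝ) ≤ ((2 ^ (k + 1) : ℕ) : ℝ) := by exact_mod_cast e3
      push_cast at e5
      linarith
    have e3 : (2 : ℝ) ^ (k + 1) ≤ 2 * T := by
      rw [pow_succ']
      linarith
    have hKk : K ≤ k := by
      refine Nat.le_log_of_pow_le (by norm_num) (Nat.le_floor ?_)
      push_cast
      exact hTK
    have hx1 : x ∈ Ex A' (B j A') ((2 : ℝ) ^ (k + 1)) :=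
      hE.dyadic A' (B j A') T _ (Nat.cast_nonneg _) (hB j A') hTB hT1 e2 e3
        (hE.monoA A A' _ T hA' hT1 hx)
    have hx2 := hK (k + 1) (by omega) x (by
      rw [if_pos (hTT.trans e2)]
      exact hx1)
    refine lt_of_le_of_lt ?_ hx2
    calc C * T ^ (-τ) ≤ |C| * T ^ (-τ) :=
          mul_le_mul_of_nonneg_right (le_abs_self C) (by positivity)
      _ = |C| * 2 ^ τ * (2 * T) ^ (-τ) := by
          rw [Real.mul_rpow (by norm_num) hT0.le, mul_assoc, ← mul_assoc (2 ^ τ),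
            ← Real.rpow_add (by norm_num)]
          simp
      _ ≤ |C| * 2 ^ τ * ((2 : ℝ) ^ (k + 1)) ^ (-τ) := by
          refine mul_le_mul_of_nonneg_left ?_ (by positivity)
          exact Real.rpow_le_rpow_of_nonpos (by positivity) e3 (by linarith)

/-- one exceptional set of dimension zero for all `τ` and a countable number of families -/
theorem fam_zero {ι X J : Type*} [Countable J] [MetricSpace X] (f : ι → X)
    (Ex : J → ℝ → ℝ → ℝ → Set ι) (hE : ∀ d, Good (Ex d) 0) :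
    ∃ E : Set X, dimH E = 0 ∧ ∀ ξ ∉ E, ∀ (d : J) (A τ : ℝ), 0 < τ → ∃ B : ℝ, ∀ C : ℝ,
      ∃ T₁ : ℝ, ∀ T : ℝ, T₁ ≤ T → ∀ x ∈ Ex d A B T, C * T ^ (-τ) < dist ξ (f x) := by
  have h1 : ∀ (d : J) (m : ℕ), ∃ E : Set X, dimH E ≤ ENNReal.ofReal (0 / (1 / ((m : ℝ) + 1))) ∧
      ∀ ξ ∉ E, ∀ A : ℝ, ∃ B : ℝ, ∀ C : ℝ, ∃ T₁ : ℝ, ∀ T : ℝ, T₁ ≤ T → ∀ x ∈ Ex d A B T,
        C * T ^ (-(1 / ((m : ℝ) + 1))) < dist ξ (f x) := fun d m =>
    fam f (Ex d) le_rfl (by positivity) (hE d)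
  choose E hdim hgood using h1
  refine ⟨⋃ d, ⋃ m, E d m, ?_, ?_⟩
  · refine le_antisymm ?_ bot_le
    rw [dimH_iUnion]
    refine iSup_le fun d => ?_
    rw [dimH_iUnion]
    refine iSup_le fun m => (hdim d m).trans ?_
    rw [zero_div, ENNReal.ofReal_zero]
  · intro ξ hξ d A τ hτ
    obtain ⟨m, hm⟩ := exists_nat_ge (1 / τ)
    have hm' : 1 / ((m : ℝ) + 1) ≤ τ := by
      rw [div_le_iff₀ (by positivity)]
      rw [div_le_iff₀ hτ] at hm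
      nlinarith
    obtain ⟨B, hB⟩ := hgood d m ξ (fun h => hξ (Set.mem_iUnion.2 ⟨d, Set.mem_iUnion.2 ⟨m, h⟩⟩)) A
    refine ⟨B, fun C => ?_⟩
    obtain ⟨T₁, hT⟩ := hB |C|
    refine ⟨max T₁ 1, fun T hT' x hx => ?_⟩
    have hT1 : 1 ≤ T := (le_max_right _ _).trans hT'
    refine lt_of_le_of_lt ?_ (hT T ((le_max_left _ _).trans hT') x hx)
    calc C * T ^ (-τ) ≤ |C| * T ^ (-τ) :=
          mul_le_mul_of_nonneg_right (le_abs_self C) (by positivity)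
      _ ≤ |C| * T ^ (-(1 / ((m : ℝ) + 1))) :=
          mul_le_mul_of_nonneg_left (Real.rpow_le_rpow_of_exponent_le hT1 (by linarith))
            (abs_nonneg _)

lemma pow_mono {A A' T : ℝ} (hA : A ≤ A') (hT : 1 ≤ T) : T ^ A ≤ T ^ A' :=
  Real.rpow_le_rpow_of_exponent_le hT hA

lemma pow_dyadic {B T T' : ℝ} (hB : 0 ≤ B) (hT : 1 ≤ T) (h1 : T ≤ T') (h2 : T' ≤ 2 * T)
    (h3 : 2 ^ B ≤ T) : T ^ (-(B + 1)) ≤ T' ^ (-B) := by
  have hT0 : 0 < T := by linarith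
  calc T ^ (-(B + 1)) = T⁻¹ * T ^ (-B) := by
        rw [← Real.rpow_neg_one T, ← Real.rpow_add hT0]
        congr 1
        ring
    _ ≤ (2 ^ B)⁻¹ * T ^ (-B) := by
        refine mul_le_mul_of_nonneg_right ?_ (by positivity)
        exact inv_anti₀ (by positivity) h3
    _ = (2 * T) ^ (-B) := by
        rw [Real.mul_rpow (by norm_num) hT0.le, Real.rpow_neg (by norm_num : (0 : ℝ) ≤ 2)]
    _ ≤ T' ^ (-B) := Real.rpow_le_rpow_of_nonpos (by linarith) h2 (by linarith)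

end Pool.Agent.R437.Met.Fam
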