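import Pool.Agent.R437.Met.Hs
import Pool.Agent.R349.Generic

/-! Values of locally independent analytic functions at the points of a number field near a given point. -/

set_option autoImplicit false

open NumberField

namespace Pool.Agent.R437.Met.GG

open Fam Hs Pool.Agent.R349.Gen

theorem good_mono {σ : Type} {g : ℕ} {F : Type} [Field F] [NumberField F] {ι : F →+* ℂ} {c : Fin g → ℂ}
    {d : ℕ} {H H' δ δ' : ℝ} {v : σ → ℂ} (hH : H ≤ H') (hδ : δ ≤ δ')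
    (h : GoodG F ι c d H' δ' v) : GoodG F ι c d H δ v := by
  constructor
  · intro P hP s
    refine le_trans (mul_le_mul_of_nonneg_right hδ (norm_nonneg _)) (h.1 P ⟨hP.1, fun s => ?_⟩ s)
    obtain ⟨a, ha, ha'⟩ := hP.2 s
    exact ⟨a, fun i φ => (ha i φ).trans hH, ha'⟩
  · intro Q hQ hQd hQc
    exact h.2 Q hQ hQd fun s φ => (hQc s φ).trans hH

/-- the number of all bad tuples, from the number of bad tuples in small discs -/
theorem total (F : Type) [Field F] [NumberField F] (ι : F →+* ℂ) (n : ℕ) (L : Set ℂ) (hL : IsCompact L)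
    (Bad : ℝ → (Fin n → F) → Prop) (δ : ℝ) (hδ : 0 < δ) (C : ℕ) (T₀ : ℝ)
    (h : ∀ T : ℝ, T₀ ≤ T → ∀ X : Fin n → Finset F, (∀ j, ∀ x ∈ X j, ι x ∈ L ∧ IsPt F T x) →
      (∀ j, ∀ x ∈ X j, ∀ y ∈ X j, ‖ι x - ι y‖ ≤ T ^ (-δ)) →
      (({t : Fin n → F | (∀ j, t j ∈ X j) ∧ Bad T t}.ncard : ℕ) : ℝ) ≤
        C * ∑ j, ∏ i ∈ Finset.univ.erase j, ((X i).card : ℝ)) :
    ∃ C' : ℝ, ∀ T : ℝ, max T₀ 1 ≤ T →
      {t : Fin n → F | (∀ j, ι (t j) ∈ L ∧ IsPt F T (t j)) ∧ Bad T t}.Finite ∧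
      (({t : Fin n → F | (∀ j, ι (t j) ∈ L ∧ IsPt F T (t j)) ∧ Bad T t}.ncard : ℕ) : ℝ) ≤
        C' * T ^ (2 * n * δ) * ({x : F | ι x ∈ L ∧ IsPt F T x}.ncard : ℝ) ^ (n - 1) := by
  classical
  obtain ⟨M, hM⟩ := hL.isBounded.exists_norm_le
  set M' : ℝ := max M 0 with hM'
  have hM'0 : 0 ≤ M' := le_max_right _ _
  refine ⟨((4 * M' + 3) ^ 2) ^ n * (C * n), fun T hT => ?_⟩
  have hTT₀ : T₀ ≤ T := (le_max_left _ _).trans hT
  have hT1 : 1 ≤ T := (le_max_right _ _).trans hT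
  have hT0 : 0 < T := by linarith
  have hfin : {x : F | ι x ∈ L ∧ IsPt F T x}.Finite := (pt_finite F T).subset fun x hx => hx.2
  set P : Finset F := hfin.toFinset with hP
  have hPmem : ∀ x, x ∈ P ↔ ι x ∈ L ∧ IsPt F T x := fun x => Set.Finite.mem_toFinset hfin
  have hPcard : ({x : F | ι x ∈ L ∧ IsPt F T x}.ncard : ℕ) = P.card := Set.ncard_eq_toFinset_card _ hfin
  set w : ℝ := T ^ δ with hw
  have hw1 : 1 ≤ w := Real.one_le_rpow hT1 hδ.le
  set φ : F → ℤ × ℤ := fun x => (⌊2 * w * (ι x).re⌋, ⌊2 * w * (ι x).im⌋) with hφ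
  set N : ℕ := ⌈2 * w * M'⌉₊ with hN
  set I : Finset (ℤ × ℤ) := Finset.Icc (-(N : ℤ)) N ×ˢ Finset.Icc (-(N : ℤ)) N with hI
  have hfl : ∀ r : ℝ, |r| ≤ M' → ⌊2 * w * r⌋ ∈ Finset.Icc (-(N : ℤ)) N := by
    intro r hr
    have h1 : |2 * w * r| ≤ (N : ℝ) := by
      rw [abs_mul, abs_of_pos (by positivity : (0 : ℝ) < 2 * w)]
      exact (mul_le_mul_of_nonneg_left hr (by positivity)).trans (Nat.le_ceil _)
    rw [Finset.mem_Icc]
    constructor
    · rw [Int.le_floor]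
      push_cast
      exact (abs_le.1 h1).1
    · have h2 : ((⌊2 * w * r⌋ : ℤ) : ℝ) ≤ ((N : ℤ) : ℝ) := by
        push_cast
        exact (Int.floor_le _).trans (abs_le.1 h1).2
      exact_mod_cast h2
  have hφI : ∀ x ∈ P, φ x ∈ I := by
    intro x hx
    have hxL := ((hPmem x).1 hx).1
    have hn : ‖ι x‖ ≤ M' := (hM _ hxL).trans (le_max_left _ _)
    rw [hI, Finset.mem_product]
    exact ⟨hfl _ ((Complex.abs_re_le_norm _).trans hn), hfl _ ((Complex.abs_im_le_norm _).trans hn)⟩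
  have hclose : ∀ x y : F, φ x = φ y → ‖ι x - ι y‖ ≤ T ^ (-δ) := by
    intro x y hxy
    have h1 : ⌊2 * w * (ι x).re⌋ = ⌊2 * w * (ι y).re⌋ := (Prod.mk.inj hxy).1
    have h2 : ⌊2 * w * (ι x).im⌋ = ⌊2 * w * (ι y).im⌋ := (Prod.mk.inj hxy).2
    have aux : ∀ a b : ℝ, ⌊2 * w * a⌋ = ⌊2 * w * b⌋ → |a - b| ≤ 1 / (2 * w) := by
      intro a b hab
      have h3 : |2 * w * a - 2 * w * b| < 1 := Int.abs_sub_lt_one_of_floor_eq_floor hab
      have h4 : 2 * w * a - 2 * w * b = 2 * w * (a - b) := by ring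
      rw [h4, abs_mul, abs_of_pos (by positivity : (0 : ℝ) < 2 * w)] at h3
      rw [le_div_iff₀ (by positivity)]
      linarith
    have h3 : |(ι x - ι y).re| ≤ 1 / (2 * w) := by
      rw [Complex.sub_re]
      exact aux _ _ h1
    have h4 : |(ι x - ι y).im| ≤ 1 / (2 * w) := by
      rw [Complex.sub_im]
      exact aux _ _ h2
    have h5 : T ^ (-δ) = 1 / (2 * w) + 1 / (2 * w) := by
      rw [Real.rpow_neg hT0.le, ← hw]
      field_simp
      ring
    rw [h5]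
    exact (Complex.norm_le_abs_re_add_abs_im _).trans (add_le_add h3 h4)
  have hsub : {t : Fin n → F | (∀ j, ι (t j) ∈ L ∧ IsPt F T (t j)) ∧ Bad T t} ⊆
      ⋃ s ∈ Fintype.piFinset (fun _ : Fin n => I),
        {t : Fin n → F | (∀ j, t j ∈ P.filter fun x => φ x = s j) ∧ Bad T t} := by
    rintro t ⟨h1, h2⟩
    refine Set.mem_iUnion₂.2 ⟨fun j => φ (t j), ?_, fun j => ?_, h2⟩
    · rw [Fintype.mem_piFinset]
      exact fun j => hφI _ ((hPmem _).2 (h1 j))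
    · rw [Finset.mem_filter]
      exact ⟨(hPmem _).2 (h1 j), rfl⟩
  have hfin1 : ∀ s : Fin n → ℤ × ℤ,
      {t : Fin n → F | (∀ j, t j ∈ P.filter fun x => φ x = s j) ∧ Bad T t}.Finite := by
    intro s
    refine (Finset.finite_toSet (Fintype.piFinset fun j => P.filter fun x => φ x = s j)).subset ?_
    intro t ht
    rw [Finset.mem_coe, Fintype.mem_piFinset]
    exact ht.1
  have hfinU : (⋃ s ∈ Fintype.piFinset (fun _ : Fin n => I),
        {t : Fin n → F | (∀ j, t j ∈ P.filter fun x => φ x = s j) ∧ Bad T t}).Finite :=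
    Set.Finite.biUnion (Finset.finite_toSet _) fun s _ => hfin1 s
  refine ⟨hfinU.subset hsub, ?_⟩
  have hbound : ∀ s : Fin n → ℤ × ℤ,
      (({t : Fin n → F | (∀ j, t j ∈ P.filter fun x => φ x = s j) ∧ Bad T t}.ncard : ℕ) : ℝ) ≤
        C * n * (P.card : ℝ) ^ (n - 1) := by
    intro s
    refine (h T hTT₀ (fun j => P.filter fun x => φ x = s j) (fun j x hx => ?_)
      (fun j x hx y hy => ?_)).trans ?_
    · exact (hPmem x).1 (Finset.mem_filter.1 hx).1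
    · exact hclose x y (((Finset.mem_filter.1 hx).2).trans (Finset.mem_filter.1 hy).2.symm)
    · rw [mul_assoc]
      refine mul_le_mul_of_nonneg_left ?_ (Nat.cast_nonneg _)
      have h1 : ∀ j ∈ (Finset.univ : Finset (Fin n)),
          ∏ i ∈ Finset.univ.erase j, (((P.filter fun x => φ x = s i).card : ℕ) : ℝ) ≤
            (P.card : ℝ) ^ (n - 1) := by
        intro j _
        calc ∏ i ∈ Finset.univ.erase j, (((P.filter fun x => φ x = s i).card : ℕ) : ℝ)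
            ≤ ∏ _i ∈ Finset.univ.erase j, (P.card : ℝ) := by
              refine Finset.prod_le_prod (fun i _ => Nat.cast_nonneg _) fun i _ => ?_
              exact_mod_cast Finset.card_filter_le _ _
          _ = (P.card : ℝ) ^ (n - 1) := by
              rw [Finset.prod_const, Finset.card_erase_of_mem (Finset.mem_univ j), Finset.card_univ,
                Fintype.card_fin]
      refine (Finset.sum_le_sum h1).trans (le_of_eq ?_)
      rw [Finset.sum_const, Finset.card_univ, Fintype.card_fin, nsmul_eq_mul]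
  have hIcard : (I.card : ℝ) ≤ (4 * M' + 3) ^ 2 * T ^ (2 * δ) := by
    have h1 : I.card = (2 * N + 1) ^ 2 := by
      rw [hI, Finset.card_product, Int.card_Icc, sq]
      congr 1 <;> omega
    have h2 : (N : ℝ) ≤ 2 * w * M' + 1 := (Nat.ceil_lt_add_one (by positivity)).le
    have h3 : T ^ (2 * δ) = w ^ 2 := by
      rw [hw, ← Real.rpow_natCast (T ^ δ) 2, ← Real.rpow_mul hT0.le]
      congr 1
      push_cast
      ring
    rw [h1, h3, ← mul_pow]
    push_cast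
    refine pow_le_pow_left₀ (by positivity) ?_ 2
    nlinarith
  calc (({t : Fin n → F | (∀ j, ι (t j) ∈ L ∧ IsPt F T (t j)) ∧ Bad T t}.ncard : ℕ) : ℝ)
      ≤ ((⋃ s ∈ Fintype.piFinset (fun _ : Fin n => I),
        {t : Fin n → F | (∀ j, t j ∈ P.filter fun x => φ x = s j) ∧ Bad T t}).ncard : ℝ) := by
        exact_mod_cast Set.ncard_le_ncard hsub hfinU
    _ ≤ ((∑ s ∈ Fintype.piFinset (fun _ : Fin n => I),
        {t : Fin n → F | (∀ j, t j ∈ P.filter fun x => φ x = s j) ∧ Bad T t}.ncard : ℕ) : ℝ) := by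
        exact_mod_cast Finset.set_ncard_biUnion_le _ _
    _ ≤ ∑ _s ∈ Fintype.piFinset (fun _ : Fin n => I), C * n * (P.card : ℝ) ^ (n - 1) := by
        push_cast
        exact Finset.sum_le_sum fun s _ => hbound s
    _ = (I.card : ℝ) ^ n * (C * n * (P.card : ℝ) ^ (n - 1)) := by
        rw [Finset.sum_const, Fintype.card_piFinset, nsmul_eq_mul]
        simp
    _ ≤ ((4 * M' + 3) ^ 2 * T ^ (2 * δ)) ^ n * (C * n * (P.card : ℝ) ^ (n - 1)) := by
        exact mul_le_mul_of_nonneg_right (pow_le_pow_left₀ (Nat.cast_nonneg _) hIcard n) (by positivity)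
    _ = ((4 * M' + 3) ^ 2) ^ n * (C * n) * T ^ (2 * n * δ) *
          ({x : F | ι x ∈ L ∧ IsPt F T x}.ncard : ℝ) ^ (n - 1) := by
        rw [hPcard, mul_pow, ← Real.rpow_natCast (T ^ (2 * δ)) n, ← Real.rpow_mul hT0.le]
        have e : 2 * δ * (n : ℝ) = 2 * n * δ := by ring
        rw [e]
        ring

/-- the values at the points near a given point are good -/
theorem master (F : Type) [Field F] [NumberField F] (ι : F →+* ℂ) (n : ℕ) (hn : 1 ≤ n) {κ : Type} [Fintype κ]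
    [DecidableEq κ] (f : Fin n → κ → ℂ → ℂ) (S : Set ℂ) (hS : IsOpen S)
    (han : ∀ j y, ∀ t ∈ S, AnalyticAt ℂ (f j y) t) (hind : ∀ j, ∀ t ∈ S, Pool.Agent.Y124.LocInd (f j) t)
    (c : ℕ → ℂ) (τ : ℝ) (hτ : 0 < τ) :
    ∃ E : Set (Fin n → ℂ),
      dimH E ≤ ENNReal.ofReal (2 * (Module.finrank ℚ F : ℝ) * ((n : ℝ) - 1) / τ) ∧
      ∀ ξ : Fin n → ℂ, (∀ j, ξ j ∈ S) → ξ ∉ E → ∀ (g d : ℕ) (A : ℝ), ∃ B : ℝ, ∀ C : ℝ, ∃ T₁ : ℝ,
        ∀ T : ℝ, T₁ ≤ T → ∀ x : Fin n → F,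
          (∀ j, IsPt F T (x j) ∧ ‖ξ j - ι (x j)‖ ≤ C * T ^ (-τ)) →
            GoodG F ι (fun i : Fin g => c i) d (T ^ A) (T ^ (-B))
              (fun z : Fin n × κ => f z.1 z.2 (ι (x z.1))) := by
  have hn0 : (0 : ℝ) < n := by exact_mod_cast hn
  obtain ⟨E, hE, h⟩ := Hs.tuple F ι n hn (fun _ => S) (fun _ => hS) (J := ℕ × ℕ)
    (fun q A B T x => ¬ GoodG F ι (fun i : Fin q.1 => c i) q.2 (T ^ A) (T ^ (-B))
      (fun z : Fin n × κ => f z.1 z.2 (ι (x z.1))))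
    (fun d A A' B T x hA hT hbad hgood => hbad (good_mono (Fam.pow_mono hA hT) le_rfl hgood))
    (fun d A B B' T x hB hT hbad hgood => hbad (good_mono le_rfl (Fam.pow_mono (by linarith) hT) hgood))
    (fun d A B T T' x hA hB h2B hT hTT hT2 hbad hgood => hbad (good_mono
      (Real.rpow_le_rpow (by linarith) hTT hA) (Fam.pow_dyadic hB hT hTT hT2 h2B) hgood))
    (by
      rintro K hK hKS ⟨g, d⟩ A ε hε
      have hK' : IsCompact (⋃ j, K j) := isCompact_iUnion hK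
      have hK'S : (⋃ j, K j) ⊆ S := Set.iUnion_subset hKS
      have hδ : 0 < ε / (2 * n) := by positivity
      obtain ⟨B, C, T₀, H⟩ := shortG (Module.finrank ℚ F) n g d f (⋃ j, K j) hK'
        (fun j y t ht => han j y t (hK'S ht)) (fun j t ht => hind j t (hK'S ht)) A (ε / (2 * n)) hδ
      obtain ⟨C', hC'⟩ := total F ι n (⋃ j, K j) hK'
        (fun T x => ¬ GoodG F ι (fun i : Fin g => c i) d (T ^ A) (T ^ (-B))
          (fun z : Fin n × κ => f z.1 z.2 (ι (x z.1)))) (ε / (2 * n)) hδ C T₀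
        (fun T hT X hX hX' => (H F le_rfl ι (fun i : Fin g => c i) T hT X hX hX').1)
      refine ⟨B, C', max T₀ 1, ⋃ j, K j, fun T hT => ?_⟩
      obtain ⟨h1, h2⟩ := hC' T hT
      have e : 2 * (n : ℝ) * (ε / (2 * n)) = ε := by field_simp
      rw [e] at h2
      have hsub : {x : Fin n → F | (∀ j, ι (x j) ∈ K j ∧ IsPt F T (x j)) ∧
          ¬ GoodG F ι (fun i : Fin g => c i) d (T ^ A) (T ^ (-B))
            (fun z : Fin n × κ => f z.1 z.2 (ι (x z.1)))} ⊆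
          {x : Fin n → F | (∀ j, ι (x j) ∈ (⋃ j, K j) ∧ IsPt F T (x j)) ∧
          ¬ GoodG F ι (fun i : Fin g => c i) d (T ^ A) (T ^ (-B))
            (fun z : Fin n × κ => f z.1 z.2 (ι (x z.1)))} := by
        rintro x ⟨h3, h4⟩
        exact ⟨fun j => ⟨Set.mem_iUnion.2 ⟨j, (h3 j).1⟩, (h3 j).2⟩, h4⟩
      refine ⟨h1.subset hsub, le_trans ?_ h2⟩
      exact_mod_cast Set.ncard_le_ncard hsub h1)
    τ hτ
  refine ⟨E, hE, fun ξ hξ hξE g d A => ?_⟩
  obtain ⟨B, hB⟩ := h ξ hξ hξE (g, d) A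
  refine ⟨B, fun C => ?_⟩
  obtain ⟨T₁, hT⟩ := hB C
  exact ⟨T₁, fun T hT' x hx => not_not.1 (hT T hT' x hx)⟩

end Pool.Agent.R437.Met.GG
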