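import Mathlib

/-! Renaming the variables of polynomials by an equivalence. -/

set_option autoImplicit false

namespace Pool.Agent.R437.Met.Ren

open MvPolynomial

variable {κ κ' R : Type*} [CommSemiring R]

lemma degreeOf_rename (e : κ ≃ κ') (P : MvPolynomial κ R) (i : κ') :
    (rename e P).degreeOf i = P.degreeOf (e.symm i) := by
  have h := degreeOf_rename_of_injective (p := P) e.injective (e.symm i)
  rwa [Equiv.apply_symm_apply] at h

lemma coeff_rename (e : κ ≃ κ') (P : MvPolynomial κ R) (s : κ' →₀ ℕ) :
    (rename e P).coeff s = P.coeff (s.mapDomain e.symm) := by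
  have h := coeff_rename_mapDomain e e.injective P (s.mapDomain e.symm)
  rw [← Finsupp.mapDomain_comp] at h
  simpa using h

lemma rename_ne_zero (e : κ ≃ κ') {P : MvPolynomial κ R} (hP : P ≠ 0) : rename e P ≠ 0 := by
  intro h
  exact hP (rename_injective e e.injective (by rw [h, map_zero]))

/-- `Option κ ≃ Option (Fin 1 × κ)` -/
def opt (κ : Type*) : Option κ ≃ Option (Fin 1 × κ) := (Equiv.uniqueProd κ (Fin 1)).symm.optionCongr

@[simp] lemma opt_none (κ : Type*) : opt κ none = none := rfl

@[simp] lemma opt_some (κ : Type*) (y : κ) : opt κ (some y) = some (0, y) := rfl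

end Pool.Agent.R437.Met.Ren
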