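import Pool.Agent.R437.Met.GG
import Pool.Agent.R437.Met.Ren

/-! Special cases of the theorem on points near a given point: one function of each of `n` variables; several
functions of one variable. -/

set_option autoImplicit false

open NumberField

namespace Pool.Agent.R437.Met.GG

open Fam Hs Pool.Agent.R349.Gen

theorem good_equiv {σ σ' : Type} {g : ℕ} {F : Type} [Field F] [NumberField F] {ι : F →+* ℂ} {c : Fin g → ℂ}
    {d : ℕ} {H δ : ℝ} (e : σ ≃ σ') {v : σ → ℂ} {v' : σ' → ℂ} (hv : v = v' ∘ e)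
    (h : GoodG F ι c d H δ v') : GoodG F ι c d H δ v := by
  subst hv
  constructor
  · intro P hP s
    have h1 := h.1 (MvPolynomial.rename e P) ⟨fun i => ?_, fun s => ?_⟩ (s.mapDomain e)
    · rw [Ren.coeff_rename, ← Finsupp.mapDomain_comp, MvPolynomial.aeval_rename] at h1
      have e1 : (e.symm : σ' → σ) ∘ e = id := by
        funext x
        simp
      rw [e1, Finsupp.mapDomain_id] at h1
      exact h1
    · rw [Ren.degreeOf_rename]
      exact hP.1 _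
    · obtain ⟨a, ha, ha'⟩ := hP.2 (s.mapDomain e.symm)
      refine ⟨a, ha, ?_⟩
      rw [Ren.coeff_rename, ha']
  · intro Q hQ hQd hQc
    have h1 := h.2 (MvPolynomial.rename (Equiv.optionCongr e) Q) (Ren.rename_ne_zero _ hQ)
      (fun x => by
        rw [Ren.degreeOf_rename]
        exact hQd _)
      (fun s φ => by
        rw [Ren.coeff_rename]
        exact hQc _ φ)
    rw [MvPolynomial.eval₂_rename] at h1
    have e2 : (fun o : Option σ' => o.elim (Real.pi : ℂ) v') ∘ (Equiv.optionCongr e) =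
        fun o : Option σ => o.elim (Real.pi : ℂ) (v' ∘ e) := by
      funext o
      cases o <;> rfl
    rw [e2] at h1
    exact h1

theorem master1 (F : Type) [Field F] [NumberField F] (ι : F →+* ℂ) (n : ℕ) (hn : 1 ≤ n)
    (f : Fin n → ℂ → ℂ) (S : Set ℂ) (hS : IsOpen S)
    (han : ∀ j, ∀ t ∈ S, AnalyticAt ℂ (f j) t)
    (hind : ∀ j, ∀ t ∈ S, Pool.Agent.Y124.LocInd (fun _ : Unit => f j) t)
    (c : ℕ → ℂ) (τ : ℝ) (hτ : 0 < τ) :
    ∃ E : Set (Fin n → ℂ),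
      dimH E ≤ ENNReal.ofReal (2 * (Module.finrank ℚ F : ℝ) * ((n : ℝ) - 1) / τ) ∧
      ∀ ξ : Fin n → ℂ, (∀ j, ξ j ∈ S) → ξ ∉ E → ∀ (g d : ℕ) (A : ℝ), ∃ B : ℝ, ∀ C : ℝ, ∃ T₁ : ℝ,
        ∀ T : ℝ, T₁ ≤ T → ∀ x : Fin n → F,
          (∀ j, IsPt F T (x j) ∧ ‖ξ j - ι (x j)‖ ≤ C * T ^ (-τ)) →
            GoodG F ι (fun i : Fin g => c i) d (T ^ A) (T ^ (-B)) (fun j : Fin n => f j (ι (x j))) := by
  obtain ⟨E, hE, h⟩ := master F ι n hn (fun j (_ : Unit) => f j) S hS (fun j _ t ht => han j t ht)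
    hind c τ hτ
  refine ⟨E, hE, fun ξ hξ hξE g d A => ?_⟩
  obtain ⟨B, hB⟩ := h ξ hξ hξE g d A
  refine ⟨B, fun C => ?_⟩
  obtain ⟨T₁, hT⟩ := hB C
  exact ⟨T₁, fun T hT' x hx => good_equiv (Equiv.prodPUnit (Fin n)).symm rfl (hT T hT' x hx)⟩

theorem masterOne (F : Type) [Field F] [NumberField F] (ι : F →+* ℂ) {κ : Type} [Fintype κ] [DecidableEq κ]
    (f : κ → ℂ → ℂ) (S : Set ℂ) (hS : IsOpen S)
    (han : ∀ y, ∀ t ∈ S, AnalyticAt ℂ (f y) t) (hind : ∀ t ∈ S, Pool.Agent.Y124.LocInd f t)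
    (c : ℕ → ℂ) :
    ∃ E : Set ℂ, dimH E = 0 ∧
      ∀ ξ ∈ S, ξ ∉ E → ∀ (g d : ℕ) (A τ : ℝ), 0 < τ → ∃ B : ℝ, ∀ C : ℝ, ∃ T₁ : ℝ,
        ∀ T : ℝ, T₁ ≤ T → ∀ x : F, IsPt F T x → ‖ξ - ι x‖ ≤ C * T ^ (-τ) →
            GoodG F ι (fun i : Fin g => c i) d (T ^ A) (T ^ (-B)) (fun y : κ => f y (ι x)) := by
  have h1 := fun k : ℕ => master F ι 1 le_rfl (fun _ => f) S hS (fun _ y t ht => han y t ht)
    (fun _ t ht => hind t ht) c (1 / ((k : ℝ) + 1)) (by positivity)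
  choose E hE h using h1
  refine ⟨(fun ξ : Fin 1 → ℂ => ξ 0) '' ⋃ k, E k, ?_, fun ξ hξ hξE g d A τ hτ => ?_⟩
  · refine le_antisymm ?_ bot_le
    refine ((LipschitzWith.eval (0 : Fin 1)).dimH_image_le _).trans ?_
    rw [dimH_iUnion]
    refine iSup_le fun k => (hE k).trans (le_of_eq ?_)
    simp
  · obtain ⟨k, hk⟩ := exists_nat_one_div_lt hτ
    have hk' : (fun _ : Fin 1 => ξ) ∉ E k := fun hmem =>
      hξE ⟨fun _ => ξ, Set.mem_iUnion.2 ⟨k, hmem⟩, rfl⟩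
    obtain ⟨B, hB⟩ := h k (fun _ => ξ) (fun _ => hξ) hk' g d A
    refine ⟨B, fun C => ?_⟩
    obtain ⟨T₁, hT⟩ := hB |C|
    refine ⟨max T₁ 1, fun T hT' x hx hd => ?_⟩
    have hT1 : 1 ≤ T := (le_max_right _ _).trans hT'
    have h2 : C * T ^ (-τ) ≤ |C| * T ^ (-(1 / ((k : ℝ) + 1))) :=
      mul_le_mul (le_abs_self C) (Fam.pow_mono (by linarith) hT1) (by positivity) (abs_nonneg C)
    refine good_equiv (Equiv.uniqueProd κ (Fin 1)).symm rfl
      (hT T ((le_max_left _ _).trans hT') (fun _ => x) fun _ => ⟨hx, hd.trans h2⟩)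

end Pool.Agent.R437.Met.GG
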