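import Pool.Agent.R437.Met.Tup

/-! Tuples of elements of a real number field near a given point. -/

set_option autoImplicit false

open Height

namespace Pool.Agent.R437.Met.Tup

open Fam

/-- a compact set of tuples with coordinates in an open interval -/
theorem compact_Icc {n : ℕ} {S : Set ℝ} (hS : IsOpen S) (hSc : S.OrdConnected) (hne : S.Nonempty)
    {K : Set (Fin n → ℝ)} (hK : IsCompact K) (hKS : K ⊆ Set.pi Set.univ fun _ => S) :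
    ∃ a b : ℝ, a < b ∧ Set.Icc a b ⊆ S ∧ ∀ ξ ∈ K, ∀ j, ξ j ∈ Set.Icc a b := by
  obtain ⟨K', hK', hsub, hmem⟩ : ∃ K' : Set ℝ, IsCompact K' ∧ K' ⊆ S ∧ ∀ ξ ∈ K, ∀ j, ξ j ∈ K' := by
    refine ⟨⋃ j : Fin n, (fun ξ : Fin n → ℝ => ξ j) '' K,
      isCompact_iUnion fun j => hK.image (continuous_apply j), ?_, fun ξ hξ j =>
        Set.mem_iUnion.2 ⟨j, ξ, hξ, rfl⟩⟩
    refine Set.iUnion_subset fun j => ?_
    rintro _ ⟨ξ, hξ, rfl⟩
    exact hKS hξ j (Set.mem_univ j)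
  obtain ⟨a, c, ha, hc, hac, hsub2⟩ : ∃ a c : ℝ, a ∈ S ∧ c ∈ S ∧ a ≤ c ∧ K' ⊆ Set.Icc a c := by
    rcases K'.eq_empty_or_nonempty with he | hne'
    · obtain ⟨s, hs⟩ := hne
      exact ⟨s, s, hs, hs, le_rfl, by rw [he]; exact Set.empty_subset _⟩
    · exact ⟨sInf K', sSup K', hsub (hK'.sInf_mem hne'), hsub (hK'.sSup_mem hne'),
        csInf_le_csSup hne' hK'.bddBelow hK'.bddAbove, fun x hx =>
          ⟨csInf_le hK'.bddBelow hx, le_csSup hK'.bddAbove hx⟩⟩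
  obtain ⟨r, hr, hrS⟩ := Metric.isOpen_iff.1 hS c hc
  have h1 : c + r / 2 ∈ S := by
    apply hrS
    rw [Metric.mem_ball, Real.dist_eq, add_sub_cancel_left, abs_of_pos (by linarith)]
    linarith
  refine ⟨a, c + r / 2, by linarith, hSc.out ha h1, fun ξ hξ j => ?_⟩
  have := hsub2 (hmem ξ hξ j)
  exact ⟨this.1, this.2.trans (by linarith)⟩

theorem tuple_real (k : Type) [Field k] [NumberField k] (σ : k →+* ℝ) (n : ℕ) (hn : 1 ≤ n)
    (S : Set ℝ) (hS : IsOpen S) (hSc : S.OrdConnected) (hne : S.Nonempty) {κ : Type}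
    (num : (Fin n → k) → κ → ℂ)
    (hcount : ∀ a b : ℝ, a < b → Set.Icc a b ⊆ S →
      ∀ (d : ℕ) (A ε : ℝ), 0 < ε → ∃ B C : ℝ, ∀ T : ℝ, 1 ≤ T →
        {x : Fin n → k | (∀ j, σ (x j) ∈ Set.Icc a b ∧ mulHeight₁ (x j) ≤ T) ∧
          PolyRel (Complex.ofRealHom.comp σ) (num x) d A B T}.Finite ∧
        (({x : Fin n → k | (∀ j, σ (x j) ∈ Set.Icc a b ∧ mulHeight₁ (x j) ≤ T) ∧
          PolyRel (Complex.ofRealHom.comp σ) (num x) d A B T}.ncard : ℕ) : ℝ) ≤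
            C * T ^ ε * ({x : k | mulHeight₁ x ≤ T}.ncard : ℝ) ^ (n - 1))
    (τ : ℝ) (hτ : 0 < τ) :
    ∃ E : Set (Fin n → ℝ), dimH E ≤ ENNReal.ofReal (2 * ((n : ℝ) - 1) / τ) ∧
      ∀ ξ : Fin n → ℝ, (∀ j, ξ j ∈ S) → ξ ∉ E → ∀ (d : ℕ) (A : ℝ), ∃ B : ℝ, ∀ C : ℝ, ∃ T₁ : ℝ,
        ∀ T : ℝ, T₁ ≤ T → ∀ x : Fin n → k,
          (∀ j, mulHeight₁ (x j) ≤ T ∧ |ξ j - σ (x j)| ≤ C * T ^ (-τ)) →
            ¬ PolyRel (Complex.ofRealHom.comp σ) (num x) d A B T := by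
  have hn' : (1 : ℝ) ≤ n := by exact_mod_cast hn
  have hSo : IsOpen (Set.pi Set.univ fun _ : Fin n => S) := isOpen_set_pi Set.finite_univ fun _ _ => hS
  have key : ∀ K : Set (Fin n → ℝ), IsCompact K → K ⊆ Set.pi Set.univ (fun _ : Fin n => S) →
      ∀ d : ℕ, Good (fun A B T => {x : Fin n → k | (fun j => σ (x j)) ∈ K ∧
        (∀ j, mulHeight₁ (x j) ≤ T) ∧ PolyRel (Complex.ofRealHom.comp σ) (num x) d A B T})
          (2 * ((n : ℝ) - 1)) := by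
    intro K hK hKS d
    obtain ⟨a, b, hab, habS, hmem⟩ := compact_Icc hS hSc hne hK hKS
    refine ⟨fun A ε _ hε => ?_, ?_, ?_, ?_⟩
    · obtain ⟨B, C, hBC⟩ := hcount a b hab habS d A ε hε
      obtain ⟨C', hC'⟩ := NT.pow_count k n hn C ε
      refine ⟨B, C', 1, fun T hT => ?_⟩
      obtain ⟨h1, h2⟩ := hBC T hT
      have hsub : {x : Fin n → k | (fun j => σ (x j)) ∈ K ∧ (∀ j, mulHeight₁ (x j) ≤ T) ∧
          PolyRel (Complex.ofRealHom.comp σ) (num x) d A B T} ⊆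
        {x : Fin n → k | (∀ j, σ (x j) ∈ Set.Icc a b ∧ mulHeight₁ (x j) ≤ T) ∧
          PolyRel (Complex.ofRealHom.comp σ) (num x) d A B T} := by
        rintro x ⟨e1, e2, e3⟩
        exact ⟨fun j => ⟨hmem _ e1 j, e2 j⟩, e3⟩
      refine ⟨h1.subset hsub, le_trans ?_ (h2.trans (hC' T hT))⟩
      exact_mod_cast Set.ncard_le_ncard hsub h1
    · rintro A A' B T hA hT x ⟨h1, h2, P, h3, h4, h5, h6⟩
      exact ⟨h1, h2, P, h3, h4, fun e => (h5 e).trans (Fam.pow_mono hA hT), h6⟩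
    · rintro A B B' T hB hT x ⟨h1, h2, P, h3, h4, h5, h6⟩
      exact ⟨h1, h2, P, h3, h4, h5, h6.trans (Fam.pow_mono (by linarith) hT)⟩
    · rintro A B T T' hA hB h2B hT h1 h2 x ⟨e1, e2, P, h3, h4, h5, h6⟩
      exact ⟨e1, fun j => (e2 j).trans h1, P, h3, h4, fun e => (h5 e).trans
        (Real.rpow_le_rpow (by linarith) h1 hA), h6.trans (Fam.pow_dyadic hB hT h1 h2 h2B)⟩
  obtain ⟨E, hE, h⟩ := Near.near_pos (J := ℕ) (Set.pi Set.univ fun _ : Fin n => S) hSo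
    (fun (x : Fin n → k) (j : Fin n) => σ (x j))
    (fun d A B T x => (∀ j, mulHeight₁ (x j) ≤ T) ∧
      PolyRel (Complex.ofRealHom.comp σ) (num x) d A B T)
    (s := 2 * ((n : ℝ) - 1)) (by linarith) hτ key
  refine ⟨E, hE, fun ξ hξ hξE d A => ?_⟩
  obtain ⟨B, hB⟩ := h ξ (fun j _ => hξ j) hξE d A
  refine ⟨B, fun C => ?_⟩
  obtain ⟨T₁, hT⟩ := hB |C|
  refine ⟨max T₁ 0, fun T hT' x hx hrel => ?_⟩
  have hT0 : 0 ≤ T := (le_max_right _ _).trans hT'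
  have h1 := hT T ((le_max_left _ _).trans hT') x ⟨fun j => (hx j).1, hrel⟩
  refine absurd h1 (not_lt.2 ?_)
  rw [dist_pi_le_iff (by positivity)]
  intro j
  rw [Real.dist_eq]
  exact (hx j).2.trans (mul_le_mul_of_nonneg_right (le_abs_self C) (by positivity))

end Pool.Agent.R437.Met.Tup
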