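import Pool.Agent.R437.Met.Hs
import Pool.Agent.R437.Met.TupR

/-! Points of any kind near a given point; relations with coefficients in a number field. -/

set_option autoImplicit false

open NumberField

namespace Pool.Agent.R437.Met.Gen

open Fam

/-- the number of rational numbers in an interval -/
theorem rat_count (a b : ℝ) : ∃ C : ℝ, 0 ≤ C ∧ ∀ T : ℝ, 1 ≤ T →
    {q : ℚ | a ≤ q ∧ q ≤ b ∧ (q.den : ℝ) ≤ T}.Finite ∧
    (({q : ℚ | a ≤ q ∧ q ≤ b ∧ (q.den : ℝ) ≤ T}.ncard : ℕ) : ℝ) ≤ C * T ^ 2 := by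
  classical
  set M : ℝ := |a| + |b| with hM
  have hM0 : 0 ≤ M := by positivity
  refine ⟨(2 * M + 5) * 2, by positivity, fun T hT => ?_⟩
  set N : ℕ := ⌈M * T⌉₊ with hN
  set s : Finset (ℤ × ℕ) := Finset.Icc (-(N : ℤ)) N ×ˢ Finset.range (⌊T⌋₊ + 1) with hs
  have hmap : Set.MapsTo (fun q : ℚ => (q.num, q.den)) {q : ℚ | a ≤ q ∧ q ≤ b ∧ (q.den : ℝ) ≤ T} s := by
    rintro q ⟨h1, h2, h3⟩
    rw [hs, Finset.mem_coe, Finset.mem_product, Finset.mem_Icc, Finset.mem_range]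
    have hd : (0 : ℝ) < q.den := by exact_mod_cast q.den_pos
    have hq : |(q : ℝ)| ≤ M := by
      rw [abs_le]
      constructor
      · have := neg_abs_le a
        have := abs_nonneg b
        linarith
      · have := le_abs_self b
        have := abs_nonneg a
        linarith
    have hnum : |((q.num : ℤ) : ℝ)| ≤ N := by
      have e : ((q.num : ℤ) : ℝ) = (q : ℝ) * q.den := by
        have := Rat.mul_den_eq_num q
        exact_mod_cast this.symm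
      rw [e, abs_mul, abs_of_pos hd]
      calc |(q : ℝ)| * q.den ≤ M * T := mul_le_mul hq h3 hd.le hM0
        _ ≤ N := Nat.le_ceil _
    have hnum' : |q.num| ≤ (N : ℤ) := by exact_mod_cast hnum
    refine ⟨⟨(abs_le.1 hnum').1, (abs_le.1 hnum').2⟩, ?_⟩
    have h5 : q.den ≤ ⌊T⌋₊ := Nat.le_floor h3
    exact Nat.lt_succ_of_le h5
  have hinj : Set.InjOn (fun q : ℚ => (q.num, q.den)) {q : ℚ | a ≤ q ∧ q ≤ b ∧ (q.den : ℝ) ≤ T} := by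
    intro p _ q _ h
    exact Rat.ext (Prod.mk.inj h).1 (Prod.mk.inj h).2
  have hfin : {q : ℚ | a ≤ q ∧ q ≤ b ∧ (q.den : ℝ) ≤ T}.Finite :=
    Set.Finite.of_injOn hmap hinj (Finset.finite_toSet s)
  refine ⟨hfin, ?_⟩
  have h1 : ({q : ℚ | a ≤ q ∧ q ≤ b ∧ (q.den : ℝ) ≤ T}.ncard : ℕ) ≤ s.card := by
    rw [← Set.ncard_coe_finset s]
    exact Set.ncard_le_ncard_of_injOn _ hmap hinj (Finset.finite_toSet s)
  have h2 : s.card = (2 * N + 1) * (⌊T⌋₊ + 1) := by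
    rw [hs, Finset.card_product, Int.card_Icc, Finset.card_range]
    congr 1
    omega
  have h3 : (N : ℝ) ≤ M * T + 1 := (Nat.ceil_lt_add_one (by positivity)).le
  have h4 : (⌊T⌋₊ : ℝ) ≤ T := Nat.floor_le (by linarith)
  calc (({q : ℚ | a ≤ q ∧ q ≤ b ∧ (q.den : ℝ) ≤ T}.ncard : ℕ) : ℝ) ≤ (s.card : ℝ) := by exact_mod_cast h1
    _ = (2 * (N : ℝ) + 1) * ((⌊T⌋₊ : ℝ) + 1) := by rw [h2]; push_cast; ring
    _ ≤ ((2 * M + 5) * T) * (2 * T) := by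
        refine mul_le_mul ?_ (by linarith) (by positivity) (by positivity)
        nlinarith
    _ = (2 * M + 5) * 2 * T ^ 2 := by ring

/-- the relation -/
def Rel {α J : Type} {g : ℕ} (F : Type) [Field F] [NumberField F] (v : α → J → ℂ)
    (ι : F →+* ℂ) (c : Fin g → ℂ) (d : ℕ) (A B T : ℝ) (x : α) : Prop :=
  ∃ P : MvPolynomial J ℂ, (∀ y, P.degreeOf y ≤ d) ∧
    (∀ s, ∃ a : Fin g → 𝓞 F, (∀ i (φ : F →+* ℂ), ‖φ (a i)‖ ≤ T ^ A) ∧ P.coeff s = ∑ i, c i * ι (a i)) ∧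
    ∃ s₀, P.coeff s₀ ≠ 0 ∧ ‖MvPolynomial.aeval (v x) P‖ ≤ T ^ (-B) * ‖P.coeff s₀‖

section

variable {α J X : Type} [MetricSpace X] [ProperSpace X] (F : Type) [Field F] [NumberField F]
  (v : α → J → ℂ) (ι : F →+* ℂ) (c : ℕ → ℂ) (f : α → X) (Ht : ℝ → α → Prop)

omit [MetricSpace X] [ProperSpace X] in
theorem good (hHt : ∀ T T' x, T ≤ T' → Ht T x → Ht T' x) (K : Set X) (g d : ℕ) (s : ℝ)
    (hcount : ∀ (A ε : ℝ), 0 < ε → ∃ B C T₀ : ℝ, ∀ T : ℝ, T₀ ≤ T →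
        {x : α | f x ∈ K ∧ Ht T x ∧ Rel F v ι (fun i : Fin g => c i) d A B T x}.Finite ∧
        (({x : α | f x ∈ K ∧ Ht T x ∧ Rel F v ι (fun i : Fin g => c i) d A B T x}.ncard : ℕ) : ℝ) ≤
            C * T ^ (s + ε)) :
    Good (fun A B T => {x : α | f x ∈ K ∧ Ht T x ∧ Rel F v ι (fun i : Fin g => c i) d A B T x}) s where
  count := fun A ε _ hε => hcount A ε hε
  monoA := by
    rintro A A' B T hA hT x ⟨h0, h0', P, h1, h2, h3⟩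
    refine ⟨h0, h0', P, h1, fun s => ?_, h3⟩
    obtain ⟨a, ha, ha'⟩ := h2 s
    exact ⟨a, fun i φ => (ha i φ).trans (Fam.pow_mono hA hT), ha'⟩
  monoB := by
    rintro A B B' T hB hT x ⟨h0, h0', P, h1, h2, s₀, h3, h4⟩
    exact ⟨h0, h0', P, h1, h2, s₀, h3, h4.trans (mul_le_mul_of_nonneg_right
      (Fam.pow_mono (by linarith) hT) (norm_nonneg _))⟩
  dyadic := by
    rintro A B T T' hA hB h2B hT hTT hT2 x ⟨h0, h0', P, h1, h2, s₀, h3, h4⟩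
    refine ⟨h0, hHt T T' x hTT h0', P, h1, fun s => ?_, s₀, h3, h4.trans (mul_le_mul_of_nonneg_right
      (Fam.pow_dyadic hB hT hTT hT2 h2B) (norm_nonneg _))⟩
    obtain ⟨a, ha, ha'⟩ := h2 s
    exact ⟨a, fun i φ => (ha i φ).trans (Real.rpow_le_rpow (by linarith) hTT hA), ha'⟩

theorem near (S : Set X) (hS : IsOpen S) (s τ : ℝ) (hs : 0 ≤ s) (hτ : 0 < τ)
    (hHt : ∀ T T' x, T ≤ T' → Ht T x → Ht T' x)
    (hcount : ∀ K : Set X, IsCompact K → K ⊆ S →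
      ∀ (g d : ℕ) (A ε : ℝ), 0 < ε → ∃ B C T₀ : ℝ, ∀ T : ℝ, T₀ ≤ T →
        {x : α | f x ∈ K ∧ Ht T x ∧ Rel F v ι (fun i : Fin g => c i) d A B T x}.Finite ∧
        (({x : α | f x ∈ K ∧ Ht T x ∧ Rel F v ι (fun i : Fin g => c i) d A B T x}.ncard : ℕ) : ℝ) ≤
            C * T ^ (s + ε)) :
    ∃ E : Set X, dimH E ≤ ENNReal.ofReal (s / τ) ∧
      ∀ ξ ∈ S, ξ ∉ E → ∀ (g d : ℕ) (A : ℝ), ∃ B : ℝ, ∀ C : ℝ, ∃ T₁ : ℝ,
        ∀ T : ℝ, T₁ ≤ T → ∀ x : α, Ht T x → dist ξ (f x) ≤ C * T ^ (-τ) →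
            ¬ Rel F v ι (fun i : Fin g => c i) d A B T x := by
  obtain ⟨E, hE, h⟩ := Near.near_pos (J := ℕ × ℕ) S hS f
    (fun q A B T x => Ht T x ∧ Rel F v ι (fun i : Fin q.1 => c i) q.2 A B T x) hs hτ
    (fun K hK hKS q => good F v ι c f Ht hHt K q.1 q.2 s fun A ε hε => hcount K hK hKS q.1 q.2 A ε hε)
  refine ⟨E, hE, fun ξ hξ hξE g d A => ?_⟩
  obtain ⟨B, hB⟩ := h ξ hξ hξE (g, d) A
  refine ⟨B, fun C => ?_⟩
  obtain ⟨T₁, hT⟩ := hB C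
  exact ⟨T₁, fun T hT' x hx hd hrel => absurd (hT T hT' x ⟨hx, hrel⟩) (not_lt.2 hd)⟩

theorem near_zero (S : Set X) (hS : IsOpen S)
    (hHt : ∀ T T' x, T ≤ T' → Ht T x → Ht T' x)
    (hcount : ∀ K : Set X, IsCompact K → K ⊆ S →
      ∀ (g d : ℕ) (A ε : ℝ), 0 < ε → ∃ B C T₀ : ℝ, ∀ T : ℝ, T₀ ≤ T →
        {x : α | f x ∈ K ∧ Ht T x ∧ Rel F v ι (fun i : Fin g => c i) d A B T x}.Finite ∧
        (({x : α | f x ∈ K ∧ Ht T x ∧ Rel F v ι (fun i : Fin g => c i) d A B T x}.ncard : ℕ) : ℝ) ≤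
            C * T ^ ε) :
    ∃ E : Set X, dimH E = 0 ∧
      ∀ ξ ∈ S, ξ ∉ E → ∀ (g d : ℕ) (A τ : ℝ), 0 < τ → ∃ B : ℝ, ∀ C : ℝ, ∃ T₁ : ℝ,
        ∀ T : ℝ, T₁ ≤ T → ∀ x : α, Ht T x → dist ξ (f x) ≤ C * T ^ (-τ) →
            ¬ Rel F v ι (fun i : Fin g => c i) d A B T x := by
  obtain ⟨E, hE, h⟩ := Near.near_zero (J := ℕ × ℕ) S hS f
    (fun q A B T x => Ht T x ∧ Rel F v ι (fun i : Fin q.1 => c i) q.2 A B T x)
    (fun K hK hKS q => good F v ι c f Ht hHt K q.1 q.2 0 fun A ε hε => by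
      rw [zero_add]
      exact hcount K hK hKS q.1 q.2 A ε hε)
  refine ⟨E, hE, fun ξ hξ hξE g d A τ hτ => ?_⟩
  obtain ⟨B, hB⟩ := h ξ hξ hξE (g, d) A τ hτ
  refine ⟨B, fun C => ?_⟩
  obtain ⟨T₁, hT⟩ := hB C
  exact ⟨T₁, fun T hT' x hx hd hrel => absurd (hT T hT' x ⟨hx, hrel⟩) (not_lt.2 hd)⟩

end

/-- powers of a counting function -/
theorem pow_le {N : ℝ → ℝ} {C₁ p : ℝ} (hN0 : ∀ T, 0 ≤ N T)
    (hN : ∀ T : ℝ, 1 ≤ T → N T ≤ C₁ * T ^ p) (n : ℕ) (hn : 1 ≤ n) (C ε : ℝ) :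
    ∃ C' : ℝ, ∀ T : ℝ, 1 ≤ T → C * T ^ ε * N T ^ (n - 1) ≤ C' * T ^ (p * ((n : ℝ) - 1) + ε) := by
  refine ⟨|C| * C₁ ^ (n - 1), fun T hT => ?_⟩
  have hT0 : 0 < T := by linarith
  have h1 : N T ^ (n - 1) ≤ (C₁ * T ^ p) ^ (n - 1) := pow_le_pow_left₀ (hN0 T) (hN T hT) _
  have h2 : C * T ^ ε ≤ |C| * T ^ ε := mul_le_mul_of_nonneg_right (le_abs_self C) (by positivity)
  calc C * T ^ ε * N T ^ (n - 1) ≤ |C| * T ^ ε * (C₁ * T ^ p) ^ (n - 1) :=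
        mul_le_mul h2 h1 (pow_nonneg (hN0 T) _) (by positivity)
    _ = |C| * C₁ ^ (n - 1) * (T ^ (p * ((n : ℝ) - 1)) * T ^ ε) := by
        rw [mul_pow, ← Real.rpow_natCast (T ^ p) (n - 1), ← Real.rpow_mul hT0.le, Nat.cast_sub hn]
        push_cast
        ring
    _ = |C| * C₁ ^ (n - 1) * T ^ (p * ((n : ℝ) - 1) + ε) := by
        rw [← Real.rpow_add hT0]

end Pool.Agent.R437.Met.Gen
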