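import Pool.Agent.R437.Met.NT

/-! Tuples of quotients of integers of a number field near a given point. -/

set_option autoImplicit false

open Height NumberField

namespace Pool.Agent.R437.Met.Hs

open Fam

/-- quotients of two integers all of whose conjugates are at most `T` -/
def IsPt (F : Type) [Field F] [NumberField F] (T : ℝ) (x : F) : Prop :=
  ∃ a b : 𝓞 F, b ≠ 0 ∧ (∀ φ : F →+* ℂ, ‖φ a‖ ≤ T ∧ ‖φ b‖ ≤ T) ∧ x = a / b

theorem IsPt.mono {F : Type} [Field F] [NumberField F] {T T' : ℝ} {x : F} (h : IsPt F T x)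
    (hT : T ≤ T') : IsPt F T' x := by
  obtain ⟨a, b, hb, hab, hx⟩ := h
  exact ⟨a, b, hb, fun φ => ⟨(hab φ).1.trans hT, (hab φ).2.trans hT⟩, hx⟩

theorem pt_height {F : Type} [Field F] [NumberField F] {T : ℝ} {x : F} (h : IsPt F T x) :
    mulHeight₁ x ≤ T ^ Module.finrank ℚ F := by
  obtain ⟨a, b, hb, hab, rfl⟩ := h
  have hbF : (b : F) ≠ 0 := by exact_mod_cast hb
  obtain ⟨φ₀⟩ : Nonempty (F →+* ℂ) := inferInstance
  have h0 : 0 ≤ T := (norm_nonneg _).trans (hab φ₀).1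
  rw [mulHeight₁_div_eq_mulHeight]
  have hP : (![(a : F), (b : F)] : Fin 2 → F) ≠ 0 := fun h => hbF (congrFun h 1)
  rw [NumberField.mulHeight_eq hP]
  have fin_le_one : ∀ (v : FinitePlace F) (x : 𝓞 F), v ((x : 𝓞 F) : F) ≤ 1 := by
    intro v x
    rw [← FinitePlace.norm_embedding_eq]
    exact FinitePlace.norm_le_one F v.maximalIdeal x
  have arch : ∀ (v : InfinitePlace F) (i : Fin 2), v ((![(a : F), (b : F)] : Fin 2 → F) i) ≤ T := by
    intro v i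
    rw [← InfinitePlace.norm_embedding_eq]
    fin_cases i
    · exact (hab v.embedding).1
    · exact (hab v.embedding).2
  have h1 : (∏ᶠ v : FinitePlace F, ⨆ i, v ((![(a : F), (b : F)] : Fin 2 → F) i)) ≤ 1 := by
    refine finprod_induction (fun x : ℝ => 0 ≤ x ∧ x ≤ 1) ⟨zero_le_one, le_rfl⟩ ?_ ?_ |>.2
    · rintro x y ⟨hx0, hx1⟩ ⟨hy0, hy1⟩
      exact ⟨mul_nonneg hx0 hy0, mul_le_one₀ hx1 hy0 hy1⟩
    · intro v
      refine ⟨Real.iSup_nonneg_of_nonnegHomClass _ _, ciSup_le fun i => ?_⟩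
      fin_cases i
      · exact fin_le_one v a
      · exact fin_le_one v b
  have h2 : (∏ v : InfinitePlace F, (⨆ i, v ((![(a : F), (b : F)] : Fin 2 → F) i)) ^ v.mult) ≤
      T ^ Module.finrank ℚ F := by
    calc (∏ v : InfinitePlace F, (⨆ i, v ((![(a : F), (b : F)] : Fin 2 → F) i)) ^ v.mult)
        ≤ ∏ v : InfinitePlace F, T ^ v.mult := by
          apply Finset.prod_le_prod
          · intro v _
            exact pow_nonneg (Real.iSup_nonneg_of_nonnegHomClass _ _) _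
          · intro v _
            apply pow_le_pow_left₀ (Real.iSup_nonneg_of_nonnegHomClass _ _)
            exact ciSup_le fun i => arch v i
      _ = T ^ Module.finrank ℚ F := by
          rw [Finset.prod_pow_eq_pow_sum, InfinitePlace.sum_mult_eq]
  have h3 : 0 ≤ ∏ᶠ v : FinitePlace F, ⨆ i, v ((![(a : F), (b : F)] : Fin 2 → F) i) :=
    finprod_nonneg fun v => Real.iSup_nonneg_of_nonnegHomClass _ _
  calc _ ≤ T ^ Module.finrank ℚ F * 1 := mul_le_mul h2 h1 h3 (by positivity)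
    _ = _ := mul_one _

theorem pt_finite (F : Type) [Field F] [NumberField F] (T : ℝ) : {x : F | IsPt F T x}.Finite := by
  have hint : {a : 𝓞 F | ∀ φ : F →+* ℂ, ‖φ a‖ ≤ T}.Finite := by
    have h1 := Embeddings.finite_of_norm_le F ℂ T
    refine Set.Finite.of_finite_image (f := fun a : 𝓞 F => (a : F)) (h1.subset ?_) ?_
    · rintro _ ⟨a, ha, rfl⟩
      exact ⟨a.2, fun φ => ha φ⟩
    · intro a _ b _ hab
      exact RingOfIntegers.ext hab
  refine ((hint.prod hint).image fun p : 𝓞 F × 𝓞 F => (p.1 : F) / p.2).subset ?_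
  rintro x ⟨a, b, -, hab, rfl⟩
  exact ⟨(a, b), ⟨fun φ => (hab φ).1, fun φ => (hab φ).2⟩, rfl⟩

theorem elements_finite (F : Type) [Field F] [NumberField F] (T : ℝ) :
    {x : F | mulHeight₁ x ≤ T}.Finite :=
  Northcott.finite_le T

theorem pt_count (F : Type) [Field F] [NumberField F] :
    ∃ C : ℝ, 0 ≤ C ∧ ∀ T : ℝ, 1 ≤ T →
      ({x : F | IsPt F T x}.ncard : ℝ) ≤ C * T ^ (2 * Module.finrank ℚ F) := by
  obtain ⟨C, hC, h⟩ := NT.count_elements F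
  refine ⟨C, hC, fun T hT => ?_⟩
  have h1 : (1 : ℝ) ≤ T ^ Module.finrank ℚ F := one_le_pow₀ hT
  refine le_trans ?_ ((h _ h1).trans (le_of_eq ?_))
  · exact_mod_cast Set.ncard_le_ncard (fun x hx => pt_height hx) (elements_finite F _)
  · rw [← pow_mul, mul_comm (Module.finrank ℚ F) 2]

/-- the exponent `2 m (n - 1)` -/
theorem pow_count (F : Type) [Field F] [NumberField F] (n : ℕ) (hn : 1 ≤ n) (C ε : ℝ) (L : Set ℂ)
    (ι : F →+* ℂ) : ∃ C' : ℝ, ∀ T : ℝ, 1 ≤ T →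
      C * T ^ ε * ({x : F | ι x ∈ L ∧ IsPt F T x}.ncard : ℝ) ^ (n - 1) ≤
        C' * T ^ (2 * (Module.finrank ℚ F : ℝ) * ((n : ℝ) - 1) + ε) := by
  obtain ⟨C₁, hC₁, h⟩ := pt_count F
  refine ⟨|C| * C₁ ^ (n - 1), fun T hT => ?_⟩
  have hT0 : 0 < T := by linarith
  have h0 : ({x : F | ι x ∈ L ∧ IsPt F T x}.ncard : ℝ) ≤ C₁ * T ^ (2 * Module.finrank ℚ F) := by
    refine le_trans ?_ (h T hT)
    have hsub : {x : F | ι x ∈ L ∧ IsPt F T x} ⊆ {x : F | IsPt F T x} := fun x hx => hx.2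
    exact_mod_cast Set.ncard_le_ncard hsub (pt_finite F T)
  have h1 : ({x : F | ι x ∈ L ∧ IsPt F T x}.ncard : ℝ) ^ (n - 1) ≤
      (C₁ * T ^ (2 * Module.finrank ℚ F)) ^ (n - 1) :=
    pow_le_pow_left₀ (Nat.cast_nonneg _) h0 _
  have h2 : C * T ^ ε ≤ |C| * T ^ ε := mul_le_mul_of_nonneg_right (le_abs_self C) (by positivity)
  calc C * T ^ ε * ({x : F | ι x ∈ L ∧ IsPt F T x}.ncard : ℝ) ^ (n - 1)
      ≤ |C| * T ^ ε * (C₁ * T ^ (2 * Module.finrank ℚ F)) ^ (n - 1) :=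
        mul_le_mul h2 h1 (by positivity) (by positivity)
    _ = |C| * C₁ ^ (n - 1) * (T ^ (2 * (Module.finrank ℚ F : ℝ) * ((n : ℝ) - 1)) * T ^ ε) := by
        rw [mul_pow, ← pow_mul, ← Real.rpow_natCast T (2 * Module.finrank ℚ F * (n - 1))]
        have e : ((2 * Module.finrank ℚ F * (n - 1) : ℕ) : ℝ) =
            2 * (Module.finrank ℚ F : ℝ) * ((n : ℝ) - 1) := by
          push_cast [Nat.cast_sub hn]
          ring
        rw [e]
        ring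
    _ = |C| * C₁ ^ (n - 1) * T ^ (2 * (Module.finrank ℚ F : ℝ) * ((n : ℝ) - 1) + ε) := by
        rw [← Real.rpow_add hT0]

theorem tuple (F : Type) [Field F] [NumberField F] (ι : F →+* ℂ) (n : ℕ) (hn : 1 ≤ n)
    (S : Fin n → Set ℂ) (hS : ∀ j, IsOpen (S j)) {J : Type} [Countable J]
    (R : J → ℝ → ℝ → ℝ → (Fin n → F) → Prop)
    (hA : ∀ d A A' B T x, A ≤ A' → 1 ≤ T → R d A B T x → R d A' B T x)
    (hB : ∀ d A B B' T x, B' ≤ B → 1 ≤ T → R d A B T x → R d A B' T x)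
    (hD : ∀ d A B T T' x, 0 ≤ A → 0 ≤ B → (2 : ℝ) ^ B ≤ T → 1 ≤ T → T ≤ T' → T' ≤ 2 * T →
      R d A (B + 1) T x → R d A B T' x)
    (hcount : ∀ K : Fin n → Set ℂ, (∀ j, IsCompact (K j)) → (∀ j, K j ⊆ S j) →
      ∀ (d : J) (A ε : ℝ), 0 < ε → ∃ (B C T₀ : ℝ) (L : Set ℂ), ∀ T : ℝ, T₀ ≤ T →
        {x : Fin n → F | (∀ j, ι (x j) ∈ K j ∧ IsPt F T (x j)) ∧ R d A B T x}.Finite ∧
        (({x : Fin n → F | (∀ j, ι (x j) ∈ K j ∧ IsPt F T (x j)) ∧ R d A B T x}.ncard : ℕ) : ℝ) ≤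
            C * T ^ ε * ({x : F | ι x ∈ L ∧ IsPt F T x}.ncard : ℝ) ^ (n - 1))
    (τ : ℝ) (hτ : 0 < τ) :
    ∃ E : Set (Fin n → ℂ),
      dimH E ≤ ENNReal.ofReal (2 * (Module.finrank ℚ F : ℝ) * ((n : ℝ) - 1) / τ) ∧
      ∀ ξ : Fin n → ℂ, (∀ j, ξ j ∈ S j) → ξ ∉ E → ∀ (d : J) (A : ℝ), ∃ B : ℝ, ∀ C : ℝ, ∃ T₁ : ℝ,
        ∀ T : ℝ, T₁ ≤ T → ∀ x : Fin n → F,
          (∀ j, IsPt F T (x j) ∧ ‖ξ j - ι (x j)‖ ≤ C * T ^ (-τ)) → ¬ R d A B T x := by
  have hn' : (1 : ℝ) ≤ n := by exact_mod_cast hn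
  have hm : (0 : ℝ) ≤ Module.finrank ℚ F := Nat.cast_nonneg _
  have hSo : IsOpen (Set.pi Set.univ S) := isOpen_set_pi Set.finite_univ fun j _ => hS j
  have key : ∀ K : Set (Fin n → ℂ), IsCompact K → K ⊆ Set.pi Set.univ S → ∀ d : J,
      Good (fun A B T => {x : Fin n → F | (fun j => ι (x j)) ∈ K ∧
        (∀ j, IsPt F T (x j)) ∧ R d A B T x})
          (2 * (Module.finrank ℚ F : ℝ) * ((n : ℝ) - 1)) := by
    intro K hK hKS d
    have hKj : ∀ j, IsCompact ((fun ξ : Fin n → ℂ => ξ j) '' K) := fun j =>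
      hK.image (continuous_apply j)
    have hKSj : ∀ j, (fun ξ : Fin n → ℂ => ξ j) '' K ⊆ S j := by
      rintro j _ ⟨ξ, hξ, rfl⟩
      exact hKS hξ j (Set.mem_univ j)
    refine ⟨fun A ε _ hε => ?_, ?_, ?_, ?_⟩
    · obtain ⟨B, C, T₀, L, hBC⟩ := hcount _ hKj hKSj d A ε hε
      obtain ⟨C', hC'⟩ := pow_count F n hn C ε L ι
      refine ⟨B, C', max T₀ 1, fun T hT => ?_⟩
      obtain ⟨h1, h2⟩ := hBC T ((le_max_left _ _).trans hT)
      have hsub : {x : Fin n → F | (fun j => ι (x j)) ∈ K ∧ (∀ j, IsPt F T (x j)) ∧ R d A B T x} ⊆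
        {x : Fin n → F | (∀ j, ι (x j) ∈ (fun ξ : Fin n → ℂ => ξ j) '' K ∧ IsPt F T (x j)) ∧
          R d A B T x} := by
        rintro x ⟨e1, e2, e3⟩
        exact ⟨fun j => ⟨⟨_, e1, rfl⟩, e2 j⟩, e3⟩
      refine ⟨h1.subset hsub, le_trans ?_ (h2.trans (hC' T ((le_max_right _ _).trans hT)))⟩
      exact_mod_cast Set.ncard_le_ncard hsub h1
    · rintro A A' B T hAA hT x ⟨h1, h2, h3⟩
      exact ⟨h1, h2, hA d A A' B T x hAA hT h3⟩
    · rintro A B B' T hBB hT x ⟨h1, h2, h3⟩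
      exact ⟨h1, h2, hB d A B B' T x hBB hT h3⟩
    · rintro A B T T' hA0 hB0 h2B hT h1 h2 x ⟨e1, e2, e3⟩
      exact ⟨e1, fun j => (e2 j).mono h1, hD d A B T T' x hA0 hB0 h2B hT h1 h2 e3⟩
  obtain ⟨E, hE, h⟩ := Near.near_pos (J := J) (Set.pi Set.univ S) hSo
    (fun (x : Fin n → F) (j : Fin n) => ι (x j))
    (fun d A B T x => (∀ j, IsPt F T (x j)) ∧ R d A B T x)
    (s := 2 * (Module.finrank ℚ F : ℝ) * ((n : ℝ) - 1))
    (mul_nonneg (by linarith) (by linarith)) hτ key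
  refine ⟨E, hE, fun ξ hξ hξE d A => ?_⟩
  obtain ⟨B, hB⟩ := h ξ (fun j _ => hξ j) hξE d A
  refine ⟨B, fun C => ?_⟩
  obtain ⟨T₁, hT⟩ := hB |C|
  refine ⟨max T₁ 0, fun T hT' x hx hrel => ?_⟩
  have hT0 : 0 ≤ T := (le_max_right _ _).trans hT'
  have h1 := hT T ((le_max_left _ _).trans hT') x ⟨fun j => (hx j).1, hrel⟩
  refine absurd h1 (not_lt.2 ?_)
  rw [dist_pi_le_iff (by positivity)]
  intro j
  rw [dist_eq_norm]
  exact (hx j).2.trans (mul_le_mul_of_nonneg_right (le_abs_self C) (by positivity))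

end Pool.Agent.R437.Met.Hs
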