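import Pool.Agent.R437.Met.GGE
import Pool.Agent.Y771.RP.Rel
import Pool.Agent.TH21.MS.PolyLog

/-! From lower bounds for large real arguments to local independence at complex points. -/

set_option autoImplicit false

open Filter

namespace Pool.Agent.R437.Met.LBL

open Pool.Agent.TH21.MS

theorem ev_option {κ : Type} (u : κ → ℝ → ℝ) (P : MvPolynomial (Option κ) ℝ) (t : ℝ) :
    ev u (MvPolynomial.optionEquivRight ℝ κ P) t =
      MvPolynomial.eval (fun o : Option κ => o.elim t fun y => u y t) P := by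
  have h : ((MvPolynomial.eval₂Hom (Polynomial.evalRingHom t) fun k => u k t).comp
      (MvPolynomial.optionEquivRight ℝ κ).toAlgHom.toRingHom) =
      MvPolynomial.eval (fun o : Option κ => o.elim t fun y => u y t) := by
    refine MvPolynomial.ringHom_ext (fun r => ?_) fun o => ?_
    · simp [MvPolynomial.optionEquivRight_C]
    · cases o with
      | none => simp [MvPolynomial.optionEquivRight_X_none]
      | some y => simp [MvPolynomial.optionEquivRight_X_some]
  exact DFunLike.congr_fun h P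

theorem locInd_of_LB {κ : Type} [Fintype κ] (u : κ → ℝ → ℝ) (h : ℝ → ℝ) (hLB : LB u h)
    (f : κ → ℂ → ℂ) (Ω : Set ℂ) (hpc : IsPreconnected Ω) (han : ∀ y, ∀ t ∈ Ω, AnalyticAt ℂ (f y) t)
    (a0 : ℝ) (hΩ : ∀ t : ℝ, a0 < t → (t : ℂ) ∈ Ω) (hf : ∀ y, ∀ t : ℝ, a0 < t → f y (t : ℂ) = (u y t : ℂ)) :
    ∀ t0 ∈ Ω, Pool.Agent.Y124.LocInd f t0 := by
  refine Pool.Agent.Y771.RP.locInd_of f Ω hpc han fun P hP => ?_
  refine Pool.Agent.Y771.RP.ind_of_real f u (Set.Ioi a0) (fun y t ht => hf y t ht) (fun Q hQ => ?_) P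
    (fun t ht => hP t (hΩ t ht))
  by_contra hQ0
  have hQ' : MvPolynomial.optionEquivRight ℝ κ Q ≠ 0 := by
    intro h0
    exact hQ0 ((MvPolynomial.optionEquivRight ℝ κ).injective (by rw [h0, map_zero]))
  obtain ⟨C, hC⟩ := hLB _ hQ'
  obtain ⟨t, h1, h2⟩ := (hC.and (eventually_gt_atTop a0)).exists
  rw [ev_option, hQ t h2, abs_zero] at h1
  exact absurd h1 (not_le.2 (Real.exp_pos _))

end Pool.Agent.R437.Met.LBL
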