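import Pool.Agent.R437.Met.Near
import Pool.Agent.H437R2.Man.UpP1

/-! The number of elements of bounded height. -/

set_option autoImplicit false

open Height LinearAlgebra.Projectivization
open scoped LinearAlgebra.Projectivization

namespace Pool.Agent.R437.Met.NT

theorem count_elements (K : Type) [Field K] [NumberField K] :
    ∃ C : ℝ, 0 ≤ C ∧ ∀ T : ℝ, 1 ≤ T → ({x : K | mulHeight₁ x ≤ T}.ncard : ℝ) ≤ C * T ^ 2 := by
  classical
  obtain ⟨C, hC, h⟩ := Pool.Agent.H437R2.Man.count_P1 K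
  refine ⟨C, hC, fun T hT => ?_⟩
  rcases Set.finite_or_infinite {x : K | mulHeight₁ x ≤ T} with hfin | hinf
  · have hne : ∀ x : K, (![x, 1] : Fin 2 → K) ≠ 0 := fun x hx => one_ne_zero (congrFun hx 1)
    set f : K → ℙ K (Fin 2 → K) := fun x => Projectivization.mk K ![x, 1] (hne x) with hf
    have hinj : Function.Injective f := by
      intro x y hxy
      rw [hf, Projectivization.mk_eq_mk_iff'] at hxy
      obtain ⟨a, ha⟩ := hxy
      have h1 : a * 1 = 1 := congrFun ha 1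
      have h0 : a * y = x := congrFun ha 0
      rw [mul_one] at h1
      rw [h1, one_mul] at h0
      exact h0.symm
    have h1 := h (hfin.toFinset.image f) T hT (by
      intro p hp
      obtain ⟨x, hx, rfl⟩ := Finset.mem_image.1 hp
      rw [Set.Finite.mem_toFinset] at hx
      rw [hf, Projectivization.mulHeight_mk, ← mulHeight₁_eq_mulHeight]
      exact hx)
    rw [Finset.card_image_of_injective _ hinj] at h1
    rwa [Set.ncard_eq_toFinset_card _ hfin]
  · rw [hinf.ncard, Nat.cast_zero]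
    positivity

/-- the exponent `2 (n - 1)` -/
theorem pow_count (K : Type) [Field K] [NumberField K] (n : ℕ) (hn : 1 ≤ n) (C ε : ℝ) :
    ∃ C' : ℝ, ∀ T : ℝ, 1 ≤ T → C * T ^ ε * ({x : K | mulHeight₁ x ≤ T}.ncard : ℝ) ^ (n - 1) ≤
      C' * T ^ (2 * ((n : ℝ) - 1) + ε) := by
  obtain ⟨C₁, hC₁, h⟩ := count_elements K
  refine ⟨|C| * C₁ ^ (n - 1), fun T hT => ?_⟩
  have hT0 : 0 < T := by linarith
  have h1 : ({x : K | mulHeight₁ x ≤ T}.ncard : ℝ) ^ (n - 1) ≤ (C₁ * T ^ 2) ^ (n - 1) :=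
    pow_le_pow_left₀ (Nat.cast_nonneg _) (h T hT) _
  have h2 : C * T ^ ε ≤ |C| * T ^ ε := mul_le_mul_of_nonneg_right (le_abs_self C) (by positivity)
  calc C * T ^ ε * ({x : K | mulHeight₁ x ≤ T}.ncard : ℝ) ^ (n - 1)
      ≤ |C| * T ^ ε * (C₁ * T ^ 2) ^ (n - 1) :=
        mul_le_mul h2 h1 (by positivity) (by positivity)
    _ = |C| * C₁ ^ (n - 1) * (T ^ (2 * ((n : ℝ) - 1)) * T ^ ε) := by
        rw [mul_pow, ← pow_mul, ← Real.rpow_natCast T (2 * (n - 1))]
        have e : ((2 * (n - 1) : ℕ) : ℝ) = 2 * ((n : ℝ) - 1) := by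
          push_cast [Nat.cast_sub hn]
          ring
        rw [e]
        ring
    _ = |C| * C₁ ^ (n - 1) * T ^ (2 * ((n : ℝ) - 1) + ε) := by
        rw [← Real.rpow_add hT0]

end Pool.Agent.R437.Met.NT
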