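import Pool.Agent.R437.Met.Fam

/-! No exceptional points near a given point of an open set. -/

set_option autoImplicit false

open MeasureTheory Set Filter Topology
open scoped ENNReal NNReal

namespace Pool.Agent.R437.Met.Near

open Fam

theorem exhaust {X : Type*} [MetricSpace X] [ProperSpace X] (S : Set X) (hS : IsOpen S) :
    ∃ K : ℕ → Set X, (∀ m, IsCompact (K m)) ∧ (∀ m, K m ⊆ S) ∧
      ∀ ξ ∈ S, ∃ m : ℕ, ∃ r : ℝ, 0 < r ∧ Metric.ball ξ r ⊆ K m := by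
  rcases isEmpty_or_nonempty X with he | ⟨⟨x₀⟩⟩
  · exact ⟨fun _ => ∅, fun _ => isCompact_empty, fun _ => Set.empty_subset _,
      fun ξ _ => (he.false ξ).elim⟩
  · refine ⟨fun m => Metric.closedBall x₀ m ∩
      {z | ENNReal.ofReal (1 / ((m : ℝ) + 1)) ≤ Metric.infEDist z Sᶜ}, fun m => ?_, fun m => ?_,
      fun ξ hξ => ?_⟩
    · exact (isCompact_closedBall _ _).inter_right
        (isClosed_le continuous_const Metric.continuous_infEDist)
    · rintro z ⟨-, hz⟩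
      by_contra hzS
      have h1 : Metric.infEDist z Sᶜ = 0 := Metric.infEDist_zero_of_mem hzS
      have h2 : ENNReal.ofReal (1 / ((m : ℝ) + 1)) ≤ 0 := by
        rw [← h1]
        exact hz
      rw [nonpos_iff_eq_zero, ENNReal.ofReal_eq_zero] at h2
      have : (0 : ℝ) < 1 / ((m : ℝ) + 1) := by positivity
      linarith
    · obtain ⟨r, hr, hrS⟩ := Metric.isOpen_iff.1 hS ξ hξ
      obtain ⟨m, hm⟩ := exists_nat_ge (max (dist ξ x₀ + r) (2 / r))
      have hm1 : dist ξ x₀ + r ≤ m := (le_max_left _ _).trans hm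
      have hm2 : 2 / r ≤ m := (le_max_right _ _).trans hm
      have hm3 : 1 / ((m : ℝ) + 1) ≤ r / 2 := by
        rw [div_le_iff₀ (by positivity)]
        rw [div_le_iff₀ hr] at hm2
        nlinarith
      refine ⟨m, r / 2, by linarith, fun z hz => ?_⟩
      rw [Metric.mem_ball] at hz
      constructor
      · rw [Metric.mem_closedBall]
        have := dist_triangle z ξ x₀
        linarith
      · show ENNReal.ofReal (1 / ((m : ℝ) + 1)) ≤ Metric.infEDist z Sᶜ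
        rw [Metric.le_infEDist]
        intro w hw
        rw [edist_dist]
        refine ENNReal.ofReal_le_ofReal (hm3.trans ?_)
        by_contra hcon
        push Not at hcon
        apply hw
        apply hrS
        rw [Metric.mem_ball]
        have := dist_triangle w z ξ
        rw [dist_comm w z] at this
        linarith

lemma small {C τ r : ℝ} (hτ : 0 < τ) (hr : 0 < r) : ∃ T₂ : ℝ, ∀ T : ℝ, T₂ ≤ T → C * T ^ (-τ) < r := by
  have hlim : Filter.Tendsto (fun T : ℝ => C * T ^ (-τ)) Filter.atTop (nhds (C * 0)) :=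
    (tendsto_rpow_neg_atTop hτ).const_mul C
  rw [mul_zero] at hlim
  exact Filter.eventually_atTop.1 (hlim.eventually (gt_mem_nhds hr))

/-- positive exponent -/
theorem near_pos {ι X J : Type*} [Countable J] [MetricSpace X] [ProperSpace X] (S : Set X)
    (hS : IsOpen S) (f : ι → X) (Q : J → ℝ → ℝ → ℝ → ι → Prop) {s τ : ℝ} (hs : 0 ≤ s)
    (hτ : 0 < τ) (hgood : ∀ K : Set X, IsCompact K → K ⊆ S → ∀ d : J,
      Good (fun A B T => {i | f i ∈ K ∧ Q d A B T i}) s) :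
    ∃ E : Set X, dimH E ≤ ENNReal.ofReal (s / τ) ∧ ∀ ξ ∈ S, ξ ∉ E → ∀ (d : J) (A : ℝ),
      ∃ B : ℝ, ∀ C : ℝ, ∃ T₁ : ℝ, ∀ T : ℝ, T₁ ≤ T → ∀ i, Q d A B T i →
        C * T ^ (-τ) < dist ξ (f i) := by
  obtain ⟨K, hK, hKS, hcov⟩ := exhaust S hS
  have h1 := fun (m : ℕ) (d : J) => fam f (fun A B T => {i | f i ∈ K m ∧ Q d A B T i}) hs hτ
    (hgood (K m) (hK m) (hKS m) d)
  choose E hdim hE using h1
  refine ⟨⋃ m, ⋃ d, E m d, ?_, fun ξ hξS hξE d A => ?_⟩
  · rw [dimH_iUnion]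
    refine iSup_le fun m => ?_
    rw [dimH_iUnion]
    exact iSup_le fun d => hdim m d
  · obtain ⟨m, r, hr, hm⟩ := hcov ξ hξS
    obtain ⟨B, hB⟩ := hE m d ξ (fun h => hξE (Set.mem_iUnion.2 ⟨m, Set.mem_iUnion.2 ⟨d, h⟩⟩)) A
    refine ⟨B, fun C => ?_⟩
    obtain ⟨T₁, hT⟩ := hB C
    obtain ⟨T₂, hT₂⟩ := small (C := C) hτ hr
    refine ⟨max T₁ T₂, fun T hT' i hi => ?_⟩
    have e1 : T₁ ≤ T := (le_max_left _ _).trans hT'
    have e2 : T₂ ≤ T := (le_max_right _ _).trans hT'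
    by_contra hcon
    push Not at hcon
    have h2 : f i ∈ K m := by
      apply hm
      rw [Metric.mem_ball, dist_comm]
      exact hcon.trans_lt (hT₂ T e2)
    exact absurd (hT T e1 i ⟨h2, hi⟩) (not_lt.2 hcon)

/-- exponent zero -/
theorem near_zero {ι X J : Type*} [Countable J] [MetricSpace X] [ProperSpace X] (S : Set X)
    (hS : IsOpen S) (f : ι → X) (Q : J → ℝ → ℝ → ℝ → ι → Prop)
    (hgood : ∀ K : Set X, IsCompact K → K ⊆ S → ∀ d : J,
      Good (fun A B T => {i | f i ∈ K ∧ Q d A B T i}) 0) :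
    ∃ E : Set X, dimH E = 0 ∧ ∀ ξ ∈ S, ξ ∉ E → ∀ (d : J) (A τ : ℝ), 0 < τ →
      ∃ B : ℝ, ∀ C : ℝ, ∃ T₁ : ℝ, ∀ T : ℝ, T₁ ≤ T → ∀ i, Q d A B T i →
        C * T ^ (-τ) < dist ξ (f i) := by
  obtain ⟨K, hK, hKS, hcov⟩ := exhaust S hS
  obtain ⟨E, hE, h⟩ := fam_zero (J := ℕ × J) f (fun p A B T => {i | f i ∈ K p.1 ∧ Q p.2 A B T i})
    (fun p => hgood (K p.1) (hK p.1) (hKS p.1) p.2)
  refine ⟨E, hE, fun ξ hξS hξE d A τ hτ => ?_⟩
  obtain ⟨m, r, hr, hm⟩ := hcov ξ hξS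
  obtain ⟨B, hB⟩ := h ξ hξE (m, d) A τ hτ
  refine ⟨B, fun C => ?_⟩
  obtain ⟨T₁, hT⟩ := hB C
  obtain ⟨T₂, hT₂⟩ := small (C := C) hτ hr
  refine ⟨max T₁ T₂, fun T hT' i hi => ?_⟩
  have e1 : T₁ ≤ T := (le_max_left _ _).trans hT'
  have e2 : T₂ ≤ T := (le_max_right _ _).trans hT'
  by_contra hcon
  push Not at hcon
  have h2 : f i ∈ K m := by
    apply hm
    rw [Metric.mem_ball, dist_comm]
    exact hcon.trans_lt (hT₂ T e2)
  exact absurd (hT T e1 i ⟨h2, hi⟩) (not_lt.2 hcon)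

end Pool.Agent.R437.Met.Near
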