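import Pool.Agent.R437.Met.Hs
import Pool.Agent.Y890.MV.TorExc

/-! Exceptional points covered by hypersurfaces, near a given point of an open set of `ℂ ^ X`. -/

set_option autoImplicit false

open NumberField

namespace Pool.Agent.R437.Met.Tors

open Fam Hs
open Pool.Agent.Y124 (Cov)
open Pool.Agent.Y890.MV

theorem isPt_of {K : Type} [Field K] [NumberField K] {T : ℝ} {x : K} (h : Y120.HtLe K T x) :
    IsPt K T x := by
  obtain ⟨a, b, hb, ha1, hb1, hx⟩ := h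
  exact ⟨a, b, hb, fun φ => ⟨(Y120.house_ge K _ φ).trans ha1, (Y120.house_ge K _ φ).trans hb1⟩, hx⟩

theorem htLe_mono {K : Type} [Field K] [NumberField K] {T T' : ℝ} {x : K} (h : Y120.HtLe K T x)
    (hT : T ≤ T') : Y120.HtLe K T' x := by
  obtain ⟨a, b, hb, ha1, hb1, hx⟩ := h
  exact ⟨a, b, hb, ha1.trans hT, hb1.trans hT, hx⟩

theorem htLe_of {K : Type} [Field K] [NumberField K] {T : ℝ} {x : K} (h : IsPt K T x) :
    Y120.HtLe K T x := by
  obtain ⟨a, b, hb, hab, hx⟩ := h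
  obtain ⟨φ₀⟩ : Nonempty (K →+* ℂ) := inferInstance
  have h0 : 0 ≤ T := (norm_nonneg _).trans (hab φ₀).1
  exact ⟨a, b, hb, Y120.house_le K h0 fun φ => (hab φ).1, Y120.house_le K h0 fun φ => (hab φ).2, hx⟩

theorem count_le (K : Type) [Field K] [NumberField K] : ∃ C : ℝ, 0 ≤ C ∧ ∀ T : ℝ, 1 ≤ T →
    ({x : K | Y120.HtLe K T x}.ncard : ℝ) ≤ C * T ^ (2 * Module.finrank ℚ K) := by
  obtain ⟨C, hC, h⟩ := pt_count K
  refine ⟨C, hC, fun T hT => le_trans ?_ (h T hT)⟩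
  have hsub : {x : K | Y120.HtLe K T x} ⊆ {x : K | IsPt K T x} := fun x hx => isPt_of hx
  exact_mod_cast Set.ncard_le_ncard hsub (pt_finite K T)

theorem near {X : Type} [Fintype X] [DecidableEq X] [Nonempty X] (K : Type) [Field K] [NumberField K]
    (io : K →+* ℂ) (U : Set (X → ℂ)) (hU : IsOpen U) (Bad : ℕ → ℝ → (X → K) → Prop)
    (hmono : ∀ k T T' s, 1 ≤ T → T ≤ T' → Bad k T s → Bad k T' s) (k₁ : ℕ)
    (H : ∀ (k : ℕ) (ε : ℝ), k₁ ≤ k → 0 < ε → ∃ (D : ℕ) (C T₀ : ℝ), 0 ≤ C ∧ ∀ T : ℝ, T₀ ≤ T →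
      Cov D ⌊C * T ^ ε⌋₊ ((fun (s : X → K) j => io (s j)) ''
        {s | (∀ j, Y120.HtLe K T (s j)) ∧ (fun j => io (s j)) ∈ InnerM U k ∧ Bad k T s}))
    (τ : ℝ) (hτ : 0 < τ) :
    ∃ E : Set (X → ℂ),
      dimH E ≤ ENNReal.ofReal (2 * (Module.finrank ℚ K : ℝ) * ((Fintype.card X : ℝ) - 1) / τ) ∧
      ∀ ξ ∈ U, ξ ∉ E → ∃ k₀ : ℕ, ∀ k : ℕ, k₀ ≤ k → ∀ C : ℝ, ∃ T₁ : ℝ, ∀ T : ℝ, T₁ ≤ T → ∀ s : X → K,
        (∀ j, Y120.HtLe K T (s j) ∧ ‖ξ j - io (s j)‖ ≤ C * T ^ (-τ)) → ¬ Bad k T s := by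
  classical
  have hX : 1 ≤ Fintype.card X := Fintype.card_pos
  have hX' : (1 : ℝ) ≤ Fintype.card X := by exact_mod_cast hX
  have hm : (0 : ℝ) ≤ Module.finrank ℚ K := Nat.cast_nonneg _
  have hs : 0 ≤ 2 * (Module.finrank ℚ K : ℝ) * ((Fintype.card X : ℝ) - 1) :=
    mul_nonneg (by linarith) (by linarith)
  have hgood : ∀ k : ℕ, k₁ ≤ k → Good (fun _ _ T => {s : X → K | (∀ j, Y120.HtLe K T (s j)) ∧
      (fun j => io (s j)) ∈ InnerM U k ∧ Bad k T s})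
      (2 * (Module.finrank ℚ K : ℝ) * ((Fintype.card X : ℝ) - 1)) := by
    intro k hk
    refine ⟨fun A ε _ hε => ?_, fun _ _ _ T _ _ => subset_rfl, fun _ _ _ T _ _ => subset_rfl, ?_⟩
    · obtain ⟨D, C, T₀, hC, hcov⟩ := H k ε hk hε
      obtain ⟨C₁, hC₁, hcnt⟩ := count_le K
      refine ⟨0, C * D * C₁ ^ (Fintype.card X - 1), max T₀ 1, fun T hT => ?_⟩
      have hT1 : 1 ≤ T := (le_max_right _ _).trans hT
      have hT0 : 0 < T := by linarith
      obtain ⟨h1, h2⟩ := cov_count io {x : K | Y120.HtLe K T x} (Y120.HtLe_fin K T) _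
        (fun s hs => hs.1) (hcov T ((le_max_left _ _).trans hT))
      refine ⟨h1, ?_⟩
      have h3 : ((⌊C * T ^ ε⌋₊ : ℕ) : ℝ) ≤ C * T ^ ε := Nat.floor_le (by positivity)
      have h4 : ({x : K | Y120.HtLe K T x}.ncard : ℝ) ^ (Fintype.card X - 1) ≤
          (C₁ * T ^ (2 * Module.finrank ℚ K)) ^ (Fintype.card X - 1) :=
        pow_le_pow_left₀ (Nat.cast_nonneg _) (hcnt T hT1) _
      calc ((({s : X → K | (∀ j, Y120.HtLe K T (s j)) ∧ (fun j => io (s j)) ∈ InnerM U k ∧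
            Bad k T s}).ncard : ℕ) : ℝ)
          ≤ ((⌊C * T ^ ε⌋₊ * (D * {x : K | Y120.HtLe K T x}.ncard ^ (Fintype.card X - 1)) : ℕ) : ℝ) := by
            exact_mod_cast h2
        _ = ((⌊C * T ^ ε⌋₊ : ℕ) : ℝ) * (D *
            ({x : K | Y120.HtLe K T x}.ncard : ℝ) ^ (Fintype.card X - 1)) := by push_cast; rfl
        _ ≤ (C * T ^ ε) * (D * (C₁ * T ^ (2 * Module.finrank ℚ K)) ^ (Fintype.card X - 1)) :=
            mul_le_mul h3 (mul_le_mul_of_nonneg_left h4 (Nat.cast_nonneg _)) (by positivity)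
              (by positivity)
        _ = C * D * C₁ ^ (Fintype.card X - 1) *
            (T ^ (2 * (Module.finrank ℚ K : ℝ) * ((Fintype.card X : ℝ) - 1)) * T ^ ε) := by
            rw [mul_pow, ← pow_mul, ← Real.rpow_natCast T (2 * Module.finrank ℚ K * (Fintype.card X - 1))]
            have e : ((2 * Module.finrank ℚ K * (Fintype.card X - 1) : ℕ) : ℝ) =
                2 * (Module.finrank ℚ K : ℝ) * ((Fintype.card X : ℝ) - 1) := by
              push_cast [Nat.cast_sub hX]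
              ring
            rw [e]
            ring
        _ = C * D * C₁ ^ (Fintype.card X - 1) *
            T ^ (2 * (Module.finrank ℚ K : ℝ) * ((Fintype.card X : ℝ) - 1) + ε) := by
            rw [← Real.rpow_add hT0]
    · rintro A B T T' - - - hT1 hTT' - s ⟨h1, h2, h3⟩
      exact ⟨fun j => htLe_mono (h1 j) hTT', h2, hmono k T T' s hT1 hTT' h3⟩
  have hfam : ∀ k : ℕ, ∃ E : Set (X → ℂ),
      dimH E ≤ ENNReal.ofReal (2 * (Module.finrank ℚ K : ℝ) * ((Fintype.card X : ℝ) - 1) / τ) ∧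
      (k₁ ≤ k → ∀ ξ ∉ E, ∀ C : ℝ, ∃ T₁ : ℝ, ∀ T : ℝ, T₁ ≤ T → ∀ s : X → K,
        (∀ j, Y120.HtLe K T (s j)) → (fun j => io (s j)) ∈ InnerM U k → Bad k T s →
          C * T ^ (-τ) < dist ξ (fun j => io (s j))) := by
    intro k
    by_cases hk : k₁ ≤ k
    · obtain ⟨E, hE, h⟩ := fam (fun (s : X → K) (j : X) => io (s j)) _ hs hτ (hgood k hk)
      refine ⟨E, hE, fun _ ξ hξ C => ?_⟩
      obtain ⟨B, hB⟩ := h ξ hξ 0
      obtain ⟨T₁, hT₁⟩ := hB C
      exact ⟨T₁, fun T hT s h1 h2 h3 => hT₁ T hT s ⟨h1, h2, h3⟩⟩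
    · exact ⟨∅, by rw [dimH_empty]; exact bot_le, fun h => absurd h hk⟩
  choose E hE h using hfam
  refine ⟨⋃ k, E k, ?_, fun ξ hξ hξE => ?_⟩
  · rw [dimH_iUnion]
    exact iSup_le hE
  · obtain ⟨r, hr, hrU⟩ := Metric.isOpen_iff.1 hU ξ hξ
    obtain ⟨k₀, hk₀⟩ := exists_nat_ge (max (‖ξ‖ + r) (2 / r))
    refine ⟨max k₀ k₁, fun k hk C => ?_⟩
    have hk1 : k₁ ≤ k := (le_max_right _ _).trans hk
    have hkk : (k₀ : ℝ) ≤ k := by exact_mod_cast (le_max_left _ _).trans hk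
    have hka : ‖ξ‖ + r ≤ k := ((le_max_left _ _).trans hk₀).trans hkk
    have hkb : 2 / r ≤ k := ((le_max_right _ _).trans hk₀).trans hkk
    have hkpos : (0 : ℝ) < k := lt_of_lt_of_le (by positivity) hkb
    have hkc : (k : ℝ)⁻¹ ≤ r / 2 := by
      rw [inv_le_comm₀ hkpos (by positivity)]
      calc (r / 2)⁻¹ = 2 / r := by rw [inv_div]
        _ ≤ k := hkb
    obtain ⟨T₁, hT₁⟩ := h k hk1 ξ (fun hmem => hξE (Set.mem_iUnion.2 ⟨k, hmem⟩)) |C|
    obtain ⟨T₂, hT₂⟩ := Near.small (C := |C|) hτ (by positivity : (0 : ℝ) < r / 2)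
    refine ⟨max (max T₁ T₂) 0, fun T hT s hs hbad => ?_⟩
    have hTa : T₁ ≤ T := ((le_max_left _ _).trans (le_max_left _ _)).trans hT
    have hTb : T₂ ≤ T := ((le_max_right _ _).trans (le_max_left _ _)).trans hT
    have hT0 : 0 ≤ T := (le_max_right _ _).trans hT
    have hd : dist ξ (fun j => io (s j)) ≤ |C| * T ^ (-τ) := by
      rw [dist_pi_le_iff (by positivity)]
      intro j
      rw [dist_eq_norm]
      exact (hs j).2.trans (mul_le_mul_of_nonneg_right (le_abs_self C) (by positivity))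
    have hd2 : dist ξ (fun j => io (s j)) < r / 2 := hd.trans_lt (hT₂ T hTb)
    have hin : (fun j => io (s j)) ∈ InnerM U k := by
      constructor
      · have h1 := norm_sub_norm_le (fun j => io (s j)) ξ
        rw [← dist_eq_norm, dist_comm] at h1
        linarith
      · intro z hz
        apply hrU
        rw [Metric.mem_ball] at hz ⊢
        have h1 := dist_triangle z (fun j => io (s j)) ξ
        rw [dist_comm (fun j => io (s j)) ξ] at h1
        linarith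
    exact absurd (hT₁ T hTa s (fun j => (hs j).1) hin hbad) (not_lt.2 hd)

end Pool.Agent.R437.Met.Tors
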