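import Pool.Agent.R437.Met.NT

/-! Tuples of elements of a number field near a given point. -/

set_option autoImplicit false

open Height

namespace Pool.Agent.R437.Met.Tup

open Fam

/-- a relation with coefficients in `k` -/
def PolyRel {k : Type} [Field k] [NumberField k] (σ : k →+* ℂ) {κ : Type} (v : κ → ℂ) (d : ℕ)
    (A B T : ℝ) : Prop :=
  ∃ P : MvPolynomial κ k, P ≠ 0 ∧ (∀ i, P.degreeOf i ≤ d) ∧ (∀ e, mulHeight₁ (P.coeff e) ≤ T ^ A) ∧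
    ‖MvPolynomial.eval₂ σ v P‖ ≤ T ^ (-B)

theorem tuple_poly (k : Type) [Field k] [NumberField k] (σ : k →+* ℂ) (n : ℕ) (hn : 1 ≤ n)
    (S : Fin n → Set ℂ) (hS : ∀ j, IsOpen (S j)) {κ : Type} (num : (Fin n → k) → κ → ℂ)
    (hcount : ∀ K : Fin n → Set ℂ, (∀ j, IsCompact (K j)) → (∀ j, K j ⊆ S j) →
      ∀ (d : ℕ) (A ε : ℝ), 0 < ε → ∃ B C : ℝ, ∀ T : ℝ, 1 ≤ T →
        {x : Fin n → k | (∀ j, σ (x j) ∈ K j ∧ mulHeight₁ (x j) ≤ T) ∧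
          PolyRel σ (num x) d A B T}.Finite ∧
        (({x : Fin n → k | (∀ j, σ (x j) ∈ K j ∧ mulHeight₁ (x j) ≤ T) ∧
          PolyRel σ (num x) d A B T}.ncard : ℕ) : ℝ) ≤
            C * T ^ ε * ({x : k | mulHeight₁ x ≤ T}.ncard : ℝ) ^ (n - 1))
    (τ : ℝ) (hτ : 0 < τ) :
    ∃ E : Set (Fin n → ℂ), dimH E ≤ ENNReal.ofReal (2 * ((n : ℝ) - 1) / τ) ∧
      ∀ ξ : Fin n → ℂ, (∀ j, ξ j ∈ S j) → ξ ∉ E → ∀ (d : ℕ) (A : ℝ), ∃ B : ℝ, ∀ C : ℝ, ∃ T₁ : ℝ,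
        ∀ T : ℝ, T₁ ≤ T → ∀ x : Fin n → k,
          (∀ j, mulHeight₁ (x j) ≤ T ∧ ‖ξ j - σ (x j)‖ ≤ C * T ^ (-τ)) →
            ¬ PolyRel σ (num x) d A B T := by
  have hn' : (1 : ℝ) ≤ n := by exact_mod_cast hn
  have hSo : IsOpen (Set.pi Set.univ S) := isOpen_set_pi Set.finite_univ fun j _ => hS j
  have key : ∀ K : Set (Fin n → ℂ), IsCompact K → K ⊆ Set.pi Set.univ S → ∀ d : ℕ,
      Good (fun A B T => {x : Fin n → k | (fun j => σ (x j)) ∈ K ∧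
        (∀ j, mulHeight₁ (x j) ≤ T) ∧ PolyRel σ (num x) d A B T}) (2 * ((n : ℝ) - 1)) := by
    intro K hK hKS d
    have hKj : ∀ j, IsCompact ((fun ξ : Fin n → ℂ => ξ j) '' K) := fun j =>
      hK.image (continuous_apply j)
    have hKSj : ∀ j, (fun ξ : Fin n → ℂ => ξ j) '' K ⊆ S j := by
      rintro j _ ⟨ξ, hξ, rfl⟩
      exact hKS hξ j (Set.mem_univ j)
    refine ⟨fun A ε _ hε => ?_, ?_, ?_, ?_⟩
    · obtain ⟨B, C, hBC⟩ := hcount _ hKj hKSj d A ε hε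
      obtain ⟨C', hC'⟩ := NT.pow_count k n hn C ε
      refine ⟨B, C', 1, fun T hT => ?_⟩
      obtain ⟨h1, h2⟩ := hBC T hT
      have hsub : {x : Fin n → k | (fun j => σ (x j)) ∈ K ∧ (∀ j, mulHeight₁ (x j) ≤ T) ∧
          PolyRel σ (num x) d A B T} ⊆
        {x : Fin n → k | (∀ j, σ (x j) ∈ (fun ξ : Fin n → ℂ => ξ j) '' K ∧ mulHeight₁ (x j) ≤ T) ∧
          PolyRel σ (num x) d A B T} := by
        rintro x ⟨e1, e2, e3⟩
        exact ⟨fun j => ⟨⟨_, e1, rfl⟩, e2 j⟩, e3⟩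
      refine ⟨h1.subset hsub, le_trans ?_ (h2.trans (hC' T hT))⟩
      exact_mod_cast Set.ncard_le_ncard hsub h1
    · rintro A A' B T hA hT x ⟨h1, h2, P, h3, h4, h5, h6⟩
      exact ⟨h1, h2, P, h3, h4, fun e => (h5 e).trans (Fam.pow_mono hA hT), h6⟩
    · rintro A B B' T hB hT x ⟨h1, h2, P, h3, h4, h5, h6⟩
      exact ⟨h1, h2, P, h3, h4, h5, h6.trans (Fam.pow_mono (by linarith) hT)⟩
    · rintro A B T T' hA hB h2B hT h1 h2 x ⟨e1, e2, P, h3, h4, h5, h6⟩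
      exact ⟨e1, fun j => (e2 j).trans h1, P, h3, h4, fun e => (h5 e).trans
        (Real.rpow_le_rpow (by linarith) h1 hA), h6.trans (Fam.pow_dyadic hB hT h1 h2 h2B)⟩
  obtain ⟨E, hE, h⟩ := Near.near_pos (J := ℕ) (Set.pi Set.univ S) hSo
    (fun (x : Fin n → k) (j : Fin n) => σ (x j))
    (fun d A B T x => (∀ j, mulHeight₁ (x j) ≤ T) ∧ PolyRel σ (num x) d A B T)
    (s := 2 * ((n : ℝ) - 1)) (by linarith) hτ key
  refine ⟨E, hE, fun ξ hξ hξE d A => ?_⟩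
  obtain ⟨B, hB⟩ := h ξ (fun j _ => hξ j) hξE d A
  refine ⟨B, fun C => ?_⟩
  obtain ⟨T₁, hT⟩ := hB |C|
  refine ⟨max T₁ 0, fun T hT' x hx hrel => ?_⟩
  have hT0 : 0 ≤ T := (le_max_right _ _).trans hT'
  have h1 := hT T ((le_max_left _ _).trans hT') x ⟨fun j => (hx j).1, hrel⟩
  refine absurd h1 (not_lt.2 ?_)
  rw [dist_pi_le_iff (by positivity)]
  intro j
  rw [dist_eq_norm]
  exact (hx j).2.trans (mul_le_mul_of_nonneg_right (le_abs_self C) (by positivity))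

end Pool.Agent.R437.Met.Tup
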