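import Pool.Agent.R437.Met.Lim
import Pool.Agent.TH905.VF.Prod

/-! One exceptional set for all products of curves over all number fields. -/

set_option autoImplicit false

namespace Pool.Agent.R437.Met

open NumberField IsDedekindDomain Height Polynomial Filter Topology
open Pool.Agent.W223.AC (tt)
open Pool.Agent.H691R3 (fv)
open Pool.Agent.TH905.VF
open Pool.Agent.Results.MP_9ec3f0_nt.ProductFibres (exponent counting)
open scoped Classical

section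

variable (K : Type) [Field K] [NumberField K]

theorem countable_primes : Countable (HeightOneSpectrum (𝓞 K)) := by
  have h1 : (Set.univ : Set (HeightOneSpectrum (𝓞 K))) ⊆
      ⋃ n : ℕ, {v | Ideal.absNorm v.asIdeal = n + 1} := by
    intro v _
    have h2 : Ideal.absNorm v.asIdeal ≠ 0 := by
      rw [Ne, Ideal.absNorm_eq_zero_iff]
      exact v.ne_bot
    exact Set.mem_iUnion.2 ⟨Ideal.absNorm v.asIdeal - 1, by
      show Ideal.absNorm v.asIdeal = Ideal.absNorm v.asIdeal - 1 + 1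
      omega⟩
  have h2 : (Set.univ : Set (HeightOneSpectrum (𝓞 K))).Countable := by
    refine (Set.countable_iUnion fun n => ?_).mono h1
    have h3 : {I : Ideal (𝓞 K) | Ideal.absNorm I = n + 1}.Finite :=
      Ideal.finite_setOfPred_absNorm_eq (n + 1)
    exact (h3.preimage (f := fun v : HeightOneSpectrum (𝓞 K) => v.asIdeal)
      (fun v _ w _ h => HeightOneSpectrum.ext h)).countable
  exact Set.countable_univ_iff.1 h2

/-- the tuples with a small truncated counting function -/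
def CE {n : ℕ} (T : Finset (HeightOneSpectrum (𝓞 K))) (q : Fin n → ℕ)
    (a : ∀ i, Fin (q i) → ℚ) (κ c : ℝ) : Set (Fin n → K) :=
  {x | (∀ i j, x i ≠ (a i j : K)) ∧
    counting (T : Set (HeightOneSpectrum (𝓞 K))) (fun i l => (((a i l : ℚ) : K), (1 : K))) x <
      ∑ i, ((q i : ℝ) - κ) * logHeight₁ (x i) + c}

/-- the height of a tuple -/
noncomputable def Ht {K : Type} [Field K] [NumberField K] {n : ℕ} (x : Fin n → K) : ℝ :=
  Real.exp (⨆ i, logHeight₁ (x i))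

variable {K}

lemma one_le_Ht {n : ℕ} (x : Fin n → K) : 1 ≤ Ht x :=
  Real.one_le_exp (Real.iSup_nonneg fun i => zero_le_logHeight₁ (x i))

lemma Ht_le {n : ℕ} (x : Fin n → K) {B : ℝ} (hB : 1 ≤ B) :
    Ht x ≤ B ↔ ∀ i, logHeight₁ (x i) ≤ Real.log B := by
  unfold Ht
  rw [← Real.le_log_iff_exp_le (by linarith)]
  constructor
  · intro h i
    exact (le_ciSup (Set.finite_range fun i => logHeight₁ (x i)).bddAbove i).trans h
  · intro h
    exact Real.iSup_le h (Real.log_nonneg hB)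

lemma exponent_nonneg (n Q : ℕ) (hn : 1 ≤ n) (hQ : 2 ≤ Q) (κ : ℝ) (hκ : κ ≤ 2) :
    0 ≤ exponent n Q κ := by
  have hQ' : (2 : ℝ) ≤ Q := by exact_mod_cast hQ
  have hn' : (1 : ℝ) ≤ n := by exact_mod_cast hn
  have hβ0 : 0 ≤ 1 - 2 / (Q : ℝ) := by
    rw [sub_nonneg, div_le_one (by linarith)]
    exact hQ'
  have hβ1 : 1 - 2 / (Q : ℝ) ≤ 1 := by
    have : 0 ≤ 2 / (Q : ℝ) := by positivity
    linarith
  unfold exponent
  refine le_min ?_ (le_min ?_ ?_)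
  · refine le_max_of_le_right ?_
    linarith
  · refine mul_nonneg ?_ (by linarith)
    have h1 : 4 * κ / (Q : ℝ) ^ 2 ≤ 2 := by
      rw [div_le_iff₀ (by positivity)]
      nlinarith
    linarith
  · refine mul_nonneg (mul_nonneg (by linarith) ?_) (by linarith)
    have := pow_le_one₀ (n := n) hβ0 hβ1
    linarith

theorem ce_count {n : ℕ} (hn : 1 ≤ n) (Q : ℕ) (hQ : 2 ≤ Q)
    (T : Finset (HeightOneSpectrum (𝓞 K))) (q : Fin n → ℕ) (hq1 : ∀ i, 1 ≤ q i)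
    (hqQ : ∀ i, q i ≤ Q) (a : ∀ i, Fin (q i) → ℚ) (ha : ∀ i, Function.Injective (a i))
    (κ c δ : ℝ) (hκ0 : 0 ≤ κ) (hκ2 : κ ≤ 2) (hδ : 0 < δ) :
    ∃ M : ℝ, ∀ B : ℝ, 1 ≤ B → {x | x ∈ CE K T q a κ c ∧ Ht x ≤ B}.Finite ∧
      (({x | x ∈ CE K T q a κ c ∧ Ht x ≤ B}.ncard : ℕ) : ℝ) ≤ M * B ^ (exponent n Q κ + δ) := by
  obtain ⟨M, hM⟩ := Pool.Agent.Results.MP_9ec3f0_nt.ProductFibres.result K
    (T : Set (HeightOneSpectrum (𝓞 K)))
    (Finset.finite_toSet _) n hn q hq1 Q hQ hqQ (fun i l => (((a i l : ℚ) : K), (1 : K)))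
    (fun i l h => one_ne_zero (α := K) (congrArg Prod.snd h))
    (by
      intro i l j hlj h
      simp only [mul_one, one_mul] at h
      exact hlj (ha i (by exact_mod_cast sub_eq_zero.1 h))) κ c δ hκ0 hκ2 hδ
  refine ⟨M, fun B hB => ?_⟩
  have e : {x | x ∈ CE K T q a κ c ∧ Ht x ≤ B} = {x : Fin n → K |
      (∀ i, ∀ l, x i * (((a i l : ℚ) : K), (1 : K)).2 - 1 * (((a i l : ℚ) : K), (1 : K)).1 ≠ 0) ∧
      (∀ i, Pool.Agent.Results.MP_9ec3f0_nt.ProductFibres.height (x i) ≤ Real.log B) ∧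
      counting (T : Set (HeightOneSpectrum (𝓞 K)))
        (fun i l => (((a i l : ℚ) : K), (1 : K))) x <
        ∑ i, ((q i : ℝ) - κ) *
          Pool.Agent.Results.MP_9ec3f0_nt.ProductFibres.height (x i) + c} := by
    ext x
    simp only [Set.mem_ofPred_eq, CE, Ht_le x hB, hr_eq, mul_one, one_mul, sub_ne_zero]
    tauto
  rw [e]
  exact hM B hB

/-- the violation of Vojta's inequality implies a small counting function -/
theorem viol_sub {n : ℕ} {q : Fin n → ℕ} (A : Fin n → Type)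
    [∀ i, CommRing (A i)] [∀ i, IsDedekindDomain (A i)] [∀ i, Algebra ℚ (A i)]
    [∀ i, Algebra ℚ[X] (A i)] [∀ i, IsScalarTower ℚ ℚ[X] (A i)] [∀ i, Module.Finite ℚ[X] (A i)]
    [∀ i, FaithfulSMul ℚ[X] (A i)] (a : ∀ i, Fin (q i) → ℚ)
    (u : ∀ i, Fin (q i) → ℕ) (y : ∀ i j, Fin (u i j + 1) → A i)
    (hy0 : ∀ i j, y i j 0 = tt (A i) - algebraMap ℚ[X] (A i) (C (a i j)))
    (hyr : ∀ i j l, y i j l ∈
      (Ideal.span {tt (A i) - algebraMap ℚ[X] (A i) (C (a i j))}).radical)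
    (κ ε : ℝ) (hε : 0 < ε) :
    ∃ (T : Finset (HeightOneSpectrum (𝓞 K))) (C₀ : ℝ), ∀ (c : ℝ) (x : Fin n → K),
      (∀ i j, x i ≠ (a i j : K)) →
      (∃ (L : Type) (_ : Field L) (_ : NumberField L) (_ : Algebra K L) (φ : ∀ i, A i →+* L),
        (∀ i, φ i (tt (A i)) = algebraMap K L (x i)) ∧
        ld K L + c <
          ∑ i, ((q i : ℝ) - (∑ j, (Module.finrank ℚ
            (A i ⧸ Ideal.span (Set.range (y i j))) : ℝ)) / Module.finrank ℚ[X] (A i) - κ) *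
              logHeight₁ (x i)) → x ∈ CE K T q a (κ - ε) (C₀ - c) := by
  obtain ⟨T, C₀, hkey⟩ := prod_key K A a u y hy0 hyr ε hε
  obtain ⟨T', hT'⟩ := den_finset (K := K) a
  refine ⟨T ∪ T', C₀, fun c x hne ⟨L, i1, i2, i3, φ, hφ, hv⟩ => ⟨hne, ?_⟩⟩
  refine lt_of_le_of_lt (counting_le a (T ∪ T') (fun v hv => hT' v fun h =>
    hv (Finset.mem_union_right _ h)) x hne
    (ld K L + ∑ i, ((∑ j, (Module.finrank ℚ (A i ⧸ Ideal.span (Set.range (y i j))) : ℝ)) /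
        Module.finrank ℚ[X] (A i) + ε) * logHeight₁ (x i) + C₀) ?_) ?_
  · intro R hR
    have h3 := hkey L φ x hφ hne ∅ R (by
      intro v hv
      obtain ⟨h4, h5⟩ := hR v hv
      exact ⟨Finset.notMem_empty v, fun h => h4 (Finset.mem_union_left _ h), h5⟩)
    have h4 := proxC_nonneg (K := K) ∅ y φ
    linarith
  · have h3 : ∑ i, ((q i : ℝ) - (κ - ε)) * logHeight₁ (x i) =
        ∑ i, ((q i : ℝ) - (∑ j, (Module.finrank ℚ
          (A i ⧸ Ideal.span (Set.range (y i j))) : ℝ)) / Module.finrank ℚ[X] (A i) - κ) *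
          logHeight₁ (x i) +
        ∑ i, ((∑ j, (Module.finrank ℚ (A i ⧸ Ideal.span (Set.range (y i j))) : ℝ)) /
          Module.finrank ℚ[X] (A i) + ε) * logHeight₁ (x i) := by
      rw [← Finset.sum_add_distrib]
      refine Finset.sum_congr rfl fun i _ => ?_
      ring
    rw [h3]
    linarith

/-- the points near infinitely many elements of `CE` -/
def LS {n : ℕ} {X : Type*} [MetricSpace X] (f : (Fin n → K) → X) (τ κ : ℝ) (Q : ℕ)
    (T : Finset (HeightOneSpectrum (𝓞 K))) (q : Fin n → ℕ) (a : ∀ i, Fin (q i) → ℚ) (c : ℕ) :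
    Set X :=
  {ξ | ((∀ i, 1 ≤ q i) ∧ (∀ i, q i ≤ Q) ∧ ∀ i, Function.Injective (a i)) ∧
    ∃ C : ℝ, {x | x ∈ CE K T q a κ c ∧ dist ξ (f x) ≤ C * (Ht x) ^ (-τ)}.Infinite}

theorem dim_LS {n : ℕ} (hn : 1 ≤ n) {X : Type*} [MetricSpace X] (f : (Fin n → K) → X)
    {τ κ : ℝ} (hτ : 0 < τ) (hκ0 : 0 ≤ κ) (hκ2 : κ ≤ 2) (Q : ℕ) (hQ : 2 ≤ Q)
    (T : Finset (HeightOneSpectrum (𝓞 K))) (q : Fin n → ℕ) (a : ∀ i, Fin (q i) → ℚ) (c : ℕ) :
    dimH (LS f τ κ Q T q a c) ≤ ENNReal.ofReal (exponent n Q κ / τ) := by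
  by_cases h : (∀ i, 1 ≤ q i) ∧ (∀ i, q i ≤ Q) ∧ ∀ i, Function.Injective (a i)
  · refine (dimH_mono fun ξ hξ => hξ.2).trans ?_
    exact dim_limsup (CE K T q a κ c) f Ht (fun x _ => one_le_Ht x)
      (exponent_nonneg n Q hn hQ κ hκ2) hτ
      (fun δ hδ => ce_count hn Q hQ T q h.1 h.2.1 a h.2.2 κ c δ hκ0 hκ2 hδ)
  · have e : LS f τ κ Q T q a c = ∅ := by
      ext ξ
      simp only [LS, Set.mem_ofPred_eq, Set.mem_empty_iff_false, iff_false]
      exact fun h1 => h h1.1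
    rw [e, dimH_empty]
    exact zero_le

theorem exists_set {n : ℕ} (hn : 1 ≤ n) {X : Type*} [MetricSpace X] (f : (Fin n → K) → X)
    {τ κ : ℝ} (hτ : 0 < τ) (hκ0 : 0 < κ) (hκ2 : κ ≤ 2) (Q : ℕ) (hQ : 2 ≤ Q) :
    ∃ E : Set X, dimH E ≤ ENNReal.ofReal (exponent n Q κ / τ) ∧ ∀ ξ ∉ E, ∃ ε : ℝ, 0 < ε ∧
      ∀ (T : Finset (HeightOneSpectrum (𝓞 K))) (q : Fin n → ℕ) (a : ∀ i, Fin (q i) → ℚ),
      (∀ i, 1 ≤ q i) → (∀ i, q i ≤ Q) → (∀ i, Function.Injective (a i)) → ∀ c C : ℝ,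
      {x | x ∈ CE K T q a (κ - ε) c ∧ dist ξ (f x) ≤ C * (Ht x) ^ (-τ)}.Finite := by
  have _ := countable_primes K
  have hj : ∀ j : ℕ, 0 < κ / ((j : ℝ) + 1) ∧ κ / ((j : ℝ) + 1) ≤ κ := by
    intro j
    have : (0 : ℝ) ≤ j := Nat.cast_nonneg j
    refine ⟨by positivity, div_le_self hκ0.le (by linarith)⟩
  refine ⟨⋂ j : ℕ, ⋃ T, ⋃ q, ⋃ a, ⋃ c, LS f τ (κ - κ / ((j : ℝ) + 1)) Q T q a c, ?_, ?_⟩
  · have hlim : Tendsto (fun j : ℕ => ENNReal.ofReal
        ((exponent n Q κ + n * (κ / ((j : ℝ) + 1))) / τ)) atTop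
          (𝓝 (ENNReal.ofReal (exponent n Q κ / τ))) := by
      refine ENNReal.tendsto_ofReal ?_
      have h1 : Tendsto (fun j : ℕ => κ * (1 / ((j : ℝ) + 1))) atTop (𝓝 (κ * 0)) :=
        tendsto_one_div_add_atTop_nhds_zero_nat.const_mul κ
      have h2 : Tendsto (fun j : ℕ => (exponent n Q κ + n * (κ * (1 / ((j : ℝ) + 1)))) / τ) atTop
          (𝓝 ((exponent n Q κ + n * (κ * 0)) / τ)) :=
        ((h1.const_mul (n : ℝ)).const_add _).div_const τ
      simp only [mul_zero, add_zero] at h2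
      refine h2.congr fun j => ?_
      rw [mul_one_div]
    refine ge_of_tendsto' hlim fun j => ?_
    refine (dimH_mono (Set.iInter_subset _ j)).trans ?_
    rw [dimH_iUnion]
    refine iSup_le fun T => ?_
    rw [dimH_iUnion]
    refine iSup_le fun q => ?_
    rw [dimH_iUnion]
    refine iSup_le fun a => ?_
    rw [dimH_iUnion]
    refine iSup_le fun c => ?_
    have h3 := (hj j).1
    have h4 := (hj j).2
    refine (dim_LS hn f hτ (by linarith) (by linarith) Q hQ T q a c).trans ?_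
    refine ENNReal.ofReal_le_ofReal (div_le_div_of_nonneg_right ?_ hτ.le)
    exact exponent_lip n Q hQ κ _ h3.le
  · intro ξ hξ
    rw [Set.mem_iInter] at hξ
    push Not at hξ
    obtain ⟨j, hj'⟩ := hξ
    refine ⟨κ / ((j : ℝ) + 1), (hj j).1, fun T q a hq1 hqQ ha c C => ?_⟩
    obtain ⟨c', hc'⟩ := exists_nat_ge c
    by_contra hinf
    apply hj'
    refine Set.mem_iUnion.2 ⟨T, Set.mem_iUnion.2 ⟨q, Set.mem_iUnion.2 ⟨a, Set.mem_iUnion.2
      ⟨c', ⟨hq1, hqQ, ha⟩, C, ?_⟩⟩⟩⟩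
    refine Set.Infinite.mono ?_ hinf
    rintro x ⟨⟨h1, h2⟩, h3⟩
    exact ⟨⟨h1, h2.trans_le (by linarith)⟩, h3⟩

end

end Pool.Agent.R437.Met
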